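import Mathlib

/-!
# [H11 PX ABL] Abel summation bound

Proof.  `T t = ∑_{a ∈ Ico A t} z a`, `‖T t‖ ≤ Z`.  `∑_{a ∈ Ico A N} z a G a = T N * G N' - ∑ T (a+1) (G (a+1) - G a)`
with `N' = N - 1` and the sum over `a ∈ Ico A (N-1)` (induction on `N`, or `Finset.sum_Ioc_by_parts`); if
`N = A` both sides are `0`.
-/

namespace Pool.Agent.H11.PX

open Finset

private theorem abl_id (z G : ℕ → ℂ) (A m : ℕ) :
    ∑ a ∈ Ico A (A + m + 1), z a * G a =
      (∑ a ∈ Ico A (A + m + 1), z a) * G (A + m) -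
        ∑ i ∈ range m, (∑ a ∈ Ico A (A + i + 1), z a) * (G (A + i + 1) - G (A + i)) := by
  induction m with
  | zero => simp
  | succ m ih =>
    rw [sum_Ico_succ_top (by omega), show A + (m + 1) = A + m + 1 by omega, ih,
      sum_Ico_succ_top (show A ≤ A + m + 1 by omega) (fun a => z a), sum_range_succ]
    ring

theorem abel_bound (z G : ℕ → ℂ) (A N : ℕ) (hAN : A ≤ N) (Z S V : ℝ) (hZ0 : 0 ≤ Z) (hS0 : 0 ≤ S)
    (hV0 : 0 ≤ V) (hZ : ∀ t, A ≤ t → t ≤ N → ‖∑ a ∈ Ico A t, z a‖ ≤ Z)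
    (hS : ∀ a ∈ Ico A N, ‖G a‖ ≤ S) (hV : ∀ a ∈ Ico A N, ‖G (a + 1) - G a‖ ≤ V) :
    ‖∑ a ∈ Ico A N, z a * G a‖ ≤ Z * (S + ((N : ℝ) - A) * V) := by
  rcases Nat.eq_or_lt_of_le hAN with h | h
  · subst h
    simp only [Ico_self, sum_empty, norm_zero, sub_self, zero_mul, add_zero]
    positivity
  · obtain ⟨m, rfl⟩ : ∃ m, N = A + m + 1 := ⟨N - A - 1, by omega⟩
    rw [abl_id]
    have h1 : ‖(∑ a ∈ Ico A (A + m + 1), z a) * G (A + m)‖ ≤ Z * S := by
      rw [norm_mul]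
      exact mul_le_mul (hZ _ (by omega) le_rfl) (hS _ (mem_Ico.2 ⟨by omega, by omega⟩))
        (norm_nonneg _) hZ0
    have h2 : ‖∑ i ∈ range m, (∑ a ∈ Ico A (A + i + 1), z a) * (G (A + i + 1) - G (A + i))‖ ≤
        m * (Z * V) := by
      refine (norm_sum_le _ _).trans ?_
      calc ∑ i ∈ range m, ‖(∑ a ∈ Ico A (A + i + 1), z a) * (G (A + i + 1) - G (A + i))‖ ≤
            ∑ _i ∈ range m, Z * V := by
            refine sum_le_sum fun i hi => ?_
            rw [mem_range] at hi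
            rw [norm_mul]
            exact mul_le_mul (hZ _ (by omega) (by omega)) (hV _ (mem_Ico.2 ⟨by omega, by omega⟩))
              (norm_nonneg _) hZ0
        _ = m * (Z * V) := by rw [sum_const, card_range, nsmul_eq_mul]
    have h3 : 0 ≤ Z * V := mul_nonneg hZ0 hV0
    calc _ ≤ Z * S + m * (Z * V) := (norm_sub_le _ _).trans (add_le_add h1 h2)
      _ ≤ Z * (S + (((A + m + 1 : ℕ) : ℝ) - A) * V) := by
          push_cast
          nlinarith

end Pool.Agent.H11.PX
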