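import Pool.Agent.H11.PX.Defs

/-!
# [H11 PC CDI] Number of diagonal pairs

Proof.  `c0 b f l b' f' l' = 0` iff `l b' f' = l' b f` (multiply by `gcd(f,f')`).  For a fixed second index
`(b', f', l')`... choose instead the index `t.2 = (b', f', l')` and `t.1 = (b, f, l)`; the equation says
`l b' f' = l' b f`; sort by the value `n = l' b f ≠ 0` of the triple `(l', b, f)`: there are at most
`(2L) B F` triples `(l', b, f)` (`card (fr L) ≤ 2 L`), and for each the triple `(l, b', f')` satisfies `b' ∣ |n|`,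
`f' ∣ |n|` and `l = n/(b' f')` is determined: at most `τ(|n|)^2 ≤ D^2` choices (`|n| < 4 L B F`, `|n| ≥ 1`).
-/

namespace Pool.Agent.H11.PX

open Finset

theorem card_fr (L : ℝ) (hL : 0 ≤ L) : ((fr L).card : ℝ) ≤ 2 * L := by
  have h0 : 0 ≤ ⌊L⌋ := Int.floor_nonneg.2 hL
  have h1 : (fr L).card = (2 * ⌊L⌋).toNat := by
    rw [fr, card_erase_of_mem (by rw [mem_Icc]; omega), Int.card_Icc]
    omega
  have h2 : (((2 * ⌊L⌋).toNat : ℕ) : ℝ) = 2 * (⌊L⌋ : ℝ) := by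
    have h3 : (((2 * ⌊L⌋).toNat : ℕ) : ℤ) = 2 * ⌊L⌋ := Int.toNat_of_nonneg (by omega)
    calc (((2 * ⌊L⌋).toNat : ℕ) : ℝ) = ((((2 * ⌊L⌋).toNat : ℕ) : ℤ) : ℝ) := by norm_cast
      _ = 2 * (⌊L⌋ : ℝ) := by rw [h3]; push_cast; ring
  rw [h1, h2]
  have := Int.floor_le L
  linarith

private theorem mem_fr {L : ℝ} {l : ℤ} (h : l ∈ fr L) : l ≠ 0 ∧ (|l| : ℝ) ≤ L := by
  rw [fr, mem_erase, mem_Icc] at h
  refine ⟨h.1, ?_⟩
  have h2 := Int.floor_le L
  rw [abs_le]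
  constructor
  · have : (-(⌊L⌋ : ℝ)) ≤ (l : ℝ) := by exact_mod_cast h.2.1
    linarith
  · have : (l : ℝ) ≤ (⌊L⌋ : ℝ) := by exact_mod_cast h.2.2
    linarith

private theorem c0_zero {b f b' f' : ℕ} {l l' : ℤ} (hf : 0 < f)
    (h : c0 b f l b' f' l' = 0) : l * (b' * f') = l' * (b * f) := by
  have hg : 0 < Nat.gcd f f' := Nat.gcd_pos_of_pos_left _ hf
  have h1 : ((f / Nat.gcd f f' : ℕ) : ℤ) * (Nat.gcd f f' : ℕ) = f := by
    exact_mod_cast Nat.div_mul_cancel (Nat.gcd_dvd_left f f')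
  have h2 : ((f' / Nat.gcd f f' : ℕ) : ℤ) * (Nat.gcd f f' : ℕ) = f' := by
    exact_mod_cast Nat.div_mul_cancel (Nat.gcd_dvd_right f f')
  unfold c0 at h
  have h3 : l * b' * ((f' / Nat.gcd f f' : ℕ) : ℤ) = l' * b * ((f / Nat.gcd f f' : ℕ) : ℤ) :=
    sub_eq_zero.1 h
  calc l * (b' * f') = (l * b' * ((f' / Nat.gcd f f' : ℕ) : ℤ)) * (Nat.gcd f f' : ℕ) := by
        rw [mul_assoc (l * (b' : ℤ)), h2]; ring
    _ = (l' * b * ((f / Nat.gcd f f' : ℕ) : ℤ)) * (Nat.gcd f f' : ℕ) := by rw [h3]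
    _ = l' * (b * f) := by rw [mul_assoc (l' * (b : ℤ)), h1]; ring

theorem diag_count (B F : ℕ) (hB : 0 < B) (hF : 0 < F) (L D : ℝ) (hL : 0 ≤ L) (hD1 : 1 ≤ D)
    (hD : ∀ n : ℕ, 1 ≤ n → (n : ℝ) ≤ 4 * L * B * F → (n.divisors.card : ℝ) ≤ D) :
    ((((Ico B (2 * B) ×ˢ Ico F (2 * F) ×ˢ fr L) ×ˢ
      (Ico B (2 * B) ×ˢ Ico F (2 * F) ×ˢ fr L)).filter
        (fun t => c0 t.1.1 t.1.2.1 t.1.2.2 t.2.1 t.2.2.1 t.2.2.2 = 0)).card : ℝ) ≤
      D ^ 2 * (2 * L * B * F) := by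
  obtain ⟨I, hI⟩ : ∃ I, I = Ico B (2 * B) ×ˢ Ico F (2 * F) ×ˢ fr L := ⟨_, rfl⟩
  rw [← hI]
  obtain ⟨Z, hZ⟩ : ∃ Z, Z = (I ×ˢ I).filter
    (fun t => c0 t.1.1 t.1.2.1 t.1.2.2 t.2.1 t.2.2.1 t.2.2.2 = 0) := ⟨_, rfl⟩
  rw [← hZ]
  have hIm : ∀ i : ℕ × ℕ × ℤ, i ∈ I → (B ≤ i.1 ∧ i.1 < 2 * B) ∧ (F ≤ i.2.1 ∧ i.2.1 < 2 * F) ∧
      i.2.2 ∈ fr L := by
    intro i hi
    rw [hI, mem_product, mem_product, mem_Ico, mem_Ico] at hi
    exact hi
  have hmaps : ∀ t ∈ Z, (fun t : (ℕ × ℕ × ℤ) × (ℕ × ℕ × ℤ) => (t.1.1, t.1.2.1, t.2.2.2)) t ∈ I := by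
    intro t ht
    rw [hZ, mem_filter, mem_product] at ht
    have h1 := hIm _ ht.1.1
    have h2 := hIm _ ht.1.2
    rw [hI, mem_product, mem_product, mem_Ico, mem_Ico]
    exact ⟨h1.1, h1.2.1, h2.2.2⟩
  have hfib := card_eq_sum_card_fiberwise hmaps
  have hIc : (I.card : ℝ) ≤ 2 * L * B * F := by
    rw [hI, card_product, card_product, Nat.card_Ico, Nat.card_Ico]
    have e1 : 2 * B - B = B := by omega
    have e2 : 2 * F - F = F := by omega
    rw [e1, e2]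
    push_cast
    have := card_fr L hL
    have hb : (0 : ℝ) ≤ B := by positivity
    have hf : (0 : ℝ) ≤ F := by positivity
    calc (B : ℝ) * (F * ((fr L).card : ℝ)) ≤ B * (F * (2 * L)) := by gcongr
      _ = 2 * L * B * F := by ring
  have hfb : ∀ i ∈ I, (((Z.filter (fun t => (t.1.1, t.1.2.1, t.2.2.2) = i)).card : ℝ)) ≤ D ^ 2 := by
    rintro ⟨b, f, l'⟩ hi
    have h1 := hIm _ hi
    obtain ⟨⟨hb1, hb2⟩, ⟨hf1, hf2⟩, hl⟩ := h1
    simp only at hb1 hb2 hf1 hf2 hl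
    obtain ⟨hl0, hlL⟩ := mem_fr hl
    obtain ⟨n, hn⟩ : ∃ n : ℤ, n = l' * (b * f) := ⟨_, rfl⟩
    have hb0 : 0 < b := by omega
    have hf0 : 0 < f := by omega
    have hn0 : n ≠ 0 := by
      rw [hn]
      refine mul_ne_zero hl0 (mul_ne_zero ?_ ?_)
      · exact_mod_cast hb0.ne'
      · exact_mod_cast hf0.ne'
    have hnb : (n.natAbs : ℝ) ≤ 4 * L * B * F := by
      have e1 : (n.natAbs : ℝ) = |(l' : ℝ)| * (b * f) := by
        rw [Nat.cast_natAbs, hn]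
        push_cast
        rw [abs_mul, abs_mul, Nat.abs_cast, Nat.abs_cast]
      rw [e1]
      have e2 : (b : ℝ) ≤ 2 * B := by exact_mod_cast hb2.le
      have e3 : (f : ℝ) ≤ 2 * F := by exact_mod_cast hf2.le
      have hb' : (0 : ℝ) ≤ b := by positivity
      have hf' : (0 : ℝ) ≤ f := by positivity
      calc |(l' : ℝ)| * (b * f) ≤ L * ((2 * B) * (2 * F)) := by gcongr
        _ = 4 * L * B * F := by ring
    have hDn := hD n.natAbs (Int.natAbs_pos.2 hn0) hnb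
    have hcard : (Z.filter (fun t => (t.1.1, t.1.2.1, t.2.2.2) = (b, f, l'))).card ≤
        (n.natAbs.divisors ×ˢ n.natAbs.divisors).card := by
      refine card_le_card_of_injOn (fun t => (t.2.1, t.2.2.1)) ?_ ?_
      · intro t ht
        rw [mem_coe, mem_filter, hZ, mem_filter, mem_product] at ht
        obtain ⟨⟨⟨ht1, ht2⟩, htc⟩, hte⟩ := ht
        simp only [Prod.mk.injEq] at hte
        obtain ⟨g1, g2, g3⟩ := hte
        have k1 := hIm _ ht1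
        have k2 := c0_zero (by omega) htc
        rw [g1, g2, g3, ← hn] at k2
        rw [mem_coe, mem_product, Nat.mem_divisors, Nat.mem_divisors]
        refine ⟨⟨?_, Int.natAbs_ne_zero.2 hn0⟩, ⟨?_, Int.natAbs_ne_zero.2 hn0⟩⟩
        · refine Int.natCast_dvd.1 ?_
          rw [← k2]
          exact (Dvd.intro _ rfl : (t.2.1 : ℤ) ∣ (t.2.1 : ℤ) * t.2.2.1).mul_left _
        · refine Int.natCast_dvd.1 ?_
          rw [← k2]
          exact (Dvd.intro_left _ rfl : (t.2.2.1 : ℤ) ∣ (t.2.1 : ℤ) * t.2.2.1).mul_left _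
      · intro t ht u hu htu
        rw [mem_coe, mem_filter, hZ, mem_filter, mem_product] at ht hu
        obtain ⟨⟨⟨ht1, ht2⟩, htc⟩, hte⟩ := ht
        obtain ⟨⟨⟨hu1, hu2⟩, huc⟩, hue⟩ := hu
        simp only [Prod.mk.injEq] at hte hue htu
        obtain ⟨g1, g2, g3⟩ := hte
        obtain ⟨r1, r2, r3⟩ := hue
        obtain ⟨s1, s2⟩ := htu
        have k1 := hIm _ ht1
        have k1' := hIm _ hu1
        have k3 := hIm _ ht2
        have k2 := c0_zero (by omega) htc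
        have k2' := c0_zero (by omega) huc
        rw [g1, g2, g3, ← hn] at k2
        rw [r1, r2, r3, ← hn, ← s1, ← s2] at k2'
        have hpos : ((t.2.1 : ℤ) * t.2.2.1) ≠ 0 := by
          refine mul_ne_zero ?_ ?_
          · have : 0 < t.2.1 := by omega
            exact_mod_cast this.ne'
          · have : 0 < t.2.2.1 := by omega
            exact_mod_cast this.ne'
        have k4 : t.1.2.2 = u.1.2.2 := mul_right_cancel₀ hpos (k2.trans k2'.symm)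
        refine Prod.ext (Prod.ext (g1.trans r1.symm) (Prod.ext (g2.trans r2.symm) k4))
          (Prod.ext s1 (Prod.ext s2 (g3.trans r3.symm)))
    calc (((Z.filter (fun t => (t.1.1, t.1.2.1, t.2.2.2) = (b, f, l'))).card : ℝ))
        ≤ ((n.natAbs.divisors ×ˢ n.natAbs.divisors).card : ℝ) := by exact_mod_cast hcard
      _ = (n.natAbs.divisors.card : ℝ) * (n.natAbs.divisors.card : ℝ) := by
          rw [card_product]; push_cast; ring
      _ ≤ D * D := by gcongr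
      _ = D ^ 2 := by ring
  rw [hfib]
  push_cast
  calc ∑ i ∈ I, (((Z.filter (fun t => (t.1.1, t.1.2.1, t.2.2.2) = i)).card : ℝ))
      ≤ ∑ i ∈ I, D ^ 2 := sum_le_sum hfb
    _ = I.card * D ^ 2 := by rw [sum_const, nsmul_eq_mul]
    _ ≤ (2 * L * B * F) * D ^ 2 := mul_le_mul_of_nonneg_right hIc (by positivity)
    _ = D ^ 2 * (2 * L * B * F) := by ring

end Pool.Agent.H11.PX
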