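import Mathlib

/-!
# [H11 PC CGE] Average of gcd(c, e) over e ∈ [E, 2E)

Proof.  `gcd(c,e) ≤ ∑_{d ∣ c, d ∣ e} d`, and `√gcd ≤ ∑_{d ∣ c, d ∣ e} √d` (the term `d = gcd`).  A divisor `d` of
some `e < 2E` is `< 2E`, and the number of multiples of `d` in `[E, 2E)` is `≤ E/d + 1`.  First sum:
`∑_{d ∣ c, d < 2E} (d/E)(E/d + 1) ≤ ∑_d (1 + d/E) ≤ 3 τ(|c|)`.  Second:
`∑_{d ∣ c, d < 2E} √d (E/d + 1) ≤ ∑_d (E + √(2E)) ≤ 3 E τ(|c|)`.
-/

namespace Pool.Agent.H11.PX

open Finset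

private theorem cge_card (A X d : ℕ) (hd : 0 < d) :
    ((Ioc A (A + X)).filter (fun n => d ∣ n)).card ≤ X / d + 1 := by
  have h2 : ((Ioc A (A + X)).filter (fun n => d ∣ n)).card = (A + X) / d - A / d := by
    have h3 : (Ioc A (A + X)).filter (fun n => d ∣ n) =
        (Ioc (A / d) ((A + X) / d)).image (fun k => d * k) := by
      ext n
      simp only [mem_filter, mem_Ioc, mem_image]
      constructor
      · rintro ⟨⟨a1, a2⟩, k, rfl⟩
        refine ⟨k, ⟨?_, ?_⟩, rfl⟩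
        · rw [Nat.div_lt_iff_lt_mul hd, mul_comm]; exact a1
        · rw [Nat.le_div_iff_mul_le hd, mul_comm]; exact a2
      · rintro ⟨k, ⟨a1, a2⟩, rfl⟩
        rw [Nat.div_lt_iff_lt_mul hd, mul_comm] at a1
        rw [Nat.le_div_iff_mul_le hd, mul_comm] at a2
        exact ⟨⟨a1, a2⟩, dvd_mul_right _ _⟩
    rw [h3, card_image_of_injective _
      (fun u v (huv : d * u = d * v) => Nat.eq_of_mul_eq_mul_left hd huv), Nat.card_Ioc]
  rw [h2]
  have h4 : (A + X) / d ≤ A / d + X / d + 1 := by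
    rw [Nat.add_div hd]
    split_ifs
    · exact le_rfl
    · exact Nat.le_succ _
  generalize (A + X) / d = u at h4 ⊢
  generalize A / d = v at h4 ⊢
  generalize X / d = w at h4 ⊢
  omega

/-- number of multiples of `d` in `[E, 2E)`, times `d` -/
private theorem cge_mul (E d : ℕ) (hE : 0 < E) (hd : 0 < d) :
    ((((Ico E (2 * E)).filter (fun e => d ∣ e)).card : ℝ)) * d ≤ 3 * E := by
  have h1 : ((Ico E (2 * E)).filter (fun e => d ∣ e)).card * d ≤ 3 * E := by
    rcases lt_or_ge d (2 * E) with h | h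
    · have e1 : Ico E (2 * E) = Ioc (E - 1) (E - 1 + E) := by
        ext n
        simp only [mem_Ico, mem_Ioc]
        omega
      rw [e1]
      have h2 := cge_card (E - 1) E d hd
      calc _ ≤ (E / d + 1) * d := Nat.mul_le_mul_right d h2
        _ = E / d * d + d := by ring
        _ ≤ E + d := Nat.add_le_add_right (Nat.div_mul_le_self E d) d
        _ ≤ 3 * E := by omega
    · have e2 : (Ico E (2 * E)).filter (fun e => d ∣ e) = ∅ := by
        rw [filter_eq_empty_iff]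
        intro e he hde
        rw [mem_Ico] at he
        have := Nat.le_of_dvd (by omega) hde
        omega
      rw [e2]
      simp
  exact_mod_cast h1

private theorem cge_exp (E : ℕ) (c : ℤ) (hc : c ≠ 0) (F w : ℕ → ℝ)
    (hF : ∀ n, 0 ≤ F n) (hw : ∀ n, 0 ≤ w n) :
    ∑ e ∈ Ico E (2 * E), F (Int.gcd c e) * w e ≤
      ∑ d ∈ c.natAbs.divisors, F d * ∑ e ∈ (Ico E (2 * E)).filter (fun e => d ∣ e), w e := by
  have h1 : ∀ e ∈ Ico E (2 * E), F (Int.gcd c e) * w e ≤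
      ∑ d ∈ c.natAbs.divisors, if d ∣ e then F d * w e else 0 := by
    intro e _
    have hmem : Int.gcd c e ∈ c.natAbs.divisors := by
      rw [Nat.mem_divisors]
      refine ⟨?_, Int.natAbs_ne_zero.2 hc⟩
      have := Int.gcd_dvd_left c (e : ℤ)
      exact Int.natCast_dvd.1 this
    have hdv : Int.gcd c e ∣ e := by
      have := Int.gcd_dvd_right c (e : ℤ)
      exact Int.natCast_dvd_natCast.1 this
    have h2 := single_le_sum (f := fun d => if d ∣ e then F d * w e else 0)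
      (s := c.natAbs.divisors) (fun d _ => by
        show 0 ≤ (if d ∣ e then F d * w e else 0)
        split_ifs
        · exact mul_nonneg (hF _) (hw _)
        · exact le_rfl) hmem
    simp only [if_pos hdv] at h2
    exact h2
  refine (sum_le_sum h1).trans (le_of_eq ?_)
  rw [sum_comm]
  refine sum_congr rfl fun d _ => ?_
  rw [mul_sum, sum_filter]

theorem sum_e1 (E : ℕ) (hE : 0 < E) (c : ℤ) (hc : c ≠ 0) :
    ∑ e ∈ Ico E (2 * E), (Int.gcd c e : ℝ) / e ≤ 3 * (c.natAbs.divisors.card : ℝ) := by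
  have hE0 : (0 : ℝ) < E := by exact_mod_cast hE
  have h1 := cge_exp E c hc (fun n => (n : ℝ)) (fun n => ((n : ℝ))⁻¹) (fun n => by positivity)
    (fun n => by positivity)
  have h2 : ∑ e ∈ Ico E (2 * E), (Int.gcd c e : ℝ) / e =
      ∑ e ∈ Ico E (2 * E), (Int.gcd c e : ℝ) * ((e : ℝ))⁻¹ :=
    sum_congr rfl fun e _ => div_eq_mul_inv _ _
  rw [h2]
  refine h1.trans ?_
  have h3 : ∀ d ∈ c.natAbs.divisors,
      (d : ℝ) * ∑ e ∈ (Ico E (2 * E)).filter (fun e => d ∣ e), ((e : ℝ))⁻¹ ≤ 3 := by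
    intro d hd
    have hd0 : 0 < d := Nat.pos_of_mem_divisors hd
    have h4 : ∑ e ∈ (Ico E (2 * E)).filter (fun e => d ∣ e), ((e : ℝ))⁻¹ ≤
        (((Ico E (2 * E)).filter (fun e => d ∣ e)).card : ℝ) * ((E : ℝ))⁻¹ := by
      rw [← nsmul_eq_mul]
      refine sum_le_card_nsmul _ _ _ fun e he => ?_
      have : E ≤ e := (mem_Ico.1 (mem_filter.1 he).1).1
      exact inv_anti₀ hE0 (by exact_mod_cast this)
    have h5 := cge_mul E d hE hd0
    calc _ ≤ (d : ℝ) * ((((Ico E (2 * E)).filter (fun e => d ∣ e)).card : ℝ) * ((E : ℝ))⁻¹) :=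
          mul_le_mul_of_nonneg_left h4 (by positivity)
      _ = ((((Ico E (2 * E)).filter (fun e => d ∣ e)).card : ℝ) * d) * ((E : ℝ))⁻¹ := by ring
      _ ≤ (3 * E) * ((E : ℝ))⁻¹ := mul_le_mul_of_nonneg_right h5 (by positivity)
      _ = 3 := by field_simp
  calc _ ≤ ∑ d ∈ c.natAbs.divisors, (3 : ℝ) := sum_le_sum h3
    _ = 3 * (c.natAbs.divisors.card : ℝ) := by rw [sum_const, nsmul_eq_mul, mul_comm]

theorem sum_e2 (E : ℕ) (hE : 0 < E) (c : ℤ) (hc : c ≠ 0) :
    ∑ e ∈ Ico E (2 * E), √(Int.gcd c e : ℝ) ≤ 3 * (c.natAbs.divisors.card : ℝ) * E := by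
  have h1 := cge_exp E c hc (fun n => √(n : ℝ)) (fun _ => 1) (fun n => Real.sqrt_nonneg _)
    (fun n => zero_le_one)
  simp only [mul_one] at h1
  refine h1.trans ?_
  have h3 : ∀ d ∈ c.natAbs.divisors,
      √(d : ℝ) * ∑ e ∈ (Ico E (2 * E)).filter (fun e => d ∣ e), (1 : ℝ) ≤ 3 * E := by
    intro d hd
    have hd0 : 0 < d := Nat.pos_of_mem_divisors hd
    have h5 := cge_mul E d hE hd0
    have hd1 : (1 : ℝ) ≤ d := by exact_mod_cast hd0
    have h6 : √(d : ℝ) ≤ d := by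
      rw [Real.sqrt_le_left (by positivity)]
      nlinarith
    rw [sum_const, nsmul_eq_mul, mul_one]
    calc _ ≤ (d : ℝ) * (((Ico E (2 * E)).filter (fun e => d ∣ e)).card : ℝ) :=
          mul_le_mul_of_nonneg_right h6 (by positivity)
      _ = (((Ico E (2 * E)).filter (fun e => d ∣ e)).card : ℝ) * d := mul_comm _ _
      _ ≤ 3 * E := h5
  calc _ ≤ ∑ d ∈ c.natAbs.divisors, (3 * E : ℝ) := sum_le_sum h3
    _ = 3 * (c.natAbs.divisors.card : ℝ) * E := by rw [sum_const, nsmul_eq_mul]; ring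

end Pool.Agent.H11.PX
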