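import Pool.Agent.H11.PX.Cdi

/-!
# [H11 PC CGF] Average of √gcd(c0, lcm(f, f'))

Proof.  Let `g = gcd(f,f')`, `f1 = f/g`, `f2 = f'/g`; `f, f'` squarefree, so `g, f1, f2` are pairwise coprime and
`lcm = g f1 f2`.  `c0 = l b' f2 - l' b f1`.
`gcd(c0, f1) = gcd(l b' f2, f1) = gcd(l b', f1) ≤ gcd(l, f1) gcd(b', f1)`,
`gcd(c0, f2) = gcd(l' b, f2) ≤ gcd(l', f2) gcd(b, f2)`; so
`√gcd(c0, lcm) ≤ √gcd(l,f1) √gcd(c0,g) * √gcd(b',f1) √gcd(l',f2) √gcd(b,f2)`.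
Fix everything except `l`.  `∑_{l ∈ fr L, c0 ≠ 0} √gcd(l,f1) √gcd(c0,g) ≤ ∑_{d1 ∣ f1} ∑_{d3 ∣ g} √(d1 d3)
#{l ∈ fr L : d1 ∣ l, d3 ∣ c0}`.  Since `b'` and `f2` are coprime to `g` (`b'` coprime to `f'`), `d3 ∣ c0` fixes
the class of `l` modulo `d3`, and `d1, d3` are coprime: one class modulo `d1 d3`, so at most
`2L/(d1 d3) + 1` values.  `√(d1 d3) (2L/(d1 d3) + 1) ≤ 2L + √(2F)` (`d1 d3 ≤ f < 2F`), and at most
`τ(f1) τ(g) ≤ D^2` pairs.  [In an interval of length `2L` containing `2⌊L⌋+1` integers (also 0, harmless) a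
class modulo `m` has at most `2L/m + 1` elements.]
Next `∑_{b' ∈ Ico B 2B} √gcd(b',f1) ≤ ∑_{d ∣ f1} √d #{b' < 2B, d ∣ b', b' > 0} ≤ ∑_{d ∣ f1} √d * 2B/d ≤ 2 B D`,
the same for `b` with `f2`, and `∑_{l' ∈ fr L} √gcd(l',f2) ≤ ∑_{d ∣ f2} √d * 2 (L/d) ≤ 2 L D`.  With the
`≤ F^2` pairs `(f,f')`: total `≤ F^2 (2BD)(2LD)(2BD) D^2 (2L + √(2F)) ≤ 16 D^5 B^2 F^2 L (L + √F)`.
-/

namespace Pool.Agent.H11.PX

open Finset

private theorem cgf_sq_le (c : ℤ) (n : ℕ) (hn : 0 < n) :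
    √((Int.gcd c n : ℕ) : ℝ) ≤ ∑ d ∈ n.divisors, if (d : ℤ) ∣ c then √(d : ℝ) else 0 := by
  have h : Int.gcd c n ∈ n.divisors := by
    rw [Nat.mem_divisors]
    refine ⟨?_, hn.ne'⟩
    exact_mod_cast Int.gcd_dvd_right c (n : ℤ)
  have h2 : ((Int.gcd c n : ℕ) : ℤ) ∣ c := Int.gcd_dvd_left c (n : ℤ)
  calc √((Int.gcd c n : ℕ) : ℝ)
      = (fun d : ℕ => if (d : ℤ) ∣ c then √(d : ℝ) else 0) (Int.gcd c n) := by
        simp only [h2, if_true]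
    _ ≤ _ := by
        refine Finset.single_le_sum (f := fun d : ℕ => if (d : ℤ) ∣ c then √(d : ℝ) else 0) ?_ h
        intro d _
        split_ifs
        · exact Real.sqrt_nonneg _
        · exact le_rfl

private theorem cgf_class (T : Finset ℤ) (N : ℤ) (hN : 0 ≤ N) (m : ℕ) (hm : 0 < m)
    (h1 : ∀ x ∈ T, -N ≤ x ∧ x ≤ N) (h2 : ∀ x ∈ T, ∀ y ∈ T, (m : ℤ) ∣ x - y) :
    (T.card : ℝ) ≤ 2 * N / m + 1 := by
  have hm' : (0 : ℤ) < m := by exact_mod_cast hm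
  have hcard : T.card ≤ (Finset.Icc (0 : ℤ) (2 * N / m)).card := by
    refine Finset.card_le_card_of_injOn (fun x => (x + N) / m) ?_ ?_
    · intro x hx
      have hx' := h1 x hx
      rw [Finset.mem_coe, Finset.mem_Icc]
      exact ⟨Int.ediv_nonneg (by linarith) hm'.le, Int.ediv_le_ediv hm' (by linarith)⟩
    · intro x hx y hy hxy
      obtain ⟨k, hk⟩ := h2 x hx y hy
      have hxy' : (x + N) / m = (y + N) / m := hxy
      have e : x + N = (y + N) + m * k := by linarith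
      rw [e, Int.add_mul_ediv_left _ _ hm'.ne'] at hxy'
      have hk0 : k = 0 := by linarith
      rw [hk0] at hk
      linarith
  have hz : (0 : ℤ) ≤ 2 * N / m := Int.ediv_nonneg (by linarith) hm'.le
  rw [Int.card_Icc, sub_zero] at hcard
  have e2 : (((2 * N / m + 1).toNat : ℕ) : ℤ) = 2 * N / m + 1 := Int.toNat_of_nonneg (by linarith)
  have h3 : (T.card : ℤ) ≤ 2 * N / m + 1 := by
    rw [← e2]
    exact_mod_cast hcard
  have h4 : ((2 * N / m : ℤ) : ℝ) ≤ 2 * N / m := by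
    rw [le_div_iff₀ (by exact_mod_cast hm)]
    have := Int.ediv_mul_le (2 * N) hm'.ne'
    exact_mod_cast this
  have h5 : (T.card : ℝ) ≤ ((2 * N / m : ℤ) : ℝ) + 1 := by exact_mod_cast h3
  linarith

private theorem cgf_mem_fr (L : ℝ) (l : ℤ) : l ∈ fr L ↔ l ≠ 0 ∧ -⌊L⌋ ≤ l ∧ l ≤ ⌊L⌋ := by
  unfold fr
  rw [Finset.mem_erase, Finset.mem_Icc]

private theorem cgf_mult (L : ℝ) (hL : 0 ≤ L) (d : ℕ) (hd : 0 < d) :
    (((fr L).filter (fun l => (d : ℤ) ∣ l)).card : ℝ) ≤ 2 * L / d := by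
  have hN : (0 : ℤ) ≤ ⌊L⌋ := Int.floor_nonneg.2 hL
  set T := (Finset.Icc (-⌊L⌋) ⌊L⌋).filter (fun l => (d : ℤ) ∣ l) with hT
  have h1 : (T.card : ℝ) ≤ 2 * (⌊L⌋ : ℤ) / d + 1 := by
    refine cgf_class T ⌊L⌋ hN d hd ?_ ?_
    · intro x hx
      rw [hT, Finset.mem_filter, Finset.mem_Icc] at hx
      exact hx.1
    · intro x hx y hy
      rw [hT, Finset.mem_filter] at hx hy
      exact dvd_sub hx.2 hy.2
  have h0 : (0 : ℤ) ∈ T := by
    rw [hT, Finset.mem_filter, Finset.mem_Icc]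
    exact ⟨⟨by linarith, hN⟩, dvd_zero _⟩
  have h2 : (fr L).filter (fun l => (d : ℤ) ∣ l) = T.erase 0 := by
    ext l
    rw [Finset.mem_filter, cgf_mem_fr, Finset.mem_erase, hT, Finset.mem_filter, Finset.mem_Icc,
      and_assoc]
  rw [h2]
  have h3 := Finset.card_erase_add_one h0
  have h4 : ((T.erase 0).card : ℝ) + 1 = T.card := by exact_mod_cast h3
  have h5 : (2 * (⌊L⌋ : ℤ) / d : ℝ) ≤ 2 * L / d := by
    have := Int.floor_le L
    have hd' : (0 : ℝ) < d := by exact_mod_cast hd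
    rw [div_le_div_iff_of_pos_right hd']
    linarith
  linarith

private theorem cgf_swap {ι : Type} (S : Finset ι) (n : ℕ) (v : ι → ℤ) :
    ∑ x ∈ S, ∑ d ∈ n.divisors, (if (d : ℤ) ∣ v x then √(d : ℝ) else 0) =
      ∑ d ∈ n.divisors, √(d : ℝ) * ((S.filter (fun x => (d : ℤ) ∣ v x)).card : ℝ) := by
  rw [Finset.sum_comm]
  refine Finset.sum_congr rfl fun d _ => ?_
  rw [← Finset.sum_filter, Finset.sum_const, nsmul_eq_mul, mul_comm]

private theorem cgf_sqrt_div (d : ℕ) (hd : 0 < d) (X : ℝ) (hX : 0 ≤ X) :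
    √(d : ℝ) * (X / d) ≤ X := by
  have h1 : (1 : ℝ) ≤ d := by exact_mod_cast hd
  have h2 : (1 : ℝ) ≤ √(d : ℝ) := by
    rw [Real.one_le_sqrt]; exact h1
  have h3 : √(d : ℝ) * √(d : ℝ) = d := Real.mul_self_sqrt (by linarith)
  have h4 : √(d : ℝ) * (X / d) = X / √(d : ℝ) := by
    rw [eq_div_iff (by linarith)]
    calc √(d : ℝ) * (X / d) * √(d : ℝ) = (√(d : ℝ) * √(d : ℝ)) * (X / d) := by ring
      _ = X := by rw [h3]; field_simp
  rw [h4]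
  exact div_le_self hX h2

private theorem cgf_l (L : ℝ) (hL : 0 ≤ L) (n : ℕ) (hn : 0 < n) (D : ℝ)
    (hD : (n.divisors.card : ℝ) ≤ D) :
    ∑ l ∈ fr L, √((Int.gcd l n : ℕ) : ℝ) ≤ 2 * L * D := by
  calc ∑ l ∈ fr L, √((Int.gcd l n : ℕ) : ℝ)
      ≤ ∑ l ∈ fr L, ∑ d ∈ n.divisors, (if (d : ℤ) ∣ l then √(d : ℝ) else 0) :=
        Finset.sum_le_sum fun l _ => cgf_sq_le l n hn
    _ = ∑ d ∈ n.divisors, √(d : ℝ) * (((fr L).filter (fun l => (d : ℤ) ∣ l)).card : ℝ) :=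
        cgf_swap (fr L) n fun l => l
    _ ≤ ∑ d ∈ n.divisors, 2 * L := by
        refine Finset.sum_le_sum fun d hd => ?_
        have hd0 : 0 < d := Nat.pos_of_mem_divisors hd
        exact (mul_le_mul_of_nonneg_left (cgf_mult L hL d hd0) (Real.sqrt_nonneg _)).trans
          (cgf_sqrt_div d hd0 (2 * L) (by linarith))
    _ = n.divisors.card * (2 * L) := by rw [Finset.sum_const, nsmul_eq_mul]
    _ ≤ 2 * L * D := by nlinarith

private theorem cgf_b (B : ℕ) (n : ℕ) (hn : 0 < n) (D : ℝ)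
    (hD : (n.divisors.card : ℝ) ≤ D) (hB : 0 < B) :
    ∑ b ∈ Ico B (2 * B), √((Int.gcd b n : ℕ) : ℝ) ≤ 2 * B * D := by
  have hB0 : (0 : ℝ) ≤ B := Nat.cast_nonneg B
  calc ∑ b ∈ Ico B (2 * B), √((Int.gcd b n : ℕ) : ℝ)
      ≤ ∑ b ∈ Ico B (2 * B), ∑ d ∈ n.divisors, (if (d : ℤ) ∣ (b : ℤ) then √(d : ℝ) else 0) :=
        Finset.sum_le_sum fun b _ => cgf_sq_le b n hn
    _ = ∑ d ∈ n.divisors, √(d : ℝ) *
          (((Ico B (2 * B)).filter (fun b : ℕ => (d : ℤ) ∣ (b : ℤ))).card : ℝ) :=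
        cgf_swap (Ico B (2 * B)) n fun b => (b : ℤ)
    _ ≤ ∑ d ∈ n.divisors, 2 * (B : ℝ) := by
        refine Finset.sum_le_sum fun d hd => ?_
        have hd0 : 0 < d := Nat.pos_of_mem_divisors hd
        have h1 : ((Ico B (2 * B)).filter (fun b : ℕ => (d : ℤ) ∣ (b : ℤ))).card ≤
            2 * B / d := by
          rw [← Nat.Ioc_filter_dvd_card_eq_div]
          refine Finset.card_le_card ?_
          intro b hb
          rw [Finset.mem_filter, Finset.mem_Ico] at hb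
          rw [Finset.mem_filter, Finset.mem_Ioc]
          refine ⟨⟨by omega, by omega⟩, ?_⟩
          exact_mod_cast hb.2
        have h2 : (((Ico B (2 * B)).filter (fun b : ℕ => (d : ℤ) ∣ (b : ℤ))).card : ℝ) ≤
            (2 * B : ℝ) / d := by
          refine (Nat.cast_le.2 h1).trans ?_
          refine Nat.cast_div_le.trans ?_
          push_cast
          exact le_rfl
        exact (mul_le_mul_of_nonneg_left h2 (Real.sqrt_nonneg _)).trans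
          (cgf_sqrt_div d hd0 (2 * B) (by linarith))
    _ = n.divisors.card * (2 * (B : ℝ)) := by rw [Finset.sum_const, nsmul_eq_mul]
    _ ≤ 2 * B * D := by nlinarith

/-- The sum over `l`. -/
private theorem cgf_in (F : ℕ) (L D : ℝ) (hL : 0 ≤ L) (f1 g : ℕ) (hf1 : 0 < f1) (hg : 0 < g)
    (hcop : Nat.Coprime f1 g) (hF : f1 * g ≤ 2 * F) (u v : ℤ) (hu : IsCoprime u (g : ℤ))
    (hD1 : (f1.divisors.card : ℝ) ≤ D) (hD2 : (g.divisors.card : ℝ) ≤ D) :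
    ∑ l ∈ fr L, √((Int.gcd l f1 : ℕ) : ℝ) * √((Int.gcd (l * u - v) g : ℕ) : ℝ) ≤
      D ^ 2 * (2 * L + √(2 * (F : ℝ))) := by
  have hN : (0 : ℤ) ≤ ⌊L⌋ := Int.floor_nonneg.2 hL
  have hD0 : 0 ≤ D := le_trans (Nat.cast_nonneg _) hD1
  have hK : 0 ≤ 2 * L + √(2 * (F : ℝ)) := by positivity
  have hcnt : ∀ d ∈ f1.divisors, ∀ e ∈ g.divisors,
      √(d : ℝ) * √(e : ℝ) *
        (((fr L).filter (fun l => (d : ℤ) ∣ l ∧ (e : ℤ) ∣ l * u - v)).card : ℝ) ≤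
      2 * L + √(2 * (F : ℝ)) := by
    intro d hd e he
    have hd0 : 0 < d := Nat.pos_of_mem_divisors hd
    have he0 : 0 < e := Nat.pos_of_mem_divisors he
    have hd1 := Nat.dvd_of_mem_divisors hd
    have he1 := Nat.dvd_of_mem_divisors he
    have hde : Nat.Coprime d e := Nat.Coprime.coprime_dvd_left hd1 (hcop.coprime_dvd_right he1)
    have hm0 : 0 < d * e := Nat.mul_pos hd0 he0
    have h1 : (((fr L).filter (fun l => (d : ℤ) ∣ l ∧ (e : ℤ) ∣ l * u - v)).card : ℝ) ≤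
        2 * (⌊L⌋ : ℤ) / (d * e : ℕ) + 1 := by
      refine cgf_class _ ⌊L⌋ hN (d * e) hm0 ?_ ?_
      · intro x hx
        rw [Finset.mem_filter, cgf_mem_fr] at hx
        exact hx.1.2
      · intro x hx y hy
        rw [Finset.mem_filter] at hx hy
        have h1 : (d : ℤ) ∣ x - y := dvd_sub hx.2.1 hy.2.1
        have h2 : (e : ℤ) ∣ x - y := by
          have h3 : (e : ℤ) ∣ (x - y) * u := by
            have := dvd_sub hx.2.2 hy.2.2
            have e1 : x * u - v - (y * u - v) = (x - y) * u := by ring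
            rwa [e1] at this
          have h4 : IsCoprime (e : ℤ) u :=
            (hu.of_isCoprime_of_dvd_right (Int.natCast_dvd_natCast.2 he1)).symm
          exact h4.dvd_of_dvd_mul_right h3
        push_cast
        exact IsCoprime.mul_dvd (Nat.isCoprime_iff_coprime.2 hde) h1 h2
    have hfl := Int.floor_le L
    have hmR : (1 : ℝ) ≤ ((d * e : ℕ) : ℝ) := by exact_mod_cast hm0
    have h2 : (((fr L).filter (fun l => (d : ℤ) ∣ l ∧ (e : ℤ) ∣ l * u - v)).card : ℝ) ≤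
        2 * L / (d * e : ℕ) + 1 := by
      refine h1.trans ?_
      have : 2 * ((⌊L⌋ : ℤ) : ℝ) / ((d * e : ℕ) : ℝ) ≤ 2 * L / ((d * e : ℕ) : ℝ) := by
        rw [div_le_div_iff_of_pos_right (by linarith)]
        linarith
      linarith
    have h3 : √(d : ℝ) * √(e : ℝ) = √((d * e : ℕ) : ℝ) := by
      rw [Nat.cast_mul, Real.sqrt_mul (Nat.cast_nonneg d)]
    rw [h3]
    have h4 : √((d * e : ℕ) : ℝ) ≤ √(2 * (F : ℝ)) := by
      refine Real.sqrt_le_sqrt ?_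
      have : d * e ≤ 2 * F := (Nat.mul_le_mul (Nat.le_of_dvd hf1 hd1)
        (Nat.le_of_dvd hg he1)).trans hF
      exact_mod_cast this
    calc √((d * e : ℕ) : ℝ) * (((fr L).filter (fun l => (d : ℤ) ∣ l ∧ (e : ℤ) ∣ l * u - v)).card : ℝ)
        ≤ √((d * e : ℕ) : ℝ) * (2 * L / (d * e : ℕ) + 1) :=
          mul_le_mul_of_nonneg_left h2 (Real.sqrt_nonneg _)
      _ = √((d * e : ℕ) : ℝ) * (2 * L / (d * e : ℕ)) + √((d * e : ℕ) : ℝ) := by ring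
      _ ≤ 2 * L + √(2 * (F : ℝ)) :=
          add_le_add (cgf_sqrt_div (d * e) hm0 (2 * L) (by linarith)) h4
  calc ∑ l ∈ fr L, √((Int.gcd l f1 : ℕ) : ℝ) * √((Int.gcd (l * u - v) g : ℕ) : ℝ)
      ≤ ∑ l ∈ fr L, (∑ d ∈ f1.divisors, if (d : ℤ) ∣ l then √(d : ℝ) else 0) *
          (∑ e ∈ g.divisors, if (e : ℤ) ∣ l * u - v then √(e : ℝ) else 0) := by
        refine Finset.sum_le_sum fun l _ => ?_
        refine mul_le_mul (cgf_sq_le l f1 hf1) (cgf_sq_le _ g hg) (Real.sqrt_nonneg _) ?_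
        exact (Real.sqrt_nonneg _).trans (cgf_sq_le l f1 hf1)
    _ = ∑ d ∈ f1.divisors, ∑ e ∈ g.divisors, √(d : ℝ) * √(e : ℝ) *
        (((fr L).filter (fun l => (d : ℤ) ∣ l ∧ (e : ℤ) ∣ l * u - v)).card : ℝ) := by
        have h1 : ∀ l ∈ fr L, (∑ d ∈ f1.divisors, if (d : ℤ) ∣ l then √(d : ℝ) else 0) *
            (∑ e ∈ g.divisors, if (e : ℤ) ∣ l * u - v then √(e : ℝ) else 0) =
            ∑ d ∈ f1.divisors, ∑ e ∈ g.divisors,
              (if (d : ℤ) ∣ l ∧ (e : ℤ) ∣ l * u - v then √(d : ℝ) * √(e : ℝ) else 0) := by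
          intro l _
          rw [Finset.sum_mul_sum]
          refine Finset.sum_congr rfl fun d _ => Finset.sum_congr rfl fun e _ => ?_
          by_cases ha : (d : ℤ) ∣ l <;> by_cases hb : (e : ℤ) ∣ l * u - v <;> simp [ha, hb]
        rw [Finset.sum_congr rfl h1, Finset.sum_comm]
        refine Finset.sum_congr rfl fun d _ => ?_
        rw [Finset.sum_comm]
        refine Finset.sum_congr rfl fun e _ => ?_
        rw [← Finset.sum_filter, Finset.sum_const, nsmul_eq_mul, mul_comm]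
    _ ≤ ∑ d ∈ f1.divisors, ∑ e ∈ g.divisors, (2 * L + √(2 * (F : ℝ))) :=
        Finset.sum_le_sum fun d hd => Finset.sum_le_sum fun e he => hcnt d hd e he
    _ = (f1.divisors.card : ℝ) * ((g.divisors.card : ℝ) * (2 * L + √(2 * (F : ℝ)))) := by
        rw [Finset.sum_const, Finset.sum_const, nsmul_eq_mul, nsmul_eq_mul]
    _ ≤ D * (D * (2 * L + √(2 * (F : ℝ)))) := by
        refine mul_le_mul hD1 (mul_le_mul_of_nonneg_right hD2 hK) ?_ hD0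
        positivity
    _ = D ^ 2 * (2 * L + √(2 * (F : ℝ))) := by ring

/-- The pointwise inequality. -/
private theorem cgf_pt (b f : ℕ) (l : ℤ) (b' f' : ℕ) (l' : ℤ) (hf : 0 < f) (hf' : 0 < f')
    (hs : Squarefree f) (hs' : Squarefree f') :
    √((Int.gcd (c0 b f l b' f' l') (Nat.lcm f f' : ℕ) : ℕ) : ℝ) ≤
      (√((Int.gcd b' (f / Nat.gcd f f' : ℕ) : ℕ) : ℝ) *
        √((Int.gcd b (f' / Nat.gcd f f' : ℕ) : ℕ) : ℝ) *
        √((Int.gcd l' (f' / Nat.gcd f f' : ℕ) : ℕ) : ℝ)) *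
      (√((Int.gcd l (f / Nat.gcd f f' : ℕ) : ℕ) : ℝ) *
        √((Int.gcd (c0 b f l b' f' l') (Nat.gcd f f' : ℕ) : ℕ) : ℝ)) := by
  obtain ⟨g, hg⟩ : ∃ g, g = Nat.gcd f f' := ⟨_, rfl⟩
  obtain ⟨f1, hf1⟩ : ∃ f1, f1 = f / Nat.gcd f f' := ⟨_, rfl⟩
  obtain ⟨f2, hf2⟩ : ∃ f2, f2 = f' / Nat.gcd f f' := ⟨_, rfl⟩
  have hg0 : 0 < g := by rw [hg]; exact Nat.gcd_pos_of_pos_left _ hf
  have e1 : f = g * f1 := by
    rw [hg, hf1, Nat.mul_div_cancel' (Nat.gcd_dvd_left f f')]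
  have e2 : f' = g * f2 := by
    rw [hg, hf2, Nat.mul_div_cancel' (Nat.gcd_dvd_right f f')]
  have hf10 : 0 < f1 := Nat.pos_of_ne_zero fun h => by rw [h, mul_zero] at e1; omega
  have hf20 : 0 < f2 := Nat.pos_of_ne_zero fun h => by rw [h, mul_zero] at e2; omega
  have hc12 : Nat.Coprime f1 f2 := by
    rw [hf1, hf2]
    exact Nat.coprime_div_gcd_div_gcd (by rw [← hg]; exact hg0)
  have hlcm : Nat.lcm f f' = g * (f1 * f2) := by
    have h := Nat.gcd_mul_lcm f f'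
    rw [← hg] at h
    have h2 : g * Nat.lcm f f' = g * (g * (f1 * f2)) := by
      rw [h]
      nth_rewrite 1 [e1]
      nth_rewrite 1 [e2]
      ring
    exact Nat.eq_of_mul_eq_mul_left hg0 h2
  obtain ⟨c, hc⟩ : ∃ c, c = c0 b f l b' f' l' := ⟨_, rfl⟩
  have hc' : c = l * b' * f2 - l' * b * f1 := by
    rw [hc, hf1, hf2]; rfl
  rw [← hc, ← hf1, ← hf2, ← hg, hlcm]
  have hg1 : Int.gcd c (f1 : ℕ) ∣ Int.gcd l (f1 : ℕ) * Int.gcd b' (f1 : ℕ) := by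
    obtain ⟨e, he⟩ : ∃ e, e = Int.gcd c (f1 : ℕ) := ⟨_, rfl⟩
    have he1 : (e : ℤ) ∣ c := by rw [he]; exact Int.gcd_dvd_left _ _
    have he2 : (e : ℤ) ∣ (f1 : ℤ) := by rw [he]; exact Int.gcd_dvd_right _ _
    have he2' : e ∣ f1 := by exact_mod_cast he2
    have he3 : (e : ℤ) ∣ (l * b') * f2 := by
      have : (l * b') * (f2 : ℤ) = c + l' * b * f1 := by rw [hc']; ring
      rw [this]
      exact dvd_add he1 (he2.mul_left _)
    have he4 : IsCoprime (e : ℤ) (f2 : ℤ) :=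
      Nat.isCoprime_iff_coprime.2 (Nat.Coprime.coprime_dvd_left he2' hc12)
    have he5 : (e : ℤ) ∣ l * b' := he4.dvd_of_dvd_mul_right he3
    have he6 : e ∣ Nat.gcd (l.natAbs * b') f1 := by
      refine Nat.dvd_gcd ?_ he2'
      have := Int.natAbs_dvd_natAbs.2 he5
      rwa [Int.natAbs_natCast, Int.natAbs_mul, Int.natAbs_natCast] at this
    rw [← he]
    refine he6.trans ?_
    have h7 := Nat.gcd_mul_right_dvd_mul_gcd f1 l.natAbs b'
    rw [Nat.gcd_comm f1, Nat.gcd_comm f1, Nat.gcd_comm f1] at h7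
    exact h7
  have hg2 : Int.gcd c (f2 : ℕ) ∣ Int.gcd l' (f2 : ℕ) * Int.gcd b (f2 : ℕ) := by
    obtain ⟨e, he⟩ : ∃ e, e = Int.gcd c (f2 : ℕ) := ⟨_, rfl⟩
    have he1 : (e : ℤ) ∣ c := by rw [he]; exact Int.gcd_dvd_left _ _
    have he2 : (e : ℤ) ∣ (f2 : ℤ) := by rw [he]; exact Int.gcd_dvd_right _ _
    have he2' : e ∣ f2 := by exact_mod_cast he2
    have he3 : (e : ℤ) ∣ (l' * b) * f1 := by
      have : (l' * b) * (f1 : ℤ) = l * b' * f2 - c := by rw [hc']; ring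
      rw [this]
      exact dvd_sub (he2.mul_left _) he1
    have he4 : IsCoprime (e : ℤ) (f1 : ℤ) :=
      Nat.isCoprime_iff_coprime.2 (Nat.Coprime.coprime_dvd_left he2' hc12.symm)
    have he5 : (e : ℤ) ∣ l' * b := he4.dvd_of_dvd_mul_right he3
    have he6 : e ∣ Nat.gcd (l'.natAbs * b) f2 := by
      refine Nat.dvd_gcd ?_ he2'
      have := Int.natAbs_dvd_natAbs.2 he5
      rwa [Int.natAbs_natCast, Int.natAbs_mul, Int.natAbs_natCast] at this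
    rw [← he]
    refine he6.trans ?_
    have h7 := Nat.gcd_mul_right_dvd_mul_gcd f2 l'.natAbs b
    rw [Nat.gcd_comm f2, Nat.gcd_comm f2, Nat.gcd_comm f2] at h7
    exact h7
  have hmain : Int.gcd c ((g * (f1 * f2) : ℕ) : ℤ) ∣
      Int.gcd c (g : ℕ) * (Int.gcd c (f1 : ℕ) * Int.gcd c (f2 : ℕ)) := by
    have h1 : Nat.gcd c.natAbs (g * (f1 * f2)) ∣
        Nat.gcd c.natAbs g * Nat.gcd c.natAbs (f1 * f2) := Nat.gcd_mul_right_dvd_mul_gcd _ _ _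
    have h2 : Nat.gcd c.natAbs (f1 * f2) ∣
        Nat.gcd c.natAbs f1 * Nat.gcd c.natAbs f2 := Nat.gcd_mul_right_dvd_mul_gcd _ _ _
    exact h1.trans (mul_dvd_mul_left _ h2)
  have hdvd : Int.gcd c ((g * (f1 * f2) : ℕ) : ℤ) ∣
      Int.gcd c (g : ℕ) * ((Int.gcd l (f1 : ℕ) * Int.gcd b' (f1 : ℕ)) *
        (Int.gcd l' (f2 : ℕ) * Int.gcd b (f2 : ℕ))) :=
    hmain.trans (mul_dvd_mul_left _ (mul_dvd_mul hg1 hg2))
  have hpos : ∀ (x : ℤ) (n : ℕ), 0 < n → 0 < Int.gcd x (n : ℤ) := fun x n hn =>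
    Int.gcd_pos_of_ne_zero_right x (by exact_mod_cast hn.ne')
  have hle := Nat.le_of_dvd (Nat.mul_pos (hpos c g hg0) (Nat.mul_pos
    (Nat.mul_pos (hpos l f1 hf10) (hpos b' f1 hf10))
    (Nat.mul_pos (hpos l' f2 hf20) (hpos b f2 hf20)))) hdvd
  have hleR : ((Int.gcd c ((g * (f1 * f2) : ℕ) : ℤ) : ℕ) : ℝ) ≤
      (Int.gcd c (g : ℕ) : ℝ) * (((Int.gcd l (f1 : ℕ) : ℝ) * (Int.gcd b' (f1 : ℕ) : ℝ)) *
        ((Int.gcd l' (f2 : ℕ) : ℝ) * (Int.gcd b (f2 : ℕ) : ℝ))) := by exact_mod_cast hle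
  refine (Real.sqrt_le_sqrt hleR).trans (le_of_eq ?_)
  rw [Real.sqrt_mul (by positivity), Real.sqrt_mul (by positivity), Real.sqrt_mul (by positivity),
    Real.sqrt_mul (by positivity)]
  ring

open Classical in
theorem sum_ff (B F : ℕ) (hB : 0 < B) (hF : 0 < F) (L D : ℝ) (hL : 0 ≤ L) (hD1 : 1 ≤ D)
    (hD : ∀ n : ℕ, 1 ≤ n → (n : ℝ) ≤ 2 * F → (n.divisors.card : ℝ) ≤ D) :
    ∑ t ∈ ((Ico B (2 * B) ×ˢ Ico F (2 * F) ×ˢ fr L) ×ˢ
      (Ico B (2 * B) ×ˢ Ico F (2 * F) ×ˢ fr L)).filter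
        (fun t => c0 t.1.1 t.1.2.1 t.1.2.2 t.2.1 t.2.2.1 t.2.2.2 ≠ 0 ∧
          Squarefree t.1.2.1 ∧ Squarefree t.2.2.1 ∧ Nat.Coprime t.1.1 t.1.2.1 ∧
          Nat.Coprime t.2.1 t.2.2.1),
      √(Int.gcd (c0 t.1.1 t.1.2.1 t.1.2.2 t.2.1 t.2.2.1 t.2.2.2)
        (Nat.lcm t.1.2.1 t.2.2.1 : ℕ) : ℝ) ≤
      16 * D ^ 5 * B ^ 2 * F ^ 2 * L * (L + √(F : ℝ)) := by
  have hD0 : 0 ≤ D := by linarith
  have hFR : (0 : ℝ) ≤ F := Nat.cast_nonneg F
  have hBR : (0 : ℝ) ≤ B := Nat.cast_nonneg B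
  obtain ⟨K, hK⟩ : ∃ K : ℝ, K = D ^ 2 * (2 * L + √(2 * (F : ℝ))) := ⟨_, rfl⟩
  have hK0 : 0 ≤ K := by rw [hK]; positivity
  obtain ⟨p, hp⟩ : ∃ p : ℕ → ℕ → ℕ → ℝ, p = fun (b' f f' : ℕ) =>
    √((Int.gcd (b' : ℤ) (f / Nat.gcd f f' : ℕ) : ℕ) : ℝ) := ⟨_, rfl⟩
  obtain ⟨q, hq⟩ : ∃ q : ℕ → ℕ → ℕ → ℝ, q = fun (b f f' : ℕ) =>
    √((Int.gcd (b : ℤ) (f' / Nat.gcd f f' : ℕ) : ℕ) : ℝ) := ⟨_, rfl⟩
  obtain ⟨r, hr⟩ : ∃ r : ℤ → ℕ → ℕ → ℝ, r = fun l' f f' =>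
    √((Int.gcd l' (f' / Nat.gcd f f' : ℕ) : ℕ) : ℝ) := ⟨_, rfl⟩
  obtain ⟨k, hk⟩ : ∃ k : ℕ → ℕ → ℤ → ℕ → ℕ → ℤ → ℝ, k = fun b f l b' f' l' =>
    √((Int.gcd l (f / Nat.gcd f f' : ℕ) : ℕ) : ℝ) *
      √((Int.gcd (c0 b f l b' f' l') (Nat.gcd f f' : ℕ) : ℕ) : ℝ) := ⟨_, rfl⟩
  have hp0 : ∀ b' f f', 0 ≤ p b' f f' := fun b' f f' => by rw [hp]; exact Real.sqrt_nonneg _
  have hq0 : ∀ b f f', 0 ≤ q b f f' := fun b f f' => by rw [hq]; exact Real.sqrt_nonneg _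
  have hr0 : ∀ l' f f', 0 ≤ r l' f f' := fun l' f f' => by rw [hr]; exact Real.sqrt_nonneg _
  have hk0 : ∀ b f l b' f' l', 0 ≤ k b f l b' f' l' := fun b f l b' f' l' => by
    rw [hk]; exact mul_nonneg (Real.sqrt_nonneg _) (Real.sqrt_nonneg _)
  obtain ⟨W, hW⟩ : ∃ W : (ℕ × ℕ × ℤ) → (ℕ × ℕ × ℤ) → ℝ, W = fun s s' =>
    if Squarefree s.2.1 ∧ Squarefree s'.2.1 ∧ Nat.Coprime s'.1 s'.2.1 then
      p s'.1 s.2.1 s'.2.1 * q s.1 s.2.1 s'.2.1 * r s'.2.2 s.2.1 s'.2.1 *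
        k s.1 s.2.1 s.2.2 s'.1 s'.2.1 s'.2.2 else 0 := ⟨_, rfl⟩
  have hW0 : ∀ s s', 0 ≤ W s s' := by
    intro s s'
    rw [hW]
    dsimp only
    split_ifs
    · exact mul_nonneg (mul_nonneg (mul_nonneg (hp0 _ _ _) (hq0 _ _ _)) (hr0 _ _ _))
        (hk0 _ _ _ _ _ _)
    · exact le_rfl
  -- the inner sum
  have hin : ∀ b f : ℕ, f ∈ Ico F (2 * F) → ∀ s' ∈ Ico B (2 * B) ×ˢ Ico F (2 * F) ×ˢ fr L,
      ∑ l ∈ fr L, W (b, f, l) s' ≤ K * (p s'.1 f s'.2.1 * q b f s'.2.1 * r s'.2.2 f s'.2.1) := by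
    intro b f hf s' hs'
    obtain ⟨b', f', l'⟩ := s'
    rw [Finset.mem_product, Finset.mem_product, Finset.mem_Ico, Finset.mem_Ico] at hs'
    rw [Finset.mem_Ico] at hf
    dsimp only at hs' ⊢
    by_cases hc : Squarefree f ∧ Squarefree f' ∧ Nat.Coprime b' f'
    · obtain ⟨h1, h2, h3⟩ := hc
      have hf0 : 0 < f := by omega
      have hf0' : 0 < f' := by omega
      obtain ⟨g, hg⟩ : ∃ g, g = Nat.gcd f f' := ⟨_, rfl⟩
      obtain ⟨f1, hf1⟩ : ∃ f1, f1 = f / Nat.gcd f f' := ⟨_, rfl⟩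
      obtain ⟨f2, hf2⟩ : ∃ f2, f2 = f' / Nat.gcd f f' := ⟨_, rfl⟩
      have hg0 : 0 < g := by rw [hg]; exact Nat.gcd_pos_of_pos_left _ hf0
      have e1 : f = g * f1 := by
        rw [hg, hf1, Nat.mul_div_cancel' (Nat.gcd_dvd_left f f')]
      have e2 : f' = g * f2 := by
        rw [hg, hf2, Nat.mul_div_cancel' (Nat.gcd_dvd_right f f')]
      have hf10 : 0 < f1 := Nat.pos_of_ne_zero fun h => by rw [h, mul_zero] at e1; omega
      have hf20 : 0 < f2 := Nat.pos_of_ne_zero fun h => by rw [h, mul_zero] at e2; omega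
      have hcg1 : Nat.Coprime g f1 := (Nat.squarefree_mul_iff.1 (e1 ▸ h1)).1
      have hcg2 : Nat.Coprime g f2 := (Nat.squarefree_mul_iff.1 (e2 ▸ h2)).1
      have hcb : Nat.Coprime b' g := h3.coprime_dvd_right (by rw [e2]; exact dvd_mul_right _ _)
      have hf1le : f1 ≤ 2 * F := by
        have : f1 ≤ f := by rw [e1]; exact Nat.le_mul_of_pos_left _ hg0
        omega
      have hgle : g ≤ 2 * F := by
        have : g ≤ f := by rw [e1]; exact Nat.le_mul_of_pos_right _ hf10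
        omega
      have hmain := cgf_in F L D hL f1 g hf10 hg0 hcg1.symm
        (by rw [mul_comm, ← e1]; omega) ((b' : ℤ) * f2) (l' * b * f1)
        (by
          have := Nat.isCoprime_iff_coprime.2 (Nat.Coprime.mul_left hcb hcg2.symm)
          push_cast at this
          exact this)
        (hD f1 hf10 (by exact_mod_cast hf1le)) (hD g hg0 (by exact_mod_cast hgle))
      have e3 : ∀ l ∈ fr L, W (b, f, l) (b', f', l') =
          (p b' f f' * q b f f' * r l' f f') *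
            (√((Int.gcd l f1 : ℕ) : ℝ) *
              √((Int.gcd (l * ((b' : ℤ) * f2) - l' * b * f1) g : ℕ) : ℝ)) := by
        intro l _
        have e4 : l * ((b' : ℤ) * f2) - l' * b * f1 = c0 b f l b' f' l' := by
          rw [hf1, hf2]
          unfold c0
          ring
        rw [e4, hf1, hg, hW, hk]
        dsimp only
        rw [if_pos ⟨h1, h2, h3⟩]
      rw [Finset.sum_congr rfl e3, ← Finset.mul_sum, mul_comm K, hK]
      exact mul_le_mul_of_nonneg_left hmain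
        (mul_nonneg (mul_nonneg (hp0 _ _ _) (hq0 _ _ _)) (hr0 _ _ _))
    · have e3 : ∀ l ∈ fr L, W (b, f, l) (b', f', l') = 0 := by
        intro l _
        rw [hW]
        dsimp only
        rw [if_neg hc]
      rw [Finset.sum_congr rfl e3, Finset.sum_const_zero]
      exact mul_nonneg hK0 (mul_nonneg (mul_nonneg (hp0 _ _ _) (hq0 _ _ _)) (hr0 _ _ _))
  -- sums of the outer factors
  have hdiv : ∀ f ∈ Ico F (2 * F), ∀ f' ∈ Ico F (2 * F),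
      (0 < f / Nat.gcd f f' ∧ ((f / Nat.gcd f f').divisors.card : ℝ) ≤ D) ∧
      (0 < f' / Nat.gcd f f' ∧ ((f' / Nat.gcd f f').divisors.card : ℝ) ≤ D) := by
    intro f hf f' hf'
    rw [Finset.mem_Ico] at hf hf'
    have hf0 : 0 < f := by omega
    have hf0' : 0 < f' := by omega
    have hg0 : 0 < Nat.gcd f f' := Nat.gcd_pos_of_pos_left _ hf0
    have a1 : 0 < f / Nat.gcd f f' :=
      Nat.div_pos (Nat.le_of_dvd hf0 (Nat.gcd_dvd_left _ _)) hg0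
    have a2 : 0 < f' / Nat.gcd f f' :=
      Nat.div_pos (Nat.le_of_dvd hf0' (Nat.gcd_dvd_right _ _)) hg0
    have a3 : f / Nat.gcd f f' ≤ 2 * F := (Nat.div_le_self _ _).trans (by omega)
    have a4 : f' / Nat.gcd f f' ≤ 2 * F := (Nat.div_le_self _ _).trans (by omega)
    exact ⟨⟨a1, hD _ a1 (by exact_mod_cast a3)⟩, ⟨a2, hD _ a2 (by exact_mod_cast a4)⟩⟩
  have hsp : ∀ f ∈ Ico F (2 * F), ∀ f' ∈ Ico F (2 * F),
      ∑ b' ∈ Ico B (2 * B), p b' f f' ≤ 2 * B * D := by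
    intro f hf f' hf'
    obtain ⟨⟨a1, a2⟩, -⟩ := hdiv f hf f' hf'
    rw [hp]
    exact cgf_b B _ a1 D a2 hB
  have hsq : ∀ f ∈ Ico F (2 * F), ∀ f' ∈ Ico F (2 * F),
      ∑ b ∈ Ico B (2 * B), q b f f' ≤ 2 * B * D := by
    intro f hf f' hf'
    obtain ⟨-, ⟨a1, a2⟩⟩ := hdiv f hf f' hf'
    rw [hq]
    exact cgf_b B _ a1 D a2 hB
  have hsr : ∀ f ∈ Ico F (2 * F), ∀ f' ∈ Ico F (2 * F),
      ∑ l' ∈ fr L, r l' f f' ≤ 2 * L * D := by
    intro f hf f' hf'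
    obtain ⟨-, ⟨a1, a2⟩⟩ := hdiv f hf f' hf'
    rw [hr]
    exact cgf_l L hL _ a1 D a2
  have hBD : 0 ≤ 2 * B * D := by positivity
  have hLD : 0 ≤ 2 * L * D := by positivity
  have houter : ∀ f ∈ Ico F (2 * F), ∀ f' ∈ Ico F (2 * F),
      ∑ b ∈ Ico B (2 * B), ∑ b' ∈ Ico B (2 * B), ∑ l' ∈ fr L,
        p b' f f' * q b f f' * r l' f f' ≤ (2 * B * D) * ((2 * B * D) * (2 * L * D)) := by
    intro f hf f' hf'
    have e1 : ∑ b ∈ Ico B (2 * B), ∑ b' ∈ Ico B (2 * B), ∑ l' ∈ fr L,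
        p b' f f' * q b f f' * r l' f f' =
        (∑ b ∈ Ico B (2 * B), q b f f') * ((∑ b' ∈ Ico B (2 * B), p b' f f') *
          (∑ l' ∈ fr L, r l' f f')) := by
      rw [Finset.sum_mul]
      refine Finset.sum_congr rfl fun b _ => ?_
      rw [Finset.sum_mul, Finset.mul_sum]
      refine Finset.sum_congr rfl fun b' _ => ?_
      rw [Finset.mul_sum, Finset.mul_sum]
      refine Finset.sum_congr rfl fun l' _ => ?_
      ring
    rw [e1]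
    refine mul_le_mul (hsq f hf f' hf') ?_ ?_ hBD
    · exact mul_le_mul (hsp f hf f' hf') (hsr f hf f' hf')
        (Finset.sum_nonneg fun l' _ => hr0 _ _ _) hBD
    · exact mul_nonneg (Finset.sum_nonneg fun b' _ => hp0 _ _ _)
        (Finset.sum_nonneg fun l' _ => hr0 _ _ _)
  -- assembly
  have hstep1 : ∑ t ∈ ((Ico B (2 * B) ×ˢ Ico F (2 * F) ×ˢ fr L) ×ˢ
      (Ico B (2 * B) ×ˢ Ico F (2 * F) ×ˢ fr L)).filter
        (fun t => c0 t.1.1 t.1.2.1 t.1.2.2 t.2.1 t.2.2.1 t.2.2.2 ≠ 0 ∧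
          Squarefree t.1.2.1 ∧ Squarefree t.2.2.1 ∧ Nat.Coprime t.1.1 t.1.2.1 ∧
          Nat.Coprime t.2.1 t.2.2.1),
      √(Int.gcd (c0 t.1.1 t.1.2.1 t.1.2.2 t.2.1 t.2.2.1 t.2.2.2)
        (Nat.lcm t.1.2.1 t.2.2.1 : ℕ) : ℝ) ≤
      ∑ t ∈ (Ico B (2 * B) ×ˢ Ico F (2 * F) ×ˢ fr L) ×ˢ
      (Ico B (2 * B) ×ˢ Ico F (2 * F) ×ˢ fr L), W t.1 t.2 := by
    rw [Finset.sum_filter]
    refine Finset.sum_le_sum fun t ht => ?_
    obtain ⟨⟨b, f, l⟩, ⟨b', f', l'⟩⟩ := t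
    rw [Finset.mem_product, Finset.mem_product, Finset.mem_product, Finset.mem_product,
      Finset.mem_product] at ht
    dsimp only at ht ⊢
    rw [Finset.mem_Ico, Finset.mem_Ico, Finset.mem_Ico, Finset.mem_Ico] at ht
    split_ifs with hc
    · obtain ⟨-, h1, h2, -, h3⟩ := hc
      rw [hW, hp, hq, hr, hk]
      dsimp only
      rw [if_pos ⟨h1, h2, h3⟩]
      exact cgf_pt b f l b' f' l' (by omega) (by omega) h1 h2
    · exact hW0 _ _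
  refine hstep1.trans ?_
  rw [Finset.sum_product]
  rw [Finset.sum_product]
  have hstep2 : ∑ b ∈ Ico B (2 * B), ∑ y ∈ Ico F (2 * F) ×ˢ fr L,
      ∑ s' ∈ Ico B (2 * B) ×ˢ Ico F (2 * F) ×ˢ fr L, W (b, y) s' ≤
      ∑ b ∈ Ico B (2 * B), ∑ f ∈ Ico F (2 * F), ∑ b' ∈ Ico B (2 * B), ∑ f' ∈ Ico F (2 * F),
        ∑ l' ∈ fr L, K * (p b' f f' * q b f f' * r l' f f') := by
    refine Finset.sum_le_sum fun b _ => ?_
    rw [Finset.sum_product]
    refine Finset.sum_le_sum fun f hf => ?_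
    rw [Finset.sum_comm]
    refine (Finset.sum_le_sum fun s' hs' => hin b f hf s' hs').trans (le_of_eq ?_)
    rw [Finset.sum_product]
    refine Finset.sum_congr rfl fun b' _ => ?_
    rw [Finset.sum_product]
  refine hstep2.trans ?_
  have hstep3 : ∑ b ∈ Ico B (2 * B), ∑ f ∈ Ico F (2 * F), ∑ b' ∈ Ico B (2 * B),
      ∑ f' ∈ Ico F (2 * F), ∑ l' ∈ fr L, K * (p b' f f' * q b f f' * r l' f f') =
      K * ∑ f ∈ Ico F (2 * F), ∑ f' ∈ Ico F (2 * F), ∑ b ∈ Ico B (2 * B),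
        ∑ b' ∈ Ico B (2 * B), ∑ l' ∈ fr L, p b' f f' * q b f f' * r l' f f' := by
    rw [Finset.sum_comm, Finset.mul_sum]
    refine Finset.sum_congr rfl fun f _ => ?_
    have h1 : ∀ b ∈ Ico B (2 * B), ∑ b' ∈ Ico B (2 * B), ∑ f' ∈ Ico F (2 * F),
        ∑ l' ∈ fr L, K * (p b' f f' * q b f f' * r l' f f') =
        ∑ f' ∈ Ico F (2 * F), K * ∑ b' ∈ Ico B (2 * B), ∑ l' ∈ fr L,
          p b' f f' * q b f f' * r l' f f' := by
      intro b _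
      rw [Finset.sum_comm]
      refine Finset.sum_congr rfl fun f' _ => ?_
      rw [Finset.mul_sum]
      refine Finset.sum_congr rfl fun b' _ => ?_
      rw [Finset.mul_sum]
    rw [Finset.sum_congr rfl h1, Finset.sum_comm, Finset.mul_sum]
    refine Finset.sum_congr rfl fun f' _ => ?_
    rw [Finset.mul_sum]
  rw [hstep3]
  have hcF : ((Ico F (2 * F)).card : ℝ) = F := by
    rw [Nat.card_Ico, two_mul, Nat.add_sub_cancel]
  have hstep4 : ∑ f ∈ Ico F (2 * F), ∑ f' ∈ Ico F (2 * F), ∑ b ∈ Ico B (2 * B),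
      ∑ b' ∈ Ico B (2 * B), ∑ l' ∈ fr L, p b' f f' * q b f f' * r l' f f' ≤
      F * (F * ((2 * B * D) * ((2 * B * D) * (2 * L * D)))) := by
    refine (Finset.sum_le_sum fun f hf => Finset.sum_le_sum fun f' hf' =>
      houter f hf f' hf').trans (le_of_eq ?_)
    rw [Finset.sum_const, Finset.sum_const, nsmul_eq_mul, nsmul_eq_mul, hcF]
  refine (mul_le_mul_of_nonneg_left hstep4 hK0).trans ?_
  have hsqF : √(2 * (F : ℝ)) ≤ 2 * √(F : ℝ) := by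
    have h1 : (2 : ℝ) * √(F : ℝ) = √(4 * (F : ℝ)) := by
      rw [Real.sqrt_mul (by norm_num), show (4 : ℝ) = 2 ^ 2 by norm_num,
        Real.sqrt_sq (by norm_num)]
    rw [h1]
    exact Real.sqrt_le_sqrt (by linarith)
  rw [hK]
  have e5 : D ^ 2 * (2 * L + √(2 * (F : ℝ))) *
      (F * (F * ((2 * B * D) * ((2 * B * D) * (2 * L * D))))) =
      (8 * D ^ 5 * B ^ 2 * F ^ 2 * L) * (2 * L + √(2 * (F : ℝ))) := by ring
  have e6 : 16 * D ^ 5 * B ^ 2 * F ^ 2 * L * (L + √(F : ℝ)) =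
      (8 * D ^ 5 * B ^ 2 * F ^ 2 * L) * (2 * L + 2 * √(F : ℝ)) := by ring
  rw [e5, e6]
  refine mul_le_mul_of_nonneg_left (by linarith) ?_
  positivity

end Pool.Agent.H11.PX
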