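import Pool.Agent.H11.PX.Psu
import Pool.Agent.H11.PX.Cdi
import Pool.Agent.H11.PX.Cge
import Pool.Agent.H11.PX.Cgf

/-!
# [H11 PX BOX] Cauchy-Schwarz and the bound for a box

Notation: `X = X2 - X1`, `M0 = q0 A B E F`, `Ξ = X2 + j Y + h`, `κ = |h - h'|`,
`I_e = {(b,f,l) ∈ Ico B 2B × Ico F 2F × fr L : b coprime to e f q0, e f coprime to q0 κ, e f squarefree}`,
`w_i = β b δ f`, `z_i(a) = ei (e f q0) (ci ..) a * gg .. a`.

Proof.  `cnd` holds iff (`a` coprime to `e f q0`) and the conditions of `I_e`; `ei` contains the condition on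
`a`.  So `TT = ∑_{a} ∑_{e} α a γ e ∑_{i ∈ I_e} w_i z_i(a)` (interchange sums, zero terms), and by
Cauchy-Schwarz with `|α|, |γ| ≤ 1`, `A E` pairs `(a, e)`:
`‖TT‖^2 ≤ A E ∑_{e} ∑_{a} |∑_{i ∈ I_e} w_i z_i(a)|^2 ≤ A E ∑_e ∑_{i,i' ∈ I_e} |∑_a z_i(a) conj z_{i'}(a)|`.
Diagonal `c0(i,i') = 0`: `pair_triv` and `diag_count` (for each of the `E` values of `e`):
`≤ E * D^2 (2 L B F) * A (X/M0)^2`.
Off-diagonal: `pair_sum`.  `Q1 = e lcm(f,f')`, `gcd(c0, Q1) = gcd(c0, e) gcd(c0, lcm)` (`e` coprime to `f`, `f'`),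
`Q1 ≥ ...`: first part `A gcd(c0,Q1)/Q1 ≤ A gcd(c0,e)/e` (as `gcd(c0,lcm) ≤ lcm`); sum over `e` by `sum_e1`
(`τ(|c0|) ≤ D`, `|c0| < 8 L B F`), number of pairs `(i,i') ≤ (2 L B F)^2`: `≤ 3 D A (2LBF)^2 = 12 D A B²F²L²`.
Second part: `τ(Q1) ≤ D`, `Q1 < 8 E F^2`, `√Q1 ≤ √8 √E F`, `√gcd(c0,Q1) = √gcd(c0,e) √gcd(c0,lcm)`,
sum over `e` by `sum_e2` (`3 D E`), then `sum_ff` (`16 D^5 ...`): total
`q0 D √8 √E F (1 + log(8 E F^2 q0)) 3 D E 16 D^5 B²F²L (L+√F) ≤ 144 q0 D^7 (...) E √E B² F³ L (L + √F)`.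
All numbers whose divisor function is used are `≤ 16 (L+1) B E F^2`.
-/

namespace Pool.Agent.H11.PX

open Finset

/-- Cauchy-Schwarz -/
private theorem cs_aux {τ : Type*} (SA SE : Finset ℕ) (I : ℕ → Finset τ) (α γ : ℕ → ℂ) (w : τ → ℂ)
    (z : ℕ → τ → ℕ → ℂ) (hα : ∀ n, ‖α n‖ ≤ 1) (hγ : ∀ n, ‖γ n‖ ≤ 1) (hw : ∀ t, ‖w t‖ ≤ 1) :
    ‖∑ a ∈ SA, ∑ e ∈ SE, α a * γ e * ∑ t ∈ I e, w t * z e t a‖ ^ 2 ≤
      (SA.card : ℝ) * SE.card * ∑ e ∈ SE, ∑ p ∈ I e ×ˢ I e,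
        ‖∑ a ∈ SA, z e p.1 a * (starRingEnd ℂ) (z e p.2 a)‖ := by
  have h1 : ‖∑ a ∈ SA, ∑ e ∈ SE, α a * γ e * ∑ t ∈ I e, w t * z e t a‖ ≤
      ∑ p ∈ SA ×ˢ SE, ‖∑ t ∈ I p.2, w t * z p.2 t p.1‖ := by
    rw [← Finset.sum_product' SA SE (fun a e => α a * γ e * ∑ t ∈ I e, w t * z e t a)]
    refine (norm_sum_le _ _).trans (Finset.sum_le_sum fun p _ => ?_)
    rw [norm_mul, norm_mul]
    have h2 : ‖α p.1‖ * ‖γ p.2‖ ≤ 1 := mul_le_one₀ (hα _) (norm_nonneg _) (hγ _)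
    calc ‖α p.1‖ * ‖γ p.2‖ * ‖∑ t ∈ I p.2, w t * z p.2 t p.1‖
        ≤ 1 * ‖∑ t ∈ I p.2, w t * z p.2 t p.1‖ :=
          mul_le_mul_of_nonneg_right h2 (norm_nonneg _)
      _ = _ := one_mul _
  have h3 : (∑ p ∈ SA ×ˢ SE, ‖∑ t ∈ I p.2, w t * z p.2 t p.1‖) ^ 2 ≤
      (SA.card : ℝ) * SE.card * ∑ p ∈ SA ×ˢ SE, ‖∑ t ∈ I p.2, w t * z p.2 t p.1‖ ^ 2 := by
    have h4 := sq_sum_le_card_mul_sum_sq (s := SA ×ˢ SE)
      (f := fun p => ‖∑ t ∈ I p.2, w t * z p.2 t p.1‖)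
    rw [Finset.card_product, Nat.cast_mul] at h4
    exact h4
  have h5 : ∑ p ∈ SA ×ˢ SE, ‖∑ t ∈ I p.2, w t * z p.2 t p.1‖ ^ 2 ≤
      ∑ e ∈ SE, ∑ p ∈ I e ×ˢ I e, ‖∑ a ∈ SA, z e p.1 a * (starRingEnd ℂ) (z e p.2 a)‖ := by
    rw [Finset.sum_product_right' SA SE (fun a e => ‖∑ t ∈ I e, w t * z e t a‖ ^ 2)]
    refine Finset.sum_le_sum fun e _ => ?_
    have h6 : ((∑ a ∈ SA, ‖∑ t ∈ I e, w t * z e t a‖ ^ 2 : ℝ) : ℂ) =
        ∑ p ∈ I e ×ˢ I e, w p.1 * (starRingEnd ℂ) (w p.2) *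
          ∑ a ∈ SA, z e p.1 a * (starRingEnd ℂ) (z e p.2 a) := by
      rw [Complex.ofReal_sum]
      have h7 : ∀ a ∈ SA, ((‖∑ t ∈ I e, w t * z e t a‖ ^ 2 : ℝ) : ℂ) =
          ∑ p ∈ I e ×ˢ I e, w p.1 * (starRingEnd ℂ) (w p.2) *
            (z e p.1 a * (starRingEnd ℂ) (z e p.2 a)) := by
        intro a _
        rw [Complex.ofReal_pow, ← Complex.mul_conj', map_sum, Finset.sum_mul_sum,
          ← Finset.sum_product']
        refine Finset.sum_congr rfl fun p _ => ?_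
        rw [map_mul]
        ring
      rw [Finset.sum_congr rfl h7, Finset.sum_comm]
      refine Finset.sum_congr rfl fun p _ => ?_
      rw [Finset.mul_sum]
    have h8 : (∑ a ∈ SA, ‖∑ t ∈ I e, w t * z e t a‖ ^ 2 : ℝ) =
        ‖((∑ a ∈ SA, ‖∑ t ∈ I e, w t * z e t a‖ ^ 2 : ℝ) : ℂ)‖ := by
      rw [Complex.norm_real, Real.norm_of_nonneg]
      exact Finset.sum_nonneg fun _ _ => sq_nonneg _
    rw [h8, h6]
    refine (norm_sum_le _ _).trans (Finset.sum_le_sum fun p _ => ?_)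
    rw [norm_mul, norm_mul, RCLike.norm_conj]
    calc ‖w p.1‖ * ‖w p.2‖ * ‖∑ a ∈ SA, z e p.1 a * (starRingEnd ℂ) (z e p.2 a)‖
        ≤ 1 * ‖∑ a ∈ SA, z e p.1 a * (starRingEnd ℂ) (z e p.2 a)‖ :=
          mul_le_mul_of_nonneg_right (mul_le_one₀ (hw _) (norm_nonneg _) (hw _)) (norm_nonneg _)
      _ = _ := one_mul _
  calc ‖∑ a ∈ SA, ∑ e ∈ SE, α a * γ e * ∑ t ∈ I e, w t * z e t a‖ ^ 2
      ≤ (∑ p ∈ SA ×ˢ SE, ‖∑ t ∈ I p.2, w t * z p.2 t p.1‖) ^ 2 :=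
        pow_le_pow_left₀ (norm_nonneg _) h1 2
    _ ≤ _ := h3
    _ ≤ _ := mul_le_mul_of_nonneg_left h5 (by positivity)

/-- the conditions on the inner indices -/
private def cI (q0 κ b e f : ℕ) : Prop :=
  Nat.Coprime b (e * f * q0) ∧ Nat.Coprime (e * f) q0 ∧ Nat.Coprime (e * f) κ ∧
    Squarefree (e * f)

private theorem cnd_iff (q0 κ a b e f : ℕ) :
    cnd q0 κ a b e f ↔ cI q0 κ b e f ∧ Nat.Coprime a (e * f * q0) := by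
  unfold cnd cI
  simp only [Nat.coprime_mul_iff_left, Nat.coprime_mul_iff_right]
  tauto

open Classical in
/-- the oscillating sum, rearranged -/
private theorem TT_eq (X1 X2 Y j q0 h h' r A B E F : ℕ) (L : ℝ) (α β γ δ : ℕ → ℂ) :
    TT X1 X2 Y j q0 h h' r A B E F L α β γ δ =
      ∑ a ∈ Ico A (2 * A), ∑ e ∈ Ico E (2 * E), α a * γ e *
        ∑ t ∈ (Ico B (2 * B) ×ˢ Ico F (2 * F) ×ˢ fr L).filter
          (fun t => cI q0 ((h : ℤ) - h').natAbs t.1 e t.2.1),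
          (β t.1 * δ t.2.1) * (ei (e * t.2.1 * q0) (ci q0 h h' r t.1 e t.2.1 t.2.2) a *
            gg X1 X2 Y j h (q0 * t.1 * e * t.2.1) t.2.2 a) := by
  unfold TT
  refine Finset.sum_congr rfl fun a _ => ?_
  rw [Finset.sum_comm]
  refine Finset.sum_congr rfl fun e _ => ?_
  rw [Finset.sum_filter, Finset.sum_product, Finset.mul_sum]
  refine Finset.sum_congr rfl fun b _ => ?_
  rw [Finset.sum_product, Finset.mul_sum]
  refine Finset.sum_congr rfl fun f _ => ?_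
  by_cases hI : cI q0 ((h : ℤ) - h').natAbs b e f
  · by_cases ha : Nat.Coprime a (e * f * q0)
    · rw [if_pos ((cnd_iff _ _ _ _ _ _).2 ⟨hI, ha⟩), Finset.mul_sum, Finset.mul_sum]
      refine Finset.sum_congr rfl fun l _ => ?_
      rw [if_pos hI]
      ring
    · rw [if_neg (fun hh => ha ((cnd_iff _ _ _ _ _ _).1 hh).2)]
      symm
      rw [Finset.mul_sum]
      refine Finset.sum_eq_zero fun l _ => ?_
      rw [if_pos hI, ei, if_neg ha]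
      ring
  · rw [if_neg (fun hh => hI ((cnd_iff _ _ _ _ _ _).1 hh).1)]
    symm
    rw [Finset.mul_sum]
    refine Finset.sum_eq_zero fun l _ => ?_
    rw [if_neg hI, mul_zero]

/-- bound for an off-diagonal pair -/
private theorem off_pair (X1 X2 Y j q0 h h' r A B E F b b' e f f' : ℕ) (l l' : ℤ) (L D : ℝ)
    (hX : X1 ≤ X2) (hY : 0 < Y) (hq : 0 < q0) (hA : 0 < A) (hB : 0 < B) (hE : 0 < E)
    (hF : 0 < F) (hL : 0 ≤ L) (hD1 : 1 ≤ D)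
    (hD : ∀ n : ℕ, 1 ≤ n → (n : ℝ) ≤ 16 * (L + 1) * B * E * F ^ 2 → (n.divisors.card : ℝ) ≤ D)
    (hb : b ∈ Ico B (2 * B)) (hb' : b' ∈ Ico B (2 * B))
    (he : e ∈ Ico E (2 * E)) (hf : f ∈ Ico F (2 * F)) (hf' : f' ∈ Ico F (2 * F))
    (hl : |(l : ℝ)| ≤ L) (hl' : |(l' : ℝ)| ≤ L)
    (h1 : cI q0 ((h : ℤ) - h').natAbs b e f) (h2 : cI q0 ((h : ℤ) - h').natAbs b' e f')
    (hc : c0 b f l b' f' l' ≠ 0) :
    ‖∑ a ∈ Ico A (2 * A),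
      (ei (e * f * q0) (ci q0 h h' r b e f l) a * gg X1 X2 Y j h (q0 * b * e * f) l a) *
      (starRingEnd ℂ) (ei (e * f' * q0) (ci q0 h h' r b' e f' l') a *
        gg X1 X2 Y j h (q0 * b' * e * f') l' a)‖ ≤
      (((X2 : ℝ) - X1) / (q0 * A * B * E * F)) ^ 2 *
        (3 + 4 * Real.pi * (X2 + j * Y + h) * L / (q0 * A * B * E * F)) *
        (A * ((Int.gcd (c0 b f l b' f' l') (e : ℤ) : ℝ) / e) +
          (q0 * D * (3 * √(E : ℝ) * F) * (1 + Real.log (8 * E * F ^ 2 * q0))) *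
            (√(Int.gcd (c0 b f l b' f' l') (e : ℤ) : ℝ) *
              √(Int.gcd (c0 b f l b' f' l') (Nat.lcm f f' : ℕ) : ℝ))) := by
  have hmain := pair_sum X1 X2 Y j q0 h h' r A B E F b b' e f f' l l' L hX hY hq hA hB hE hF hb hb'
    he hf hf' hl hl' h1.1 h2.1 h1.2.2.2 h2.2.2.2 h1.2.2.1 h2.2.2.1 h1.2.1 h2.2.1
  have heI := Finset.mem_Ico.1 he
  have hfI := Finset.mem_Ico.1 hf
  have hfI' := Finset.mem_Ico.1 hf'
  have he0 : 0 < e := lt_of_lt_of_le hE heI.1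
  have hf0 : 0 < f := lt_of_lt_of_le hF hfI.1
  have hf0' : 0 < f' := lt_of_lt_of_le hF hfI'.1
  have hlc0 : 0 < Nat.lcm f f' := Nat.lcm_pos hf0 hf0'
  have hQ0 : 0 < e * Nat.lcm f f' := Nat.mul_pos he0 hlc0
  have hQle : e * Nat.lcm f f' ≤ 8 * E * F ^ 2 := by
    have h3 : Nat.lcm f f' ≤ f * f' :=
      Nat.le_of_dvd (Nat.mul_pos hf0 hf0') (Nat.lcm_dvd_mul f f')
    calc e * Nat.lcm f f' ≤ (2 * E) * ((2 * F) * (2 * F)) :=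
          Nat.mul_le_mul heI.2.le (h3.trans (Nat.mul_le_mul hfI.2.le hfI'.2.le))
      _ = 8 * E * F ^ 2 := by ring
  have hQle' : ((e * Nat.lcm f f' : ℕ) : ℝ) ≤ 8 * E * F ^ 2 := by
    exact_mod_cast hQle
  have hBr : (1 : ℝ) ≤ B := by exact_mod_cast hB
  have hEr : (1 : ℝ) ≤ E := by exact_mod_cast hE
  have hFr : (1 : ℝ) ≤ F := by exact_mod_cast hF
  have hQr : (1 : ℝ) ≤ ((e * Nat.lcm f f' : ℕ) : ℝ) := by exact_mod_cast hQ0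
  have hqr : (1 : ℝ) ≤ q0 := by exact_mod_cast hq
  have hτ : ((e * Nat.lcm f f').divisors.card : ℝ) ≤ D := by
    refine hD _ hQ0 (hQle'.trans ?_)
    have h4 : (8 : ℝ) * E * F ^ 2 * 1 ≤ 8 * E * F ^ 2 * (2 * (L + 1) * B) := by
      refine mul_le_mul_of_nonneg_left ?_ (by positivity)
      nlinarith
    linarith
  -- gcd estimates
  have hgdvd : Int.gcd (c0 b f l b' f' l') (e * Nat.lcm f f' : ℕ) ∣
      Int.gcd (c0 b f l b' f' l') (e : ℤ) * Int.gcd (c0 b f l b' f' l') (Nat.lcm f f' : ℕ) := by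
    have h5 := Nat.gcd_mul_right_dvd_mul_gcd (c0 b f l b' f' l').natAbs e (Nat.lcm f f')
    exact h5
  have hgE : 0 < Int.gcd (c0 b f l b' f' l') (e : ℤ) := Int.gcd_pos_of_ne_zero_left _ hc
  have hgL : 0 < Int.gcd (c0 b f l b' f' l') (Nat.lcm f f' : ℕ) :=
    Int.gcd_pos_of_ne_zero_left _ hc
  have hgle := Nat.le_of_dvd (Nat.mul_pos hgE hgL) hgdvd
  have hgLle : Int.gcd (c0 b f l b' f' l') (Nat.lcm f f' : ℕ) ≤ Nat.lcm f f' :=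
    Nat.gcd_le_right _ hlc0
  obtain ⟨G, hG⟩ : ∃ G, G = Int.gcd (c0 b f l b' f' l') (e * Nat.lcm f f' : ℕ) := ⟨_, rfl⟩
  obtain ⟨GE, hGE⟩ : ∃ G, G = Int.gcd (c0 b f l b' f' l') (e : ℤ) := ⟨_, rfl⟩
  obtain ⟨GM, hGL⟩ : ∃ G, G = Int.gcd (c0 b f l b' f' l') (Nat.lcm f f' : ℕ) := ⟨_, rfl⟩
  rw [← hG, ← hGE, ← hGL] at hgle
  rw [← hG] at hmain
  rw [← hGE, ← hGL]
  rw [← hGL] at hgLle hgL
  rw [← hGE] at hgE
  have hgle' : (G : ℝ) ≤ GE * GM := by exact_mod_cast hgle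
  have her : (0 : ℝ) < e := by exact_mod_cast he0
  have hlr : (0 : ℝ) < (Nat.lcm f f' : ℕ) := by exact_mod_cast hlc0
  refine hmain.trans ?_
  refine mul_le_mul_of_nonneg_left (add_le_add ?_ ?_) (by positivity)
  · rw [mul_div_assoc]
    refine mul_le_mul_of_nonneg_left ?_ (by positivity)
    rw [Nat.cast_mul, div_le_div_iff₀ (by positivity) her]
    have h6 : (G : ℝ) ≤ GE * (Nat.lcm f f' : ℕ) := by
      exact_mod_cast hgle.trans (Nat.mul_le_mul_left _ hgLle)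
    nlinarith
  · have hs1 : √((e * Nat.lcm f f' : ℕ) : ℝ) ≤ 3 * √(E : ℝ) * F := by
      rw [Real.sqrt_le_iff]
      refine ⟨by positivity, hQle'.trans ?_⟩
      have h7 : (3 * √(E : ℝ) * F) ^ 2 = 9 * E * F ^ 2 := by
        rw [mul_pow, mul_pow, Real.sq_sqrt (by positivity)]
        ring
      rw [h7]
      nlinarith [mul_pos (lt_of_lt_of_le one_pos hEr) (pow_pos (lt_of_lt_of_le one_pos hFr) 2)]
    have hs2 : √(G : ℝ) ≤ √(GE : ℝ) * √(GM : ℝ) := by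
      rw [← Real.sqrt_mul (by positivity)]
      exact Real.sqrt_le_sqrt hgle'
    have hs3 : Real.log ((e * Nat.lcm f f' * q0 : ℕ) : ℝ) ≤ Real.log (8 * E * F ^ 2 * q0) := by
      refine Real.log_le_log ?_ ?_
      · exact_mod_cast Nat.mul_pos hQ0 hq
      · rw [Nat.cast_mul]
        exact mul_le_mul_of_nonneg_right hQle' (by positivity)
    have hs4 : 0 ≤ Real.log ((e * Nat.lcm f f' * q0 : ℕ) : ℝ) :=
      Real.log_natCast_nonneg _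
    calc (q0 : ℝ) * (e * Nat.lcm f f').divisors.card * √((e * Nat.lcm f f' : ℕ) : ℝ) *
            √(G : ℝ) * (1 + Real.log ((e * Nat.lcm f f' * q0 : ℕ) : ℝ))
        ≤ (q0 : ℝ) * D * (3 * √(E : ℝ) * F) * (√(GE : ℝ) * √(GM : ℝ)) *
            (1 + Real.log (8 * E * F ^ 2 * q0)) := by
          gcongr
      _ = _ := by ring

theorem box_bound (X1 X2 Y j q0 h h' r A B E F : ℕ) (hX : X1 ≤ X2) (hY : 0 < Y)
    (hq : 0 < q0) (hA : 0 < A) (hB : 0 < B) (hE : 0 < E) (hF : 0 < F) (L D : ℝ) (hL : 0 ≤ L)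
    (hD1 : 1 ≤ D)
    (hD : ∀ n : ℕ, 1 ≤ n → (n : ℝ) ≤ 16 * (L + 1) * B * E * F ^ 2 → (n.divisors.card : ℝ) ≤ D)
    (α β γ δ : ℕ → ℂ) (hα : ∀ n, ‖α n‖ ≤ 1) (hβ : ∀ n, ‖β n‖ ≤ 1) (hγ : ∀ n, ‖γ n‖ ≤ 1)
    (hδ : ∀ n, ‖δ n‖ ≤ 1) :
    ‖TT X1 X2 Y j q0 h h' r A B E F L α β γ δ‖ ^ 2 ≤
      A * E * (((X2 : ℝ) - X1) / (q0 * A * B * E * F)) ^ 2 *
        (2 * D ^ 2 * L * B * F * A * E +
          (3 + 4 * Real.pi * (X2 + j * Y + h) * L / (q0 * A * B * E * F)) *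
            (12 * D * A * B ^ 2 * F ^ 2 * L ^ 2 +
              144 * q0 * D ^ 7 * (1 + Real.log (8 * E * F ^ 2 * q0)) * (E * √(E : ℝ)) *
                B ^ 2 * F ^ 3 * L * (L + √(F : ℝ)))) := by
  classical
  have hBr : (1 : ℝ) ≤ B := by exact_mod_cast hB
  have hEr : (1 : ℝ) ≤ E := by exact_mod_cast hE
  have hFr : (1 : ℝ) ≤ F := by exact_mod_cast hF
  have hAr : (1 : ℝ) ≤ A := by exact_mod_cast hA
  have hqr : (1 : ℝ) ≤ q0 := by exact_mod_cast hq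
  have hF2 : (F : ℝ) ≤ F ^ 2 := by nlinarith
  have hEF : (F : ℝ) ≤ E * F ^ 2 := by nlinarith
  have hBEF : (B : ℝ) * F ≤ B * E * F ^ 2 := by
    calc (B : ℝ) * F ≤ B * (E * F ^ 2) := mul_le_mul_of_nonneg_left hEF (by positivity)
      _ = _ := by ring
  have hlog : 0 ≤ Real.log (8 * E * F ^ 2 * q0) := by
    refine Real.log_nonneg ?_
    have h1 : (1 : ℝ) ≤ E * F ^ 2 := hFr.trans hEF
    have h2 : (1 : ℝ) ≤ E * F ^ 2 * q0 := one_le_mul_of_one_le_of_one_le h1 hqr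
    nlinarith
  obtain ⟨T, hT⟩ : ∃ T : Finset (ℕ × ℕ × ℤ), T = Ico B (2 * B) ×ˢ Ico F (2 * F) ×ˢ fr L :=
    ⟨_, rfl⟩
  have hTc : (T.card : ℝ) ≤ 2 * L * B * F := by
    have h1 := card_fr L hL
    rw [hT, Finset.card_product, Finset.card_product, Nat.card_Ico, Nat.card_Ico,
      show 2 * B - B = B by omega, show 2 * F - F = F by omega]
    push_cast
    calc (B : ℝ) * (F * ((fr L).card : ℝ)) ≤ B * (F * (2 * L)) := by gcongr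
      _ = _ := by ring
  obtain ⟨Z, hZm, hZc⟩ : ∃ Z : Finset ((ℕ × ℕ × ℤ) × (ℕ × ℕ × ℤ)),
      (∀ t, t ∈ Z ↔ t ∈ T ×ˢ T ∧ c0 t.1.1 t.1.2.1 t.1.2.2 t.2.1 t.2.2.1 t.2.2.2 = 0) ∧
      (Z.card : ℝ) ≤ D ^ 2 * (2 * L * B * F) := by
    rw [hT]
    exact ⟨_, fun t => Finset.mem_filter, diag_count B F hB hF L D hL hD1 (fun n hn1 hn2 =>
      hD n hn1 (hn2.trans (by
        have h3 : L * (B * F) ≤ (L + 1) * (B * E * F ^ 2) :=
          mul_le_mul (by linarith) hBEF (by positivity) (by positivity)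
        have h4 : 0 ≤ (L + 1) * (B * E * F ^ 2) := by positivity
        nlinarith)))⟩
  obtain ⟨N, hNm, hNs⟩ : ∃ N : Finset ((ℕ × ℕ × ℤ) × (ℕ × ℕ × ℤ)),
      (∀ t, t ∈ N ↔ t ∈ T ×ˢ T ∧ (c0 t.1.1 t.1.2.1 t.1.2.2 t.2.1 t.2.2.1 t.2.2.2 ≠ 0 ∧
          Squarefree t.1.2.1 ∧ Squarefree t.2.2.1 ∧ Nat.Coprime t.1.1 t.1.2.1 ∧
          Nat.Coprime t.2.1 t.2.2.1)) ∧
      ∑ t ∈ N, √(Int.gcd (c0 t.1.1 t.1.2.1 t.1.2.2 t.2.1 t.2.2.1 t.2.2.2)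
        (Nat.lcm t.1.2.1 t.2.2.1 : ℕ) : ℝ) ≤
      16 * D ^ 5 * B ^ 2 * F ^ 2 * L * (L + √(F : ℝ)) := by
    rw [hT]
    exact ⟨_, fun t => Finset.mem_filter, sum_ff B F hB hF L D hL hD1 (fun n hn1 hn2 =>
      hD n hn1 (hn2.trans (by
        have h3 : (1 : ℝ) * F ≤ ((L + 1) * B) * (E * F ^ 2) :=
          mul_le_mul (by nlinarith) hEF (by positivity) (by positivity)
        have h4 : 0 ≤ ((L + 1) * B) * (E * F ^ 2) := by positivity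
        nlinarith)))⟩
  have hfr : ∀ l ∈ fr L, |(l : ℝ)| ≤ L := by
    intro l hl
    rw [fr, Finset.mem_erase, Finset.mem_Icc] at hl
    rw [abs_le]
    have h1 : ((⌊L⌋ : ℤ) : ℝ) ≤ L := Int.floor_le L
    have h2 : (l : ℝ) ≤ ((⌊L⌋ : ℤ) : ℝ) := by exact_mod_cast hl.2.2
    have h3 : ((-⌊L⌋ : ℤ) : ℝ) ≤ (l : ℝ) := by exact_mod_cast hl.2.1
    push_cast at h3
    constructor <;> linarith
  have hTm : ∀ t ∈ T, t.1 ∈ Ico B (2 * B) ∧ t.2.1 ∈ Ico F (2 * F) ∧ |(t.2.2 : ℝ)| ≤ L := by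
    intro t ht
    rw [hT, Finset.mem_product, Finset.mem_product] at ht
    exact ⟨ht.1, ht.2.1, hfr _ ht.2.2⟩
  have hNτ : ∀ t ∈ N, ((c0 t.1.1 t.1.2.1 t.1.2.2 t.2.1 t.2.2.1 t.2.2.2).natAbs.divisors.card : ℝ)
      ≤ D := by
    rintro ⟨⟨b, f, l⟩, ⟨b', f', l'⟩⟩ ht
    obtain ⟨h1, h2⟩ := (hNm _).1 ht
    rw [Finset.mem_product] at h1
    obtain ⟨h3, h4, h5⟩ := hTm _ h1.1
    obtain ⟨h3', h4', h5'⟩ := hTm _ h1.2
    simp only at h2 h3 h4 h5 h3' h4' h5' ⊢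
    refine hD _ (Nat.one_le_iff_ne_zero.2 (Int.natAbs_ne_zero.2 h2.1)) ?_
    rw [Nat.cast_natAbs, Int.cast_abs]
    have h6 : ((c0 b f l b' f' l' : ℤ) : ℝ) =
        l * b' * ((f' / Nat.gcd f f' : ℕ) : ℝ) - l' * b * ((f / Nat.gcd f f' : ℕ) : ℝ) := by
      simp only [c0, Int.cast_sub, Int.cast_mul, Int.cast_natCast]
    rw [h6]
    have h7 : ((f' / Nat.gcd f f' : ℕ) : ℝ) ≤ 2 * F := by
      have := (Nat.div_le_self f' (Nat.gcd f f')).trans (Finset.mem_Ico.1 h4').2.le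
      exact_mod_cast this
    have h8 : ((f / Nat.gcd f f' : ℕ) : ℝ) ≤ 2 * F := by
      have := (Nat.div_le_self f (Nat.gcd f f')).trans (Finset.mem_Ico.1 h4).2.le
      exact_mod_cast this
    have h9 : (b : ℝ) ≤ 2 * B := by exact_mod_cast (Finset.mem_Ico.1 h3).2.le
    have h10 : (b' : ℝ) ≤ 2 * B := by exact_mod_cast (Finset.mem_Ico.1 h3').2.le
    calc |(l : ℝ) * b' * ((f' / Nat.gcd f f' : ℕ) : ℝ) -
          l' * b * ((f / Nat.gcd f f' : ℕ) : ℝ)|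
        ≤ |(l : ℝ) * b' * ((f' / Nat.gcd f f' : ℕ) : ℝ)| +
          |l' * b * ((f / Nat.gcd f f' : ℕ) : ℝ)| := abs_sub _ _
      _ = |(l : ℝ)| * b' * ((f' / Nat.gcd f f' : ℕ) : ℝ) +
          |(l' : ℝ)| * b * ((f / Nat.gcd f f' : ℕ) : ℝ) := by
          rw [abs_mul, abs_mul, abs_mul, abs_mul, Nat.abs_cast, Nat.abs_cast, Nat.abs_cast,
            Nat.abs_cast]
      _ ≤ L * (2 * B) * (2 * F) + L * (2 * B) * (2 * F) := by gcongr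
      _ = 8 * (L * (B * F)) := by ring
      _ ≤ 16 * (L + 1) * B * E * F ^ 2 := by
        have h11 : L * (B * F) ≤ (L + 1) * (B * E * F ^ 2) :=
          mul_le_mul (by linarith) hBEF (by positivity) (by positivity)
        have h12 : 0 ≤ (L + 1) * (B * E * F ^ 2) := by positivity
        nlinarith
  obtain ⟨R, hR⟩ : ∃ R : ℝ, R = ((X2 : ℝ) - X1) / (q0 * A * B * E * F) := ⟨_, rfl⟩
  obtain ⟨P, hP⟩ : ∃ P : ℝ, P = 3 + 4 * Real.pi * (X2 + j * Y + h) * L / (q0 * A * B * E * F) :=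
    ⟨_, rfl⟩
  obtain ⟨K, hK⟩ : ∃ K : ℝ, K = q0 * D * (3 * √(E : ℝ) * F) *
      (1 + Real.log (8 * E * F ^ 2 * q0)) := ⟨_, rfl⟩
  have hP0 : 0 ≤ P := by rw [hP]; positivity
  have hK0 : 0 ≤ K := by rw [hK]; positivity
  -- the bound for a fixed e
  have hfix : ∀ e ∈ Ico E (2 * E),
      ∑ p ∈ (T.filter (fun t => cI q0 ((h : ℤ) - h').natAbs t.1 e t.2.1)) ×ˢ
          (T.filter (fun t => cI q0 ((h : ℤ) - h').natAbs t.1 e t.2.1)),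
        ‖∑ a ∈ Ico A (2 * A),
          (ei (e * p.1.2.1 * q0) (ci q0 h h' r p.1.1 e p.1.2.1 p.1.2.2) a *
            gg X1 X2 Y j h (q0 * p.1.1 * e * p.1.2.1) p.1.2.2 a) *
          (starRingEnd ℂ) (ei (e * p.2.2.1 * q0) (ci q0 h h' r p.2.1 e p.2.2.1 p.2.2.2) a *
            gg X1 X2 Y j h (q0 * p.2.1 * e * p.2.2.1) p.2.2.2 a)‖ ≤
      ∑ _p ∈ Z, A * R ^ 2 +
        ∑ p ∈ N, R ^ 2 * P *
          (A * ((Int.gcd (c0 p.1.1 p.1.2.1 p.1.2.2 p.2.1 p.2.2.1 p.2.2.2) (e : ℤ) : ℝ) / e) +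
          K * (√(Int.gcd (c0 p.1.1 p.1.2.1 p.1.2.2 p.2.1 p.2.2.1 p.2.2.2) (e : ℤ) : ℝ) *
            √(Int.gcd (c0 p.1.1 p.1.2.1 p.1.2.2 p.2.1 p.2.2.1 p.2.2.2)
              (Nat.lcm p.1.2.1 p.2.2.1 : ℕ) : ℝ))) := by
    intro e he
    rw [← Finset.sum_filter_add_sum_filter_not _
      (fun p => c0 p.1.1 p.1.2.1 p.1.2.2 p.2.1 p.2.2.1 p.2.2.2 = 0)]
    refine add_le_add ?_ ?_
    · refine (Finset.sum_le_sum (g := fun _ => A * R ^ 2) ?_).trans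
        (Finset.sum_le_sum_of_subset_of_nonneg ?_ ?_)
      · rintro ⟨⟨b, f, l⟩, ⟨b', f', l'⟩⟩ hp
        rw [Finset.mem_filter, Finset.mem_product, Finset.mem_filter, Finset.mem_filter] at hp
        obtain ⟨h3, h4, h5⟩ := hTm _ hp.1.1.1
        obtain ⟨h3', h4', h5'⟩ := hTm _ hp.1.2.1
        rw [hR]
        exact pair_triv X1 X2 Y j q0 h h' r A B E F b b' e f f' l l' hX hq hA hB hE hF h3 h3' he
          h4 h4'
      · intro p hp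
        rw [Finset.mem_filter, Finset.mem_product, Finset.mem_filter, Finset.mem_filter] at hp
        exact (hZm p).2 ⟨Finset.mem_product.2 ⟨hp.1.1.1, hp.1.2.1⟩, hp.2⟩
      · intro p _ _
        positivity
    · refine (Finset.sum_le_sum ?_).trans
        (Finset.sum_le_sum_of_subset_of_nonneg ?_ ?_)
      · rintro ⟨⟨b, f, l⟩, ⟨b', f', l'⟩⟩ hp
        rw [Finset.mem_filter, Finset.mem_product, Finset.mem_filter, Finset.mem_filter] at hp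
        obtain ⟨h3, h4, h5⟩ := hTm _ hp.1.1.1
        obtain ⟨h3', h4', h5'⟩ := hTm _ hp.1.2.1
        rw [hR, hP, hK]
        exact off_pair X1 X2 Y j q0 h h' r A B E F b b' e f f' l l' L D hX hY hq hA hB hE hF hL
          hD1 hD h3 h3' he h4 h4' h5 h5' hp.1.1.2 hp.1.2.2 hp.2
      · intro p hp
        rw [Finset.mem_filter, Finset.mem_product, Finset.mem_filter, Finset.mem_filter] at hp
        obtain ⟨⟨⟨hp1, hp2⟩, ⟨hp3, hp4⟩⟩, hp5⟩ := hp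
        refine (hNm p).2 ⟨Finset.mem_product.2 ⟨hp1, hp3⟩, hp5, ?_, ?_, ?_, ?_⟩
        · exact hp2.2.2.2.squarefree_of_dvd (Dvd.intro_left _ rfl)
        · exact hp4.2.2.2.squarefree_of_dvd (Dvd.intro_left _ rfl)
        · exact Nat.Coprime.coprime_dvd_right ⟨e * q0, by ring⟩ hp2.1
        · exact Nat.Coprime.coprime_dvd_right ⟨e * q0, by ring⟩ hp4.1
      · intro p _ _
        positivity
  rw [TT_eq, ← hT]
  refine (cs_aux (Ico A (2 * A)) (Ico E (2 * E))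
    (fun e => T.filter (fun t => cI q0 ((h : ℤ) - h').natAbs t.1 e t.2.1)) α γ
    (fun t => β t.1 * δ t.2.1)
    (fun e t a => ei (e * t.2.1 * q0) (ci q0 h h' r t.1 e t.2.1 t.2.2) a *
            gg X1 X2 Y j h (q0 * t.1 * e * t.2.1) t.2.2 a) hα hγ ?_).trans ?_
  · intro t
    rw [norm_mul]
    exact mul_le_one₀ (hβ _) (norm_nonneg _) (hδ _)
  rw [Nat.card_Ico, Nat.card_Ico, show 2 * A - A = A by omega, show 2 * E - E = E by omega]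
  have hsum1 := Finset.sum_le_sum hfix
  -- sums over N
  have hN1 : ∑ p ∈ N, ∑ e ∈ Ico E (2 * E),
      (Int.gcd (c0 p.1.1 p.1.2.1 p.1.2.2 p.2.1 p.2.2.1 p.2.2.2) (e : ℤ) : ℝ) / e ≤
      12 * D * L ^ 2 * B ^ 2 * F ^ 2 := by
    have h1 : ∀ p ∈ N, ∑ e ∈ Ico E (2 * E),
        (Int.gcd (c0 p.1.1 p.1.2.1 p.1.2.2 p.2.1 p.2.2.1 p.2.2.2) (e : ℤ) : ℝ) / e ≤ 3 * D := by
      intro p hp
      have h2 := sum_e1 E hE _ ((hNm p).1 hp).2.1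
      have h3 := hNτ p hp
      linarith
    have h4 : (N.card : ℝ) ≤ (2 * L * B * F) ^ 2 := by
      have h5 : N.card ≤ (T ×ˢ T).card := Finset.card_le_card fun p hp => ((hNm p).1 hp).1
      rw [Finset.card_product] at h5
      calc (N.card : ℝ) ≤ ((T.card * T.card : ℕ) : ℝ) := by exact_mod_cast h5
        _ = (T.card : ℝ) ^ 2 := by push_cast; ring
        _ ≤ (2 * L * B * F) ^ 2 := pow_le_pow_left₀ (by positivity) hTc 2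
    calc _ ≤ ∑ _p ∈ N, 3 * D := Finset.sum_le_sum h1
      _ = N.card * (3 * D) := by rw [Finset.sum_const, nsmul_eq_mul]
      _ ≤ (2 * L * B * F) ^ 2 * (3 * D) := mul_le_mul_of_nonneg_right h4 (by positivity)
      _ = _ := by ring
  have hN2 : ∑ p ∈ N, (∑ e ∈ Ico E (2 * E),
      √(Int.gcd (c0 p.1.1 p.1.2.1 p.1.2.2 p.2.1 p.2.2.1 p.2.2.2) (e : ℤ) : ℝ)) *
        √(Int.gcd (c0 p.1.1 p.1.2.1 p.1.2.2 p.2.1 p.2.2.1 p.2.2.2)
              (Nat.lcm p.1.2.1 p.2.2.1 : ℕ) : ℝ) ≤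
      3 * D * E * (16 * D ^ 5 * B ^ 2 * F ^ 2 * L * (L + √(F : ℝ))) := by
    have h1 : ∀ p ∈ N, (∑ e ∈ Ico E (2 * E),
      √(Int.gcd (c0 p.1.1 p.1.2.1 p.1.2.2 p.2.1 p.2.2.1 p.2.2.2) (e : ℤ) : ℝ)) *
        √(Int.gcd (c0 p.1.1 p.1.2.1 p.1.2.2 p.2.1 p.2.2.1 p.2.2.2)
              (Nat.lcm p.1.2.1 p.2.2.1 : ℕ) : ℝ) ≤ 3 * D * E *
        √(Int.gcd (c0 p.1.1 p.1.2.1 p.1.2.2 p.2.1 p.2.2.1 p.2.2.2)
              (Nat.lcm p.1.2.1 p.2.2.1 : ℕ) : ℝ) := by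
      intro p hp
      have h2 := sum_e2 E hE _ ((hNm p).1 hp).2.1
      have h3 := hNτ p hp
      refine mul_le_mul_of_nonneg_right (h2.trans ?_) (Real.sqrt_nonneg _)
      gcongr
    calc _ ≤ ∑ p ∈ N, 3 * D * E *
        √(Int.gcd (c0 p.1.1 p.1.2.1 p.1.2.2 p.2.1 p.2.2.1 p.2.2.2)
              (Nat.lcm p.1.2.1 p.2.2.1 : ℕ) : ℝ) := Finset.sum_le_sum h1
      _ = 3 * D * E * ∑ p ∈ N,
        √(Int.gcd (c0 p.1.1 p.1.2.1 p.1.2.2 p.2.1 p.2.2.1 p.2.2.2)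
              (Nat.lcm p.1.2.1 p.2.2.1 : ℕ) : ℝ) := by rw [Finset.mul_sum]
      _ ≤ _ := mul_le_mul_of_nonneg_left hNs (by positivity)
  have hrhs : ∑ e ∈ Ico E (2 * E), (∑ _p ∈ Z, A * R ^ 2 +
        ∑ p ∈ N, R ^ 2 * P *
          (A * ((Int.gcd (c0 p.1.1 p.1.2.1 p.1.2.2 p.2.1 p.2.2.1 p.2.2.2) (e : ℤ) : ℝ) / e) +
          K * (√(Int.gcd (c0 p.1.1 p.1.2.1 p.1.2.2 p.2.1 p.2.2.1 p.2.2.2) (e : ℤ) : ℝ) *
            √(Int.gcd (c0 p.1.1 p.1.2.1 p.1.2.2 p.2.1 p.2.2.1 p.2.2.2)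
              (Nat.lcm p.1.2.1 p.2.2.1 : ℕ) : ℝ)))) =
      E * (Z.card * (A * R ^ 2)) + R ^ 2 * P * (A * (∑ p ∈ N, ∑ e ∈ Ico E (2 * E),
        (Int.gcd (c0 p.1.1 p.1.2.1 p.1.2.2 p.2.1 p.2.2.1 p.2.2.2) (e : ℤ) : ℝ) / e) +
        K * ∑ p ∈ N, (∑ e ∈ Ico E (2 * E),
      √(Int.gcd (c0 p.1.1 p.1.2.1 p.1.2.2 p.2.1 p.2.2.1 p.2.2.2) (e : ℤ) : ℝ)) *
        √(Int.gcd (c0 p.1.1 p.1.2.1 p.1.2.2 p.2.1 p.2.2.1 p.2.2.2)
              (Nat.lcm p.1.2.1 p.2.2.1 : ℕ) : ℝ)) := by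
    rw [Finset.sum_add_distrib, Finset.sum_const, Finset.sum_const, Nat.card_Ico,
      show 2 * E - E = E by omega, nsmul_eq_mul, nsmul_eq_mul, Finset.sum_comm]
    congr 1
    rw [mul_add, Finset.mul_sum, Finset.mul_sum, Finset.mul_sum, Finset.mul_sum,
      ← Finset.sum_add_distrib]
    refine Finset.sum_congr rfl fun p _ => ?_
    rw [Finset.mul_sum, Finset.mul_sum, Finset.sum_mul, Finset.mul_sum, Finset.mul_sum,
      ← Finset.sum_add_distrib]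
    refine Finset.sum_congr rfl fun e _ => ?_
    ring
  rw [hrhs] at hsum1
  rw [← hR, ← hP]
  calc (A : ℝ) * E * _ ≤ A * E * _ := mul_le_mul_of_nonneg_left hsum1 (by positivity)
    _ ≤ A * E * (E * ((D ^ 2 * (2 * L * B * F)) * (A * R ^ 2)) + R ^ 2 * P *
        (A * (12 * D * L ^ 2 * B ^ 2 * F ^ 2) +
          K * (3 * D * E * (16 * D ^ 5 * B ^ 2 * F ^ 2 * L * (L + √(F : ℝ)))))) := by
        gcongr
    _ = _ := by
        rw [hK]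
        ring

end Pool.Agent.H11.PX
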