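import Mathlib

/-!
# Pair correlation of divisor conditions beyond level 1/2 (helper11): definitions
-/

namespace Pool.Agent.H11.PX

open Finset

/-- `e(t) = exp(2 π i t)` -/
noncomputable def e1 (t : ℝ) : ℂ := Complex.exp ((2 * Real.pi * t : ℝ) * Complex.I)

/-- smooth average over an interval -/
noncomputable def sav (X1 X2 Y j : ℕ) (F : ℕ → ℝ) : ℝ :=
  (1 / (Y : ℝ) ^ j) * ∑ y : Fin j → Fin Y, ∑ n ∈ Ioc X1 X2, F (n + ∑ i, ((y i : ℕ)))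

/-- its Fourier transform -/
noncomputable def wh (X1 X2 Y j : ℕ) (θ : ℝ) : ℂ :=
  (∑ n ∈ Ioc X1 X2, e1 (n * θ)) * ((∑ y ∈ range Y, e1 (y * θ)) / (Y : ℂ)) ^ j

/-- the conditions on `a, b, e, f` -/
def cnd (q0 κ a b e f : ℕ) : Prop :=
  Nat.Coprime (a * b) (e * f) ∧ Nat.Coprime (a * b * e * f) q0 ∧ Nat.Coprime (e * f) κ ∧
    Squarefree (e * f)

/-- nonzero frequencies up to `L` -/
noncomputable def fr (L : ℝ) : Finset ℤ := (Icc (-⌊L⌋) ⌊L⌋).erase 0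

/-- `e(c a⁻¹ / q)` if `a` is coprime to `q`, and `0` otherwise -/
noncomputable def ei (q : ℕ) (c : ℤ) (a : ℕ) : ℂ :=
  if Nat.Coprime a q then e1 ((c : ℝ) * ((((a : ZMod q))⁻¹).val : ℝ) / q) else 0

/-- smooth factor -/
noncomputable def gg (X1 X2 Y j h m : ℕ) (l : ℤ) (a : ℕ) : ℂ :=
  (1 / ((m : ℂ) * a)) * wh X1 X2 Y j ((l : ℝ) / (m * a)) * e1 ((l : ℝ) * h / (m * a))

open Classical in
/-- an integer congruent to `h - h'` modulo `m` and to `r + h` modulo `q0` -/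
noncomputable def kp (m q0 h h' r : ℕ) : ℤ :=
  if H : ∃ k : ℤ, (m : ℤ) ∣ k - ((h : ℤ) - h') ∧ (q0 : ℤ) ∣ k - ((r : ℤ) + h) then H.choose else 0

/-- the coefficient of `a⁻¹` -/
noncomputable def ci (q0 h h' r b e f : ℕ) (l : ℤ) : ℤ :=
  -l * kp (e * f) q0 h h' r * ((((b : ZMod (e * f * q0)))⁻¹).val : ℤ)

open Classical in
/-- indicator of the joint condition on `N` -/
noncomputable def jn (q0 h h' r a b e f N : ℕ) : ℝ :=
  if N ≡ r [MOD q0] ∧ a * b ∣ N + h ∧ e * f ∣ N + h' then 1 else 0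

open Classical in
/-- oscillating sum over a box -/
noncomputable def TT (X1 X2 Y j q0 h h' r A B E F : ℕ) (L : ℝ) (α β γ δ : ℕ → ℂ) : ℂ :=
  ∑ a ∈ Ico A (2 * A), ∑ b ∈ Ico B (2 * B), ∑ e ∈ Ico E (2 * E), ∑ f ∈ Ico F (2 * F),
    if cnd q0 ((h : ℤ) - h').natAbs a b e f then
      α a * β b * γ e * δ f * ∑ l ∈ fr L,
        ei (e * f * q0) (ci q0 h h' r b e f l) a * gg X1 X2 Y j h (q0 * b * e * f) l a
    else 0

/-- the off-diagonal integer -/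
def c0 (b f : ℕ) (l : ℤ) (b' f' : ℕ) (l' : ℤ) : ℤ :=
  l * b' * (f' / Nat.gcd f f' : ℕ) - l' * b * (f / Nat.gcd f f' : ℕ)

end Pool.Agent.H11.PX
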