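import Pool.Agent.H11.PX.Exb

/-!
# [H11 PX EDG] From the smooth average to the sharp interval

Proof.  For `F ≥ 0` and a shift `s ≤ j Y`: `|∑_{n ∈ Ioc X1 X2} F n - ∑_{n ∈ Ioc X1 X2} F(n + s)| ≤
∑_{N ∈ Ioc X1 (X1+jY)} F N + ∑_{N ∈ Ioc X2 (X2+jY)} F N`; average over the shifts (`sav` is an average with total
weight `1`, `Y > 0`).  Apply to `F = jn q0 h h' r a b e f`, multiply by the coefficients (norm `≤ 1`), sum over
`a, b, e, f ≥ 1` (drop `cnd`) and interchange: for each `N` (`≥ 1`) the number of `(a,b)` with `a b ∣ N + h` is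
`≤ τ(N+h)^2 ≤ D^2`, and of `(e,f)` with `e f ∣ N + h'` is `≤ D^2`.  Total `≤ 2 j Y D^4`.
-/

namespace Pool.Agent.H11.PX

open Finset

private theorem edg_shift (F : ℕ → ℝ) (X1 X2 s : ℕ) (h : X1 ≤ X2) :
    ∑ n ∈ Ioc X1 X2, F n - ∑ n ∈ Ioc X1 X2, F (n + s) =
      ∑ n ∈ Ioc X1 (X1 + s), F n - ∑ n ∈ Ioc X2 (X2 + s), F n := by
  have h1 : ∑ n ∈ Ioc X1 X2, F (n + s) = ∑ n ∈ Ioc (X1 + s) (X2 + s), F n := by
    rw [← Finset.map_add_right_Ioc, sum_map]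
    rfl
  have h2 : ∑ n ∈ Ioc X1 X2, F n + ∑ n ∈ Ioc X2 (X2 + s), F n = ∑ n ∈ Ioc X1 (X2 + s), F n :=
    sum_Ioc_consecutive F h (Nat.le_add_right _ _)
  have h3 : ∑ n ∈ Ioc X1 (X1 + s), F n + ∑ n ∈ Ioc (X1 + s) (X2 + s), F n =
      ∑ n ∈ Ioc X1 (X2 + s), F n :=
    sum_Ioc_consecutive F (Nat.le_add_right _ _) (Nat.add_le_add_right h s)
  rw [h1]
  linarith

private theorem edg_sav (F : ℕ → ℝ) (hF : ∀ n, 0 ≤ F n) (X1 X2 Y j : ℕ) (hX : X1 ≤ X2)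
    (hY : 0 < Y) :
    |∑ n ∈ Ioc X1 X2, F n - sav X1 X2 Y j F| ≤
      ∑ n ∈ Ioc X1 (X1 + j * Y), F n + ∑ n ∈ Ioc X2 (X2 + j * Y), F n := by
  have hYj : (0 : ℝ) < (Y : ℝ) ^ j := by
    have : (0 : ℝ) < Y := by exact_mod_cast hY
    positivity
  have hcard : (Fintype.card (Fin j → Fin Y) : ℝ) = (Y : ℝ) ^ j := by
    rw [Fintype.card_fun, Fintype.card_fin, Fintype.card_fin]
    push_cast
    rfl
  have e1 : ∑ n ∈ Ioc X1 X2, F n - sav X1 X2 Y j F =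
      (1 / (Y : ℝ) ^ j) * ∑ y : Fin j → Fin Y,
        (∑ n ∈ Ioc X1 X2, F n - ∑ n ∈ Ioc X1 X2, F (n + ∑ i, ((y i : ℕ)))) := by
    rw [sum_sub_distrib, mul_sub, sum_const, card_univ, nsmul_eq_mul, hcard, sav]
    congr 1
    field_simp
  have hs : ∀ y : Fin j → Fin Y, ∑ i, ((y i : ℕ)) ≤ j * Y := by
    intro y
    calc ∑ i, ((y i : ℕ)) ≤ ∑ _i : Fin j, Y := sum_le_sum fun i _ => (y i).2.le
      _ = j * Y := by simp
  have hmono : ∀ (X s t : ℕ), s ≤ t → ∑ n ∈ Ioc X (X + s), F n ≤ ∑ n ∈ Ioc X (X + t), F n := by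
    intro X s t hst
    refine sum_le_sum_of_subset_of_nonneg ?_ (fun n _ _ => hF n)
    exact Ioc_subset_Ioc_right (Nat.add_le_add_left hst X)
  have hnn : ∀ (X s : ℕ), 0 ≤ ∑ n ∈ Ioc X (X + s), F n := fun X s => sum_nonneg fun n _ => hF n
  rw [e1, abs_mul, abs_of_pos (by positivity)]
  have h2 : |∑ y : Fin j → Fin Y,
        (∑ n ∈ Ioc X1 X2, F n - ∑ n ∈ Ioc X1 X2, F (n + ∑ i, ((y i : ℕ))))| ≤
      ∑ _y : Fin j → Fin Y,
        (∑ n ∈ Ioc X1 (X1 + j * Y), F n + ∑ n ∈ Ioc X2 (X2 + j * Y), F n) := by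
    refine (abs_sum_le_sum_abs _ _).trans (sum_le_sum fun y _ => ?_)
    rw [edg_shift F X1 X2 _ hX]
    have a1 := hmono X1 _ _ (hs y)
    have a2 := hmono X2 _ _ (hs y)
    have a3 := hnn X1 (∑ i, ((y i : ℕ)))
    have a4 := hnn X2 (∑ i, ((y i : ℕ)))
    rw [abs_le]
    constructor <;> linarith
  rw [sum_const, card_univ, nsmul_eq_mul, hcard] at h2
  calc _ ≤ (1 / (Y : ℝ) ^ j) * ((Y : ℝ) ^ j *
        (∑ n ∈ Ioc X1 (X1 + j * Y), F n + ∑ n ∈ Ioc X2 (X2 + j * Y), F n)) :=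
        mul_le_mul_of_nonneg_left h2 (by positivity)
    _ = _ := by field_simp

open Classical in
private theorem edg_count (NA NB M : ℕ) (hM : 1 ≤ M) (D : ℝ) (hD : (M.divisors.card : ℝ) ≤ D) :
    ∑ a ∈ Icc 1 NA, ∑ b ∈ Icc 1 NB, (if a * b ∣ M then (1 : ℝ) else 0) ≤ D ^ 2 := by
  have h1 : ∑ a ∈ Icc 1 NA, ∑ b ∈ Icc 1 NB, (if a * b ∣ M then (1 : ℝ) else 0) ≤
      ∑ a ∈ M.divisors, ∑ b ∈ M.divisors, (1 : ℝ) := by
    have h2 : ∑ a ∈ Icc 1 NA, ∑ b ∈ Icc 1 NB, (if a * b ∣ M then (1 : ℝ) else 0) ≤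
        ∑ a ∈ Icc 1 NA, (if a ∣ M then (M.divisors.card : ℝ) else 0) := by
      refine sum_le_sum fun a _ => ?_
      split_ifs with ha
      · rw [← sum_filter, sum_const, nsmul_eq_mul, mul_one]
        have : ((Icc 1 NB).filter (fun b => a * b ∣ M)).card ≤ M.divisors.card := by
          refine card_le_card fun b hb => ?_
          rw [mem_filter] at hb
          rw [Nat.mem_divisors]
          exact ⟨(Dvd.intro_left a rfl).trans hb.2, by omega⟩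
        exact_mod_cast this
      · refine le_of_eq (sum_eq_zero fun b _ => ?_)
        rw [if_neg]
        exact fun hab => ha ((Dvd.intro b rfl).trans hab)
    refine h2.trans ?_
    rw [← sum_filter]
    simp only [sum_const, nsmul_eq_mul, mul_one]
    have h3 : ((Icc 1 NA).filter (fun a => a ∣ M)).card ≤ M.divisors.card := by
      refine card_le_card fun b hb => ?_
      rw [mem_filter] at hb
      rw [Nat.mem_divisors]
      exact ⟨hb.2, by omega⟩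
    have h4 : (((Icc 1 NA).filter (fun a => a ∣ M)).card : ℝ) ≤ M.divisors.card := by
      exact_mod_cast h3
    exact mul_le_mul_of_nonneg_right h4 (by positivity)
  refine h1.trans ?_
  simp only [sum_const, nsmul_eq_mul, mul_one]
  have h5 : (0 : ℝ) ≤ M.divisors.card := by positivity
  nlinarith

private theorem edg_comm (A B E F I : Finset ℕ) (G : ℕ → ℕ → ℕ → ℕ → ℕ → ℝ) :
    ∑ a ∈ A, ∑ b ∈ B, ∑ e ∈ E, ∑ f ∈ F, ∑ n ∈ I, G a b e f n =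
      ∑ n ∈ I, ∑ a ∈ A, ∑ b ∈ B, ∑ e ∈ E, ∑ f ∈ F, G a b e f n := by
  have h1 : ∀ a b e, ∑ f ∈ F, ∑ n ∈ I, G a b e f n = ∑ n ∈ I, ∑ f ∈ F, G a b e f n :=
    fun a b e => sum_comm
  have h2 : ∀ a b, ∑ e ∈ E, ∑ f ∈ F, ∑ n ∈ I, G a b e f n =
      ∑ n ∈ I, ∑ e ∈ E, ∑ f ∈ F, G a b e f n := fun a b =>
    (sum_congr rfl fun e _ => h1 a b e).trans sum_comm
  have h3 : ∀ a, ∑ b ∈ B, ∑ e ∈ E, ∑ f ∈ F, ∑ n ∈ I, G a b e f n =
      ∑ n ∈ I, ∑ b ∈ B, ∑ e ∈ E, ∑ f ∈ F, G a b e f n := fun a =>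
    (sum_congr rfl fun b _ => h2 a b).trans sum_comm
  exact (sum_congr rfl fun a _ => h3 a).trans sum_comm

open Classical in
private theorem edg_int (q0 h h' r NA NB X s : ℕ) (D : ℝ) (hD1 : 1 ≤ D)
    (hD : ∀ n : ℕ, 1 ≤ n → n ≤ X + s + h + h' → (n.divisors.card : ℝ) ≤ D) :
    ∑ a ∈ Icc 1 NA, ∑ b ∈ Icc 1 NB, ∑ e ∈ Icc 1 NA, ∑ f ∈ Icc 1 NB,
      ∑ N ∈ Ioc X (X + s), jn q0 h h' r a b e f N ≤ s * D ^ 4 := by
  rw [edg_comm]
  have h1 : ∀ N ∈ Ioc X (X + s), ∑ a ∈ Icc 1 NA, ∑ b ∈ Icc 1 NB, ∑ e ∈ Icc 1 NA,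
      ∑ f ∈ Icc 1 NB, jn q0 h h' r a b e f N ≤ D ^ 4 := by
    intro N hN
    rw [mem_Ioc] at hN
    have c1 := edg_count NA NB (N + h) (by omega) D (hD _ (by omega) (by omega))
    have c2 := edg_count NA NB (N + h') (by omega) D (hD _ (by omega) (by omega))
    obtain ⟨T, hT⟩ : ∃ T, T = ∑ e ∈ Icc 1 NA, ∑ f ∈ Icc 1 NB,
      (if e * f ∣ N + h' then (1 : ℝ) else 0) := ⟨_, rfl⟩
    have hT0 : 0 ≤ T := by
      rw [hT]
      refine sum_nonneg fun e _ => sum_nonneg fun f _ => ?_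
      split_ifs
      · exact zero_le_one
      · exact le_rfl
    rw [← hT] at c2
    have h2 : ∑ a ∈ Icc 1 NA, ∑ b ∈ Icc 1 NB, ∑ e ∈ Icc 1 NA,
        ∑ f ∈ Icc 1 NB, jn q0 h h' r a b e f N ≤
        (∑ a ∈ Icc 1 NA, ∑ b ∈ Icc 1 NB, (if a * b ∣ N + h then (1 : ℝ) else 0)) * T := by
      rw [sum_mul]
      refine sum_le_sum fun a _ => ?_
      rw [sum_mul]
      refine sum_le_sum fun b _ => ?_
      rw [hT, mul_sum]
      refine sum_le_sum fun e _ => ?_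
      rw [mul_sum]
      refine sum_le_sum fun f _ => ?_
      unfold jn
      by_cases g1 : N ≡ r [MOD q0] ∧ a * b ∣ N + h ∧ e * f ∣ N + h'
      · rw [if_pos g1, if_pos g1.2.1, if_pos g1.2.2]
        norm_num
      · rw [if_neg g1]
        refine mul_nonneg ?_ ?_
        · split_ifs <;> norm_num
        · split_ifs <;> norm_num
    calc _ ≤ _ := h2
      _ ≤ D ^ 2 * D ^ 2 := mul_le_mul c1 c2 hT0 (by positivity)
      _ = D ^ 4 := by ring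
  calc _ ≤ ∑ N ∈ Ioc X (X + s), D ^ 4 := sum_le_sum h1
    _ = s * D ^ 4 := by
      rw [sum_const, Nat.card_Ioc, nsmul_eq_mul]
      have : X + s - X = s := by omega
      rw [this]

open Classical in
theorem edge_bound (X1 X2 Y j q0 h h' r NA NB : ℕ) (hX : X1 ≤ X2) (hY : 0 < Y) (D : ℝ)
    (hD1 : 1 ≤ D)
    (hD : ∀ n : ℕ, 1 ≤ n → n ≤ X2 + j * Y + h + h' → (n.divisors.card : ℝ) ≤ D)
    (α β γ δ : ℕ → ℂ) (hα : ∀ n, ‖α n‖ ≤ 1) (hβ : ∀ n, ‖β n‖ ≤ 1) (hγ : ∀ n, ‖γ n‖ ≤ 1)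
    (hδ : ∀ n, ‖δ n‖ ≤ 1) :
    ‖∑ a ∈ Icc 1 NA, ∑ b ∈ Icc 1 NB, ∑ e ∈ Icc 1 NA, ∑ f ∈ Icc 1 NB,
      if cnd q0 ((h : ℤ) - h').natAbs a b e f then
        α a * β b * γ e * δ f *
          (((∑ N ∈ Ioc X1 X2, jn q0 h h' r a b e f N : ℝ) : ℂ) -
            ((sav X1 X2 Y j (jn q0 h h' r a b e f) : ℝ) : ℂ))
      else 0‖ ≤ 2 * (j * Y) * D ^ 4 := by
  have hjn : ∀ a b e f N, 0 ≤ jn q0 h h' r a b e f N := by
    intro a b e f N
    unfold jn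
    split_ifs
    · exact zero_le_one
    · exact le_rfl
  have hterm : ∀ a b e f : ℕ, ‖if cnd q0 ((h : ℤ) - h').natAbs a b e f then
        α a * β b * γ e * δ f *
          (((∑ N ∈ Ioc X1 X2, jn q0 h h' r a b e f N : ℝ) : ℂ) -
            ((sav X1 X2 Y j (jn q0 h h' r a b e f) : ℝ) : ℂ))
      else 0‖ ≤ ∑ N ∈ Ioc X1 (X1 + j * Y), jn q0 h h' r a b e f N +
        ∑ N ∈ Ioc X2 (X2 + j * Y), jn q0 h h' r a b e f N := by
    intro a b e f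
    have hnn : 0 ≤ ∑ N ∈ Ioc X1 (X1 + j * Y), jn q0 h h' r a b e f N +
        ∑ N ∈ Ioc X2 (X2 + j * Y), jn q0 h h' r a b e f N :=
      add_nonneg (sum_nonneg fun N _ => hjn _ _ _ _ N) (sum_nonneg fun N _ => hjn _ _ _ _ N)
    split_ifs
    · have h1 := edg_sav (jn q0 h h' r a b e f) (hjn a b e f) X1 X2 Y j hX hY
      rw [norm_mul, ← Complex.ofReal_sub, Complex.norm_real, Real.norm_eq_abs]
      have h2 : ‖α a * β b * γ e * δ f‖ ≤ 1 := by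
        rw [norm_mul, norm_mul, norm_mul]
        have a1 := hα a
        have a2 := hβ b
        have a3 := hγ e
        have a4 := hδ f
        have b1 := norm_nonneg (α a)
        have b2 := norm_nonneg (β b)
        have b3 := norm_nonneg (γ e)
        have b4 := norm_nonneg (δ f)
        exact mul_le_one₀ (mul_le_one₀ (mul_le_one₀ a1 b2 a2) b3 a3) b4 a4
      calc _ ≤ 1 * (∑ N ∈ Ioc X1 (X1 + j * Y), jn q0 h h' r a b e f N +
          ∑ N ∈ Ioc X2 (X2 + j * Y), jn q0 h h' r a b e f N) :=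
            mul_le_mul h2 h1 (abs_nonneg _) zero_le_one
        _ = _ := one_mul _
    · rw [norm_zero]; exact hnn
  have hb1 := edg_int q0 h h' r NA NB X1 (j * Y) D hD1
    (fun n h1 h2 => hD n h1 (by omega))
  have hb2 := edg_int q0 h h' r NA NB X2 (j * Y) D hD1 (fun n h1 h2 => hD n h1 (by omega))
  calc _ ≤ ∑ a ∈ Icc 1 NA, ∑ b ∈ Icc 1 NB, ∑ e ∈ Icc 1 NA, ∑ f ∈ Icc 1 NB,
        (∑ N ∈ Ioc X1 (X1 + j * Y), jn q0 h h' r a b e f N +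
          ∑ N ∈ Ioc X2 (X2 + j * Y), jn q0 h h' r a b e f N) := by
        refine (norm_sum_le _ _).trans (sum_le_sum fun a _ => ?_)
        refine (norm_sum_le _ _).trans (sum_le_sum fun b _ => ?_)
        refine (norm_sum_le _ _).trans (sum_le_sum fun e _ => ?_)
        refine (norm_sum_le _ _).trans (sum_le_sum fun f _ => ?_)
        exact hterm a b e f
    _ = (∑ a ∈ Icc 1 NA, ∑ b ∈ Icc 1 NB, ∑ e ∈ Icc 1 NA, ∑ f ∈ Icc 1 NB,
          ∑ N ∈ Ioc X1 (X1 + j * Y), jn q0 h h' r a b e f N) +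
        ∑ a ∈ Icc 1 NA, ∑ b ∈ Icc 1 NB, ∑ e ∈ Icc 1 NA, ∑ f ∈ Icc 1 NB,
          ∑ N ∈ Ioc X2 (X2 + j * Y), jn q0 h h' r a b e f N := by
        simp only [sum_add_distrib]
    _ ≤ ((j * Y : ℕ) : ℝ) * D ^ 4 + ((j * Y : ℕ) : ℝ) * D ^ 4 := add_le_add hb1 hb2
    _ = 2 * (j * Y) * D ^ 4 := by push_cast; ring

end Pool.Agent.H11.PX
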