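import Pool.Agent.H11.PX.Defs

/-!
# [H11 PX EXB] Basic facts on e(t), geometric sums, the transform `wh`

Proof.  `‖e1 t‖ = 1` (`Complex.norm_exp_ofReal_mul_I`).  `e1 (s+t) = e1 s * e1 t`, `e1 (integer) = 1`
(`Complex.exp_int_mul_two_pi_mul_I`).  `geo_bound`: `(e1 θ - 1) ∑_{y<Y} e1(yθ) = e1(Yθ) - 1`, and
`|e1 θ - 1| = 2 |sin(π θ)| ≥ 4 |θ|` for `|θ| ≤ 1/2` (Jordan `Real.mul_le_sin`).  `wh_norm`: triangle
inequality (`X2 - X1` terms, the mean value of `Y` unimodular numbers is `≤ 1`).  `wh_small`: first factor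
`≤ X2 - X1`, second by `geo_bound`.  `wh_eq`: `wh = (1/Y^j) ∑_y ∑_n e1((n + ∑ y_i) θ)` (expand the power:
`Finset.prod_univ_sum` / `Finset.sum_pow'`, `Fin j → Fin Y`).
-/

namespace Pool.Agent.H11.PX

open Finset

theorem norm_e1 (t : ℝ) : ‖e1 t‖ = 1 := by
  unfold e1
  exact Complex.norm_exp_ofReal_mul_I _

theorem e1_add (s t : ℝ) : e1 (s + t) = e1 s * e1 t := by
  unfold e1
  rw [← Complex.exp_add]
  congr 1
  push_cast
  ring

theorem e1_int (n : ℤ) : e1 (n : ℝ) = 1 := by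
  unfold e1
  have h := Complex.exp_int_mul_two_pi_mul_I n
  rw [← h]
  congr 1
  push_cast
  ring

theorem e1_neg (t : ℝ) : e1 (-t) = (starRingEnd ℂ) (e1 t) := by
  unfold e1
  rw [← Complex.exp_conj]
  congr 1
  rw [map_mul, Complex.conj_ofReal, Complex.conj_I]
  push_cast
  ring

private theorem e1_zero : e1 0 = 1 := by
  have h := e1_int 0
  simpa using h

private theorem e1_sub_one (t : ℝ) : ‖e1 t - 1‖ = 2 * |Real.sin (Real.pi * t)| := by
  unfold e1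
  rw [mul_comm, Complex.norm_exp_I_mul_ofReal_sub_one, Real.norm_eq_abs, abs_mul, abs_two]
  congr 3
  ring

theorem e1_lip (s t : ℝ) : ‖e1 s - e1 t‖ ≤ 2 * Real.pi * |s - t| := by
  have h : e1 s - e1 t = e1 t * (e1 (s - t) - 1) := by
    rw [mul_sub, ← e1_add, mul_one]
    congr 2
    ring
  rw [h, norm_mul, norm_e1, one_mul]
  unfold e1
  rw [mul_comm _ Complex.I]
  refine Real.norm_exp_I_mul_ofReal_sub_one_le.trans ?_
  rw [Real.norm_eq_abs, abs_mul, abs_of_pos Real.two_pi_pos]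

theorem geo_bound (Y : ℕ) (θ : ℝ) (h0 : θ ≠ 0) (h1 : |θ| ≤ 1 / 2) :
    ‖∑ y ∈ range Y, e1 (y * θ)‖ ≤ 1 / (2 * |θ|) := by
  have hpos : 0 < |θ| := abs_pos.2 h0
  have hsin : 2 * |θ| ≤ |Real.sin (Real.pi * θ)| := by
    have h2 : Real.sin (Real.pi * |θ|) = |Real.sin (Real.pi * θ)| := by
      rcases abs_cases θ with ⟨h, h'⟩ | ⟨h, h'⟩
      · rw [h, abs_of_nonneg]
        exact Real.sin_nonneg_of_nonneg_of_le_pi (by positivity)
          (by rw [← h]; nlinarith [Real.pi_pos])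
      · rw [h, show Real.pi * -θ = -(Real.pi * θ) by ring, Real.sin_neg]
        rw [abs_of_nonpos]
        have : 0 ≤ Real.sin (-(Real.pi * θ)) := by
          rw [show -(Real.pi * θ) = Real.pi * -θ by ring, ← h]
          exact Real.sin_nonneg_of_nonneg_of_le_pi (by positivity) (by nlinarith [Real.pi_pos])
        rw [Real.sin_neg] at this
        linarith
    rw [← h2]
    have h3 := Real.mul_le_sin (x := Real.pi * |θ|) (by positivity) (by nlinarith [Real.pi_pos])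
    calc 2 * |θ| = 2 / Real.pi * (Real.pi * |θ|) := by field_simp
      _ ≤ _ := h3
  have hne : 4 * |θ| ≤ ‖e1 θ - 1‖ := by
    rw [e1_sub_one]
    linarith
  have hpow : ∀ y : ℕ, e1 (y * θ) = e1 θ ^ y := by
    intro y
    induction y with
    | zero => simp [e1_zero]
    | succ n ih =>
      rw [pow_succ, ← ih, ← e1_add]
      congr 1
      push_cast
      ring
  have hg : (e1 θ - 1) * ∑ y ∈ range Y, e1 (y * θ) = e1 (Y * θ) - 1 := by
    rw [sum_congr rfl fun y _ => hpow y, mul_geom_sum, hpow]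
  have h4 : ‖e1 θ - 1‖ * ‖∑ y ∈ range Y, e1 (y * θ)‖ ≤ 2 := by
    rw [← norm_mul, hg]
    refine (norm_sub_le _ _).trans ?_
    rw [norm_e1, norm_one]
    norm_num
  rw [le_div_iff₀ (by positivity)]
  nlinarith [norm_nonneg (∑ y ∈ range Y, e1 (y * θ))]

private theorem mean_norm (Y : ℕ) (θ : ℝ) :
    ‖(∑ y ∈ range Y, e1 (y * θ)) / (Y : ℂ)‖ ≤ 1 := by
  rw [norm_div, Complex.norm_natCast]
  refine div_le_one_of_le₀ ?_ (Nat.cast_nonneg Y)
  refine (norm_sum_le _ _).trans ?_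
  rw [sum_congr rfl fun y _ => norm_e1 _]
  simp

private theorem first_norm (X1 X2 : ℕ) (hX : X1 ≤ X2) (θ : ℝ) :
    ‖∑ n ∈ Ioc X1 X2, e1 (n * θ)‖ ≤ (X2 : ℝ) - X1 := by
  refine (norm_sum_le _ _).trans ?_
  rw [sum_congr rfl fun y _ => norm_e1 _]
  simp [Nat.cast_sub hX]

theorem wh_norm (X1 X2 Y j : ℕ) (hX : X1 ≤ X2) (θ : ℝ) :
    ‖wh X1 X2 Y j θ‖ ≤ (X2 : ℝ) - X1 := by
  unfold wh
  rw [norm_mul, norm_pow]
  have h1 := first_norm X1 X2 hX θ
  have h2 : ‖(∑ y ∈ range Y, e1 (y * θ)) / (Y : ℂ)‖ ^ j ≤ 1 :=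
    pow_le_one₀ (norm_nonneg _) (mean_norm Y θ)
  calc _ ≤ ((X2 : ℝ) - X1) * 1 := mul_le_mul h1 h2 (by positivity) ((norm_nonneg _).trans h1)
    _ = _ := mul_one _

theorem wh_small (X1 X2 Y j : ℕ) (hX : X1 ≤ X2) (hY : 0 < Y) (θ : ℝ) (h0 : θ ≠ 0)
    (h1 : |θ| ≤ 1 / 2) : ‖wh X1 X2 Y j θ‖ ≤ ((X2 : ℝ) - X1) * (1 / (2 * Y * |θ|)) ^ j := by
  unfold wh
  rw [norm_mul, norm_pow]
  have h2 := first_norm X1 X2 hX θ
  have hY' : (0 : ℝ) < Y := by exact_mod_cast hY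
  have hpos : 0 < |θ| := abs_pos.2 h0
  have h3 : ‖(∑ y ∈ range Y, e1 (y * θ)) / (Y : ℂ)‖ ≤ 1 / (2 * Y * |θ|) := by
    rw [norm_div, Complex.norm_natCast, div_le_iff₀ hY']
    refine (geo_bound Y θ h0 h1).trans (le_of_eq ?_)
    field_simp
  exact mul_le_mul h2 (pow_le_pow_left₀ (norm_nonneg _) h3 j) (by positivity)
    ((norm_nonneg _).trans h2)

theorem wh_eq (X1 X2 Y j : ℕ) (θ : ℝ) :
    wh X1 X2 Y j θ = (1 / (Y : ℂ) ^ j) * ∑ y : Fin j → Fin Y, ∑ n ∈ Ioc X1 X2,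
      e1 (((n + ∑ i, ((y i : ℕ)) : ℕ) : ℝ) * θ) := by
  unfold wh
  have h1 : (∑ y ∈ range Y, e1 (y * θ)) ^ j =
      ∑ y : Fin j → Fin Y, ∏ i, e1 (((y i : ℕ) : ℝ) * θ) := by
    rw [← Fin.sum_univ_eq_sum_range (fun y => e1 ((y : ℝ) * θ)) Y]
    rw [← Fin.prod_const, Finset.prod_univ_sum]
    simp
  have h2 : ∀ y : Fin j → Fin Y, ∏ i, e1 (((y i : ℕ) : ℝ) * θ) =
      e1 (((∑ i, ((y i : ℕ)) : ℕ) : ℝ) * θ) := by
    intro y
    have : ∀ s : Finset (Fin j), ∏ i ∈ s, e1 (((y i : ℕ) : ℝ) * θ) =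
        e1 (((∑ i ∈ s, ((y i : ℕ)) : ℕ) : ℝ) * θ) := by
      intro s
      classical
      induction s using Finset.induction_on with
      | empty => simp [e1_zero]
      | insert a s ha ih =>
        rw [prod_insert ha, sum_insert ha, ih, ← e1_add]
        congr 1
        push_cast
        ring
    exact this univ
  rw [div_pow, h1, sum_congr rfl fun y _ => h2 y, mul_div_assoc', mul_sum, sum_div, mul_sum]
  refine sum_congr rfl fun y _ => ?_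
  rw [sum_mul, sum_div, mul_sum]
  refine sum_congr rfl fun n _ => ?_
  rw [← e1_add]
  rw [show ((n : ℝ) * θ + ((∑ i, ((y i : ℕ)) : ℕ) : ℝ) * θ) =
    (((n + ∑ i, ((y i : ℕ)) : ℕ) : ℝ) * θ) by push_cast; ring]
  ring

end Pool.Agent.H11.PX
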