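import Pool.Agent.H11.KW.ZF
import Pool.Agent.H11.PX.Exb

/-!
# [H11 PX EIB] Incomplete Kloosterman sums in the notation `ei`

Proof.  `ei q c a = ek q (c : ZMod q) a` for `q > 0` (`ZMod.stdAddChar_coe`: `stdAddChar (k : ZMod q) =
exp(2 π i k/q)`; `(c : ZMod q) * (a : ZMod q)⁻¹` is the class of the integer `c * ((a : ZMod q)⁻¹).val`).
`Int.gcd c q1 = Nat.gcd ((c : ZMod (q1 q0)).val) q1` since `val` differs from `c` by a multiple of `q1`.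
Apply `ek_bound`.
-/

namespace Pool.Agent.H11.PX

open Finset

private lemma ei_eq_ek (q : ℕ) [NeZero q] (c : ℤ) (a : ℕ) :
    ei q c a = Pool.Agent.H11.KW.ek q (c : ZMod q) a := by
  unfold ei Pool.Agent.H11.KW.ek
  split_ifs with h
  · have h1 : (c : ZMod q) * ((a : ZMod q))⁻¹ =
        ((c * ((((a : ZMod q))⁻¹).val : ℤ) : ℤ) : ZMod q) := by
      push_cast
      rw [ZMod.natCast_val, ZMod.cast_id', id]
    rw [h1, ZMod.stdAddChar_coe, e1]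
    congr 1
    push_cast
    ring
  · rfl

private lemma gcd_val (q1 q0 : ℕ) [NeZero (q1 * q0)] (c : ℤ) :
    Nat.gcd ((c : ZMod (q1 * q0)).val) q1 = Int.gcd c q1 := by
  have h1 : (((c : ZMod (q1 * q0)).val : ℕ) : ℤ) = c % ((q1 * q0 : ℕ) : ℤ) := ZMod.val_intCast c
  have h2 : Nat.gcd ((c : ZMod (q1 * q0)).val) q1 =
      Int.gcd (((c : ZMod (q1 * q0)).val : ℕ) : ℤ) q1 := by
    rw [Int.gcd_natCast_natCast]
  rw [h2, h1, Int.emod_def]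
  have h3 : c - ((q1 * q0 : ℕ) : ℤ) * (c / ((q1 * q0 : ℕ) : ℤ)) =
      c + (q1 : ℤ) * (-(q0 : ℤ) * (c / ((q1 * q0 : ℕ) : ℤ))) := by
    push_cast
    ring
  rw [h3, Int.gcd_add_mul_left_left]

theorem ei_bound (q1 q0 : ℕ) (h1 : 0 < q1) (h0 : 0 < q0) (hq : Squarefree q1)
    (hc : Nat.Coprime q1 q0) (c : ℤ) (M N : ℕ) :
    ‖∑ a ∈ Ioc M (M + N), ei (q1 * q0) c a‖ ≤
      N * (Int.gcd c q1 : ℝ) / q1 +
        q0 * q1.divisors.card * √(q1 : ℝ) * √(Int.gcd c q1 : ℝ) *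
          (1 + Real.log ((q1 * q0 : ℕ) : ℝ)) := by
  have : NeZero q1 := ⟨h1.ne'⟩
  have : NeZero q0 := ⟨h0.ne'⟩
  have : NeZero (q1 * q0) := ⟨(Nat.mul_pos h1 h0).ne'⟩
  have h := Pool.Agent.H11.KW.ek_bound q1 q0 hq hc (c : ZMod (q1 * q0)) M N
  rw [gcd_val q1 q0 c] at h
  have he : ∀ a, ei (q1 * q0) c a = Pool.Agent.H11.KW.ek (q1 * q0) (c : ZMod (q1 * q0)) a :=
    fun a => ei_eq_ek (q1 * q0) c a
  simp only [he]
  exact h

end Pool.Agent.H11.PX
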