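import Pool.Agent.H11.PX.Sum
import Pool.Agent.H11.PX.Edg

/-!
# [H11 PX FIN] Pair correlation of divisor conditions with total level x^(1.1)

Proof.  Sum of `smooth_pc` and `edge_bound` (`Y = ⌊x^(1-η/8)⌋`, `j = ⌈16/η⌉`, `D = x^(η/64)` for `x` large by
`H92.DivBound` with exponent `η/200`: `X2 + j Y + h + h' ≤ 5 x`), `2 j Y D^4 ≤ x^(1-η/32)`, so the sum is
`≤ x^(1-η/8) + x^(1-η/32)... ≤ x^(1-η/64)`.  Real coefficients are cast to `ℂ`, the norm of a real number is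
its absolute value; `∑_{N ∈ Ioc X1 X2} jn = card of the filter`.
-/

namespace Pool.Agent.H11.PX

open Finset

open Filter in
private theorem fin_ev (c K : ℝ) (hc : 0 < c) : ∀ᶠ x : ℝ in atTop, K ≤ x ^ c :=
  (tendsto_rpow_atTop hc).eventually_ge_atTop K

open Classical in
private theorem fin_jn (q0 h h' r a b e f X1 X2 : ℕ) :
    ∑ N ∈ Ioc X1 X2, jn q0 h h' r a b e f N =
      (((Ioc X1 X2).filter (fun N => N ≡ r [MOD q0] ∧ a * b ∣ N + h ∧ e * f ∣ N + h')).card : ℝ) := by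
  rw [card_filter]
  push_cast
  refine sum_congr rfl fun N _ => ?_
  unfold jn
  by_cases g : N ≡ r [MOD q0] ∧ a * b ∣ N + h ∧ e * f ∣ N + h'
  · rw [if_pos g]
  · rw [if_neg g]

open Classical in
theorem pair_corr (η : ℝ) (hη : 0 < η) (hη1 : η ≤ 1 / 100) : ∃ x0 : ℝ, ∀ x ≥ x0,
    ∀ (X1 X2 q0 h h' r : ℕ), X1 ≤ X2 → (X2 : ℝ) ≤ 3 * x → 0 < q0 →
      (q0 : ℝ) ≤ x ^ (η / 64) → (h : ℝ) ≤ x ^ (η / 64) → (h' : ℝ) ≤ x ^ (η / 64) →
      ∀ (α β γ δ : ℕ → ℝ), (∀ n, |α n| ≤ 1) → (∀ n, |β n| ≤ 1) → (∀ n, |γ n| ≤ 1) →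
        (∀ n, |δ n| ≤ 1) →
        |∑ a ∈ Icc 1 ⌊x ^ (1 / 2 - η)⌋₊, ∑ b ∈ Icc 1 ⌊x ^ (1 / 20 - η)⌋₊,
          ∑ e ∈ Icc 1 ⌊x ^ (1 / 2 - η)⌋₊, ∑ f ∈ Icc 1 ⌊x ^ (1 / 20 - η)⌋₊,
            if cnd q0 ((h : ℤ) - h').natAbs a b e f then
              α a * β b * γ e * δ f *
                ((((Ioc X1 X2).filter (fun N => N ≡ r [MOD q0] ∧ a * b ∣ N + h ∧
                    e * f ∣ N + h')).card : ℝ) -
                  ((X2 : ℝ) - X1) / ((q0 : ℝ) * a * b * e * f))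
            else 0| ≤ x ^ (1 - η / 64) := by
  obtain ⟨x1, hx1⟩ := smooth_pc η hη hη1
  obtain ⟨C, hC, hdiv⟩ := Pool.Agent.H5.W.divisor_bound (η / 200) (by positivity)
  obtain ⟨j, hj⟩ : ∃ j : ℕ, j = ⌈16 / η⌉₊ := ⟨_, rfl⟩
  have ev1 := fin_ev (7 * η / 64) 2 (by positivity)
  have ev2 := fin_ev (3 * η / 64) (4 * j) (by positivity)
  have ev3 := fin_ev (η / 8) j (by positivity)
  have ev4 := fin_ev (9 * η / 1600) C (by positivity)
  obtain ⟨x0, hx0⟩ := Filter.eventually_atTop.1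
    (ev1.and (ev2.and (ev3.and (ev4.and (Filter.eventually_ge_atTop (max x1 6))))))
  refine ⟨x0, fun x hx X1 X2 q0 h h' r hX hX2 hq hqx hh hh' α β γ δ hα hβ hγ hδ => ?_⟩
  obtain ⟨g1, g2, g3, g4, g5⟩ := hx0 x hx
  have hx1x : x1 ≤ x := (le_max_left _ _).trans g5
  have hx6 : 6 ≤ x := (le_max_right _ _).trans g5
  have hxp : 0 < x := by linarith
  have hx1' : 1 ≤ x := by linarith
  obtain ⟨Y, hYd⟩ : ∃ Y : ℕ, Y = ⌊x ^ (1 - η / 8)⌋₊ := ⟨_, rfl⟩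
  have hYle : (Y : ℝ) ≤ x ^ (1 - η / 8) := by
    rw [hYd]; exact Nat.floor_le (by positivity)
  have hY : 0 < Y := by
    rw [hYd, Nat.floor_pos]
    exact Real.one_le_rpow hx1' (by linarith)
  have hsm := hx1 x hx1x X1 X2 q0 h h' r hX hX2 hq hqx hh (fun n => (α n : ℂ))
    (fun n => (β n : ℂ)) (fun n => (γ n : ℂ)) (fun n => (δ n : ℂ))
    (fun n => by rw [Complex.norm_real]; exact hα n)
    (fun n => by rw [Complex.norm_real]; exact hβ n)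
    (fun n => by rw [Complex.norm_real]; exact hγ n)
    (fun n => by rw [Complex.norm_real]; exact hδ n)
  rw [← hYd, ← hj] at hsm
  -- divisor bound
  have hD1 : (1 : ℝ) ≤ x ^ (η / 64) := Real.one_le_rpow hx1' (by positivity)
  have hjY : ((j * Y : ℕ) : ℝ) ≤ x := by
    push_cast
    calc (j : ℝ) * Y ≤ x ^ (η / 8) * x ^ (1 - η / 8) := by gcongr
      _ = x := by rw [← Real.rpow_add hxp]; norm_num
  have hxη : x ^ (η / 64) ≤ x := by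
    calc x ^ (η / 64) ≤ x ^ (1 : ℝ) := Real.rpow_le_rpow_of_exponent_le hx1' (by linarith)
      _ = x := Real.rpow_one x
  have hD : ∀ n : ℕ, 1 ≤ n → n ≤ X2 + j * Y + h + h' → (n.divisors.card : ℝ) ≤ x ^ (η / 64) := by
    intro n hn1 hn2
    have h2 : (n : ℝ) ≤ x ^ (2 : ℝ) := by
      have h3 : (n : ℝ) ≤ X2 + ((j * Y : ℕ) : ℝ) + h + h' := by exact_mod_cast hn2
      have h4 : x ^ (2 : ℝ) = x * x := by
        rw [Real.rpow_two]; ring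
      rw [h4]
      nlinarith
    have hn0 : (0 : ℝ) ≤ n := by positivity
    calc (n.divisors.card : ℝ) ≤ C * (n : ℝ) ^ (η / 200) := hdiv n hn1
      _ ≤ x ^ (9 * η / 1600) * (x ^ (2 : ℝ)) ^ (η / 200) := by
          gcongr
      _ = x ^ (η / 64) := by
          rw [← Real.rpow_mul hxp.le, ← Real.rpow_add hxp]
          congr 1
          ring
  have hed := edge_bound X1 X2 Y j q0 h h' r ⌊x ^ (1 / 2 - η)⌋₊ ⌊x ^ (1 / 20 - η)⌋₊ hX hY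
    (x ^ (η / 64)) hD1 hD (fun n => (α n : ℂ))
    (fun n => (β n : ℂ)) (fun n => (γ n : ℂ)) (fun n => (δ n : ℂ))
    (fun n => by rw [Complex.norm_real]; exact hα n)
    (fun n => by rw [Complex.norm_real]; exact hβ n)
    (fun n => by rw [Complex.norm_real]; exact hγ n)
    (fun n => by rw [Complex.norm_real]; exact hδ n)
  -- numerical bounds
  have hn1 : 2 * x ^ (1 - η / 8) ≤ x ^ (1 - η / 64) := by
    calc 2 * x ^ (1 - η / 8) ≤ x ^ (7 * η / 64) * x ^ (1 - η / 8) := by gcongr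
      _ = x ^ (1 - η / 64) := by
        rw [← Real.rpow_add hxp]; congr 1; ring
  have hn2 : 2 * (2 * ((j : ℝ) * Y) * (x ^ (η / 64)) ^ 4) ≤ x ^ (1 - η / 64) := by
    have e4 : (x ^ (η / 64)) ^ 4 = x ^ (η / 16) := by
      rw [← Real.rpow_natCast, ← Real.rpow_mul hxp.le]
      congr 1
      push_cast
      ring
    rw [e4]
    calc 2 * (2 * ((j : ℝ) * Y) * x ^ (η / 16)) = (4 * (j : ℝ)) * (Y * x ^ (η / 16)) := by ring
      _ ≤ x ^ (3 * η / 64) * (x ^ (1 - η / 8) * x ^ (η / 16)) := by gcongr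
      _ = x ^ (1 - η / 64) := by
        rw [← Real.rpow_add hxp, ← Real.rpow_add hxp]; congr 1; ring
  -- assembly
  obtain ⟨R, hR⟩ : ∃ R : ℝ, R = ∑ a ∈ Icc 1 ⌊x ^ (1 / 2 - η)⌋₊, ∑ b ∈ Icc 1 ⌊x ^ (1 / 20 - η)⌋₊,
          ∑ e ∈ Icc 1 ⌊x ^ (1 / 2 - η)⌋₊, ∑ f ∈ Icc 1 ⌊x ^ (1 / 20 - η)⌋₊,
            if cnd q0 ((h : ℤ) - h').natAbs a b e f then
              α a * β b * γ e * δ f *
                ((((Ioc X1 X2).filter (fun N => N ≡ r [MOD q0] ∧ a * b ∣ N + h ∧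
                    e * f ∣ N + h')).card : ℝ) -
                  ((X2 : ℝ) - X1) / ((q0 : ℝ) * a * b * e * f))
            else 0 := ⟨_, rfl⟩
  rw [← hR]
  have hsum : (R : ℂ) =
      (∑ a ∈ Icc 1 ⌊x ^ (1 / 2 - η)⌋₊, ∑ b ∈ Icc 1 ⌊x ^ (1 / 20 - η)⌋₊,
        ∑ e ∈ Icc 1 ⌊x ^ (1 / 2 - η)⌋₊, ∑ f ∈ Icc 1 ⌊x ^ (1 / 20 - η)⌋₊,
      if cnd q0 ((h : ℤ) - h').natAbs a b e f then
        (α a : ℂ) * β b * γ e * δ f *
          (((∑ N ∈ Ioc X1 X2, jn q0 h h' r a b e f N : ℝ) : ℂ) -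
            ((sav X1 X2 Y j (jn q0 h h' r a b e f) : ℝ) : ℂ))
      else 0) +
      (∑ a ∈ Icc 1 ⌊x ^ (1 / 2 - η)⌋₊, ∑ b ∈ Icc 1 ⌊x ^ (1 / 20 - η)⌋₊,
        ∑ e ∈ Icc 1 ⌊x ^ (1 / 2 - η)⌋₊, ∑ f ∈ Icc 1 ⌊x ^ (1 / 20 - η)⌋₊,
      if cnd q0 ((h : ℤ) - h').natAbs a b e f then
        (α a : ℂ) * β b * γ e * δ f *
          (((sav X1 X2 Y j (jn q0 h h' r a b e f) : ℝ) : ℂ) -
            ((((X2 : ℝ) - X1) / (q0 * a * b * e * f : ℕ) : ℝ) : ℂ))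
      else 0) := by
    rw [hR]
    simp only [← sum_add_distrib, Complex.ofReal_sum]
    refine sum_congr rfl fun a _ => sum_congr rfl fun b _ => sum_congr rfl fun e _ =>
      sum_congr rfl fun f _ => ?_
    split_ifs with hcn
    · rw [← fin_jn]
      push_cast
      ring
    · simp
  have hfin : |R| ≤ ‖(R : ℂ)‖ := by rw [Complex.norm_real, Real.norm_eq_abs]
  refine hfin.trans ?_
  rw [hsum]
  refine (norm_add_le _ _).trans ?_
  linarith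

end Pool.Agent.H11.PX
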