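import Pool.Agent.H11.PX.Exb

/-!
# [H11 PX FOU] Smooth count in a residue class by finite Fourier analysis

Proof.  Let `R` be the set of the integers `l` with `-M/2 < l ≤ M/2` (a complete residue system).
Orthogonality: `[N ≡ ν (M)] = (1/M) ∑_{l ∈ R} e1(l (N - ν)/M)`.  Apply `sav` (linear) and `wh_eq`: the smooth
count is `(1/M) ∑_{l ∈ R} e1(-l ν/M) wh(l/M)`.  `l = 0` gives `(X2 - X1)/M` (`wh 0 = X2 - X1`, `Y > 0`).
`fr L ⊆ R \ {0}` since `L < M/2`.  For the others, `|l| > L` (integers `l ≠ 0`, `|l| > ⌊L⌋`, so `|l| > L`):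
`‖wh(l/M)‖ ≤ (X2-X1) (M/(2 Y |l|))^j ≤ (X2-X1) ρ^j` by `wh_small`; at most `M` terms, factor `1/M`.
-/

namespace Pool.Agent.H11.PX

open Finset

private theorem fou_e1_zero : e1 0 = 1 := by
  have := e1_int 0
  simpa using this

/-- complete sums -/
private theorem fou_orth (M : ℕ) (hM : 0 < M) (t : ℤ) :
    ∑ i ∈ range M, e1 ((i : ℝ) * t / M) = if (M : ℤ) ∣ t then (M : ℂ) else 0 := by
  have hM0 : (M : ℝ) ≠ 0 := by positivity
  have hpow : ∀ i : ℕ, e1 ((i : ℝ) * t / M) = e1 ((t : ℝ) / M) ^ i := by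
    intro i
    induction i with
    | zero => simp [fou_e1_zero]
    | succ i ih =>
      rw [pow_succ, ← ih, ← e1_add]
      congr 1
      push_cast
      ring
  rw [sum_congr rfl fun i _ => hpow i]
  by_cases h : (M : ℤ) ∣ t
  · obtain ⟨k, rfl⟩ := h
    have h1 : e1 (((M : ℤ) * k : ℤ) / M) = 1 := by
      have : (((M : ℤ) * k : ℤ) : ℝ) / M = (k : ℝ) := by push_cast; field_simp
      rw [this, e1_int]
    rw [if_pos (Dvd.intro _ rfl), h1]
    simp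
  · rw [if_neg h]
    set z := e1 ((t : ℝ) / M) with hz
    have hzM : z ^ M = 1 := by
      rw [hz, ← hpow M]
      have : (M : ℝ) * t / M = (t : ℝ) := by field_simp
      rw [this, e1_int]
    have hz1 : z ≠ 1 := by
      intro hcon
      rw [hz] at hcon
      unfold e1 at hcon
      rw [Complex.exp_eq_one_iff] at hcon
      obtain ⟨n, hn⟩ := hcon
      apply h
      have h2 : (2 * Real.pi * ((t : ℝ) / M) : ℝ) = 2 * Real.pi * n := by
        have h3 : ((2 * Real.pi * ((t : ℝ) / M) : ℝ) : ℂ) * Complex.I =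
            ((2 * Real.pi * n : ℝ) : ℂ) * Complex.I := by
          rw [hn]; push_cast; ring
        have h4 := mul_right_cancel₀ Complex.I_ne_zero h3
        exact_mod_cast h4
      have h5 : (t : ℝ) / M = n := by
        have hpi : (2 * Real.pi : ℝ) ≠ 0 := by positivity
        exact mul_left_cancel₀ hpi h2
      rw [div_eq_iff hM0] at h5
      refine ⟨n, ?_⟩
      have h6 : (t : ℝ) = ((n * M : ℤ) : ℝ) := by push_cast; exact h5
      have h7 : t = n * M := by exact_mod_cast h6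
      rw [h7]; ring
    have h1 := geom_sum_mul z M
    rw [hzM, sub_self] at h1
    exact (mul_eq_zero.1 h1).resolve_right (sub_ne_zero.2 hz1)

/-- the residue system -/
private noncomputable def fR (M : ℕ) : Finset ℤ := Ico (-(((M - 1) / 2 : ℕ) : ℤ)) ((M : ℤ) - ((M - 1) / 2 : ℕ))

private theorem fR_sum (M : ℕ) (f : ℤ → ℂ) :
    ∑ l ∈ fR M, f l = ∑ i ∈ range M, f ((i : ℤ) - ((M - 1) / 2 : ℕ)) := by
  symm
  unfold fR
  refine sum_bij (fun (i : ℕ) _ => (i : ℤ) - ((M - 1) / 2 : ℕ)) ?_ ?_ ?_ ?_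
  · intro i hi
    rw [mem_range] at hi
    rw [mem_Ico]
    constructor <;> omega
  · intro a _ b _ h
    omega
  · intro l hl
    rw [mem_Ico] at hl
    refine ⟨(l + ((M - 1) / 2 : ℕ)).toNat, ?_, ?_⟩
    · rw [mem_range]; omega
    · omega
  · intro i _; rfl

private theorem fou_ind (M : ℕ) (hM : 0 < M) (t : ℤ) :
    (1 / (M : ℂ)) * ∑ l ∈ fR M, e1 ((l : ℝ) * t / M) = if (M : ℤ) ∣ t then 1 else 0 := by
  have hM0 : (M : ℂ) ≠ 0 := Nat.cast_ne_zero.2 hM.ne'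
  have hM1 : (M : ℝ) ≠ 0 := Nat.cast_ne_zero.2 hM.ne'
  rw [fR_sum]
  generalize (M - 1) / 2 = c
  have h1 : ∀ i ∈ range M, e1 ((((i : ℤ) - (c : ℕ) : ℤ) : ℝ) * t / M) =
      e1 (-(c : ℝ) * t / M) * e1 ((i : ℝ) * t / M) := by
    intro i _
    rw [← e1_add]
    congr 1
    push_cast
    ring
  rw [sum_congr rfl h1, ← mul_sum, fou_orth M hM t]
  by_cases h : (M : ℤ) ∣ t
  · rw [if_pos h, if_pos h]
    obtain ⟨k, rfl⟩ := h
    have h2 : e1 (-(c : ℝ) * (((M : ℤ) * k : ℤ) : ℝ) / M) = 1 := by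
      have : -(c : ℝ) * (((M : ℤ) * k : ℤ) : ℝ) / M = ((-(c : ℤ) * k : ℤ) : ℝ) := by
        push_cast; field_simp
      rw [this, e1_int]
    rw [h2, one_mul, one_div, inv_mul_cancel₀ hM0]
  · rw [if_neg h, if_neg h, mul_zero, mul_zero]

/-- the exact formula -/
private theorem fou_exact (X1 X2 Y j : ℕ) (M : ℕ) (hM : 0 < M) (ν : ℤ) :
    ((sav X1 X2 Y j (fun N => if (N : ℤ) ≡ ν [ZMOD M] then 1 else 0) : ℝ) : ℂ) =
      (1 / (M : ℂ)) * ∑ l ∈ fR M, e1 (-(l : ℝ) * ν / M) * wh X1 X2 Y j ((l : ℝ) / M) := by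
  have h1 : ∀ N : ℕ, (((if (N : ℤ) ≡ ν [ZMOD M] then 1 else 0 : ℝ)) : ℂ) =
      (1 / (M : ℂ)) * ∑ l ∈ fR M, e1 (-(l : ℝ) * ν / M) * e1 ((N : ℝ) * ((l : ℝ) / M)) := by
    intro N
    have h2 : ((N : ℤ) ≡ ν [ZMOD M]) ↔ (M : ℤ) ∣ (N : ℤ) - ν := by
      rw [Int.modEq_comm, Int.modEq_iff_dvd]
    have h3 : ∀ l ∈ fR M, e1 (-(l : ℝ) * ν / M) * e1 ((N : ℝ) * ((l : ℝ) / M)) =
        e1 ((l : ℝ) * (((N : ℤ) - ν : ℤ) : ℝ) / M) := by
      intro l _
      rw [← e1_add]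
      congr 1
      push_cast
      ring
    rw [sum_congr rfl h3, fou_ind M hM]
    by_cases h : (M : ℤ) ∣ (N : ℤ) - ν
    · rw [if_pos h, if_pos (h2.2 h)]; simp
    · rw [if_neg h, if_neg (fun h' => h (h2.1 h'))]; simp
  have h5 : ((sav X1 X2 Y j (fun N => if (N : ℤ) ≡ ν [ZMOD M] then 1 else 0) : ℝ) : ℂ) =
      (1 / (Y : ℂ) ^ j) * ∑ y : Fin j → Fin Y, ∑ n ∈ Ioc X1 X2,
        (((if (((n + ∑ i, ((y i : ℕ))) : ℕ) : ℤ) ≡ ν [ZMOD M] then 1 else 0 : ℝ)) : ℂ) := by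
    unfold sav
    rw [Complex.ofReal_mul, Complex.ofReal_sum]
    congr 1
    · push_cast; rfl
    · refine sum_congr rfl fun y _ => ?_
      rw [Complex.ofReal_sum]
  rw [h5]
  simp only [wh_eq]
  calc (1 / (Y : ℂ) ^ j) * ∑ y : Fin j → Fin Y, ∑ n ∈ Ioc X1 X2,
        (((if (((n + ∑ i, ((y i : ℕ))) : ℕ) : ℤ) ≡ ν [ZMOD M] then 1 else 0 : ℝ)) : ℂ)
      = (1 / (Y : ℂ) ^ j) * ∑ y : Fin j → Fin Y, ∑ n ∈ Ioc X1 X2,
        ((1 / (M : ℂ)) * ∑ l ∈ fR M, e1 (-(l : ℝ) * ν / M) *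
          e1 (((n + ∑ i, ((y i : ℕ)) : ℕ) : ℝ) * ((l : ℝ) / M))) := by
        congr 1
        refine sum_congr rfl fun y _ => sum_congr rfl fun n _ => ?_
        exact h1 _
    _ = (1 / (M : ℂ)) * ((1 / (Y : ℂ) ^ j) * ∑ y : Fin j → Fin Y, ∑ n ∈ Ioc X1 X2,
          ∑ l ∈ fR M, e1 (-(l : ℝ) * ν / M) *
          e1 (((n + ∑ i, ((y i : ℕ)) : ℕ) : ℝ) * ((l : ℝ) / M))) := by
        simp only [← mul_sum]
        ring
    _ = (1 / (M : ℂ)) * ((1 / (Y : ℂ) ^ j) * ∑ l ∈ fR M, ∑ y : Fin j → Fin Y,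
          ∑ n ∈ Ioc X1 X2, e1 (-(l : ℝ) * ν / M) *
          e1 (((n + ∑ i, ((y i : ℕ)) : ℕ) : ℝ) * ((l : ℝ) / M))) := by
        congr 2
        rw [sum_comm (s := fR M)]
        exact sum_congr rfl fun y _ => sum_comm
    _ = _ := by
        congr 1
        rw [mul_sum]
        refine sum_congr rfl fun l _ => ?_
        simp only [← mul_sum]
        ring

theorem smooth_res (X1 X2 Y j : ℕ) (hX : X1 ≤ X2) (hY : 0 < Y) (M : ℕ) (hM : 0 < M) (ν : ℤ)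
    (L ρ : ℝ) (hL0 : 0 ≤ L) (hL : L < (M : ℝ) / 2) (hρ0 : 0 ≤ ρ)
    (hρ : ∀ l : ℕ, L < l → (M : ℝ) / (2 * Y * l) ≤ ρ) :
    ‖((sav X1 X2 Y j (fun N => if (N : ℤ) ≡ ν [ZMOD M] then 1 else 0) : ℝ) : ℂ) -
        ((((X2 : ℝ) - X1) / M : ℝ) : ℂ) -
        (1 / (M : ℂ)) * ∑ l ∈ fr L, e1 (-(l : ℝ) * ν / M) * wh X1 X2 Y j ((l : ℝ) / M)‖ ≤
      ((X2 : ℝ) - X1) * ρ ^ j := by
  have hMr : (0 : ℝ) < M := Nat.cast_pos.2 hM
  have hYr : (0 : ℝ) < Y := Nat.cast_pos.2 hY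
  have hXr : (0 : ℝ) ≤ (X2 : ℝ) - X1 := sub_nonneg.2 (Nat.cast_le.2 hX)
  set g : ℤ → ℂ := fun l => e1 (-(l : ℝ) * ν / M) * wh X1 X2 Y j ((l : ℝ) / M) with hg
  have hwh0 : wh X1 X2 Y j 0 = (((X2 : ℝ) - X1 : ℝ) : ℂ) := by
    unfold wh
    have hYc : (Y : ℂ) ≠ 0 := Nat.cast_ne_zero.2 hY.ne'
    simp only [mul_zero, fou_e1_zero, sum_const, Nat.card_Ioc, card_range, nsmul_eq_mul, mul_one]
    rw [div_self hYc, one_pow, mul_one, Nat.cast_sub hX]
    push_cast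
    rfl
  have hg0 : g 0 = (((X2 : ℝ) - X1 : ℝ) : ℂ) := by
    rw [hg]
    simp only [Int.cast_zero, neg_zero, zero_mul, zero_div, fou_e1_zero, one_mul]
    exact hwh0
  have hsub : insert 0 (fr L) ⊆ fR M := by
    intro l hl
    rw [mem_insert] at hl
    unfold fR
    rw [mem_Ico]
    rcases hl with rfl | hl
    · constructor <;> omega
    · unfold fr at hl
      rw [mem_erase, mem_Icc] at hl
      obtain ⟨_, h1, h2⟩ := hl
      have hfl : (⌊L⌋ : ℝ) ≤ L := Int.floor_le L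
      have h3 : (2 * ⌊L⌋ : ℤ) < M := by
        have : ((2 * ⌊L⌋ : ℤ) : ℝ) < ((M : ℤ) : ℝ) := by push_cast; linarith
        exact_mod_cast this
      constructor <;> omega
  have h0 : (0 : ℤ) ∉ fr L := by unfold fr; simp
  have hsplit : ∑ l ∈ fR M, g l = g 0 + ∑ l ∈ fr L, g l + ∑ l ∈ fR M \ insert 0 (fr L), g l := by
    rw [← sum_insert h0, add_comm, sum_sdiff hsub]
  have hex := fou_exact X1 X2 Y j M hM ν
  have heq : ((sav X1 X2 Y j (fun N => if (N : ℤ) ≡ ν [ZMOD M] then 1 else 0) : ℝ) : ℂ) -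
        ((((X2 : ℝ) - X1) / M : ℝ) : ℂ) - (1 / (M : ℂ)) * ∑ l ∈ fr L, g l =
      (1 / (M : ℂ)) * ∑ l ∈ fR M \ insert 0 (fr L), g l := by
    rw [hex]
    change (1 / (M : ℂ)) * ∑ l ∈ fR M, g l - _ - _ = _
    rw [hsplit, hg0]
    push_cast
    ring
  rw [heq]
  have hbd : ∀ l ∈ fR M \ insert 0 (fr L), ‖g l‖ ≤ ((X2 : ℝ) - X1) * ρ ^ j := by
    intro l hl
    rw [mem_sdiff, mem_insert, not_or] at hl
    obtain ⟨hlR, hl0, hlf⟩ := hl
    have hlL : L < (l.natAbs : ℝ) := by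
      by_contra hcon
      apply hlf
      unfold fr
      rw [mem_erase, mem_Icc]
      have h1 : (l.natAbs : ℤ) ≤ ⌊L⌋ := by
        rw [Int.le_floor, Int.cast_natCast]
        exact not_lt.1 hcon
      refine ⟨hl0, ?_, ?_⟩ <;> omega
    have hlM : 2 * l.natAbs ≤ M := by
      unfold fR at hlR
      rw [mem_Ico] at hlR
      omega
    have hlr : (l : ℝ) ≠ 0 := Int.cast_ne_zero.2 hl0
    have habs : |(l : ℝ)| = (l.natAbs : ℝ) := by
      rw [Nat.cast_natAbs, Int.cast_abs]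
    have habs2 : |(l : ℝ) / M| = (l.natAbs : ℝ) / M := by
      rw [abs_div, habs, abs_of_pos hMr]
    have hlp : (0 : ℝ) < (l.natAbs : ℝ) := by
      rw [← habs]; exact abs_pos.2 hlr
    rw [hg]
    simp only
    rw [norm_mul, norm_e1, one_mul]
    refine (wh_small X1 X2 Y j hX hY _ (div_ne_zero hlr hMr.ne') ?_).trans ?_
    · rw [habs2, div_le_iff₀ hMr]
      have : (2 * l.natAbs : ℝ) ≤ M := by exact_mod_cast hlM
      linarith
    · apply mul_le_mul_of_nonneg_left _ hXr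
      apply pow_le_pow_left₀ (by positivity)
      rw [habs2]
      refine le_trans (le_of_eq ?_) (hρ l.natAbs hlL)
      field_simp
  calc ‖(1 / (M : ℂ)) * ∑ l ∈ fR M \ insert 0 (fr L), g l‖
      = (1 / (M : ℝ)) * ‖∑ l ∈ fR M \ insert 0 (fr L), g l‖ := by
        rw [norm_mul]
        congr 1
        simp
    _ ≤ (1 / (M : ℝ)) * ∑ l ∈ fR M \ insert 0 (fr L), ‖g l‖ := by
        apply mul_le_mul_of_nonneg_left (norm_sum_le _ _) (by positivity)
    _ ≤ (1 / (M : ℝ)) * ((fR M \ insert 0 (fr L)).card • (((X2 : ℝ) - X1) * ρ ^ j)) := by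
        apply mul_le_mul_of_nonneg_left (sum_le_card_nsmul _ _ _ hbd) (by positivity)
    _ ≤ (1 / (M : ℝ)) * (M * (((X2 : ℝ) - X1) * ρ ^ j)) := by
        apply mul_le_mul_of_nonneg_left _ (by positivity)
        rw [nsmul_eq_mul]
        apply mul_le_mul_of_nonneg_right _ (by positivity)
        have hc1 : (fR M \ insert 0 (fr L)).card ≤ (fR M).card := card_le_card sdiff_subset
        have hc2 : (fR M).card = M := by
          unfold fR
          rw [Int.card_Ico]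
          omega
        rw [hc2] at hc1
        exact_mod_cast hc1
    _ = ((X2 : ℝ) - X1) * ρ ^ j := by field_simp

end Pool.Agent.H11.PX
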