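import Pool.Agent.H11.PX.Exb

/-!
# [H11 PX GVA] Size and variation of the smooth factor

Proof.  `gg a = (1/(m a)) V(l/(m a))`, `V(θ) = wh(θ) e1(h θ)`; by `wh_eq`, `V(θ) = (1/Y^j) ∑_y ∑_n e1((n + ∑ y + h) θ)`
with `Y^j (X2 - X1)` terms and `n + ∑ y + h ≤ X2 + j Y + h`, so `|V| ≤ X2 - X1` and by `e1_lip`
`|V(θ) - V(θ')| ≤ 2 π (X2 + j Y + h) (X2 - X1) |θ - θ'|`.  With `u = 1/a`, `u' = 1/(a+1)`, `|u - u'| ≤ 1/a^2`:
`|gg(a+1) - gg(a)| ≤ |u - u'| (X2-X1)/m + (u/m) 2 π (X2+jY+h) (X2-X1) |l| |u - u'|/m`.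
-/

namespace Pool.Agent.H11.PX

open Finset

private theorem gva_V (X1 X2 Y j h : ℕ) (hX : X1 ≤ X2) (hY : 0 < Y) (θ θ' : ℝ) :
    ‖wh X1 X2 Y j θ * e1 (h * θ) - wh X1 X2 Y j θ' * e1 (h * θ')‖ ≤
      2 * Real.pi * (X2 + j * Y + h) * ((X2 : ℝ) - X1) * |θ - θ'| := by
  have hYr : (0 : ℝ) < Y := by exact_mod_cast hY
  have hY0 : (0 : ℝ) < (Y : ℝ) ^ j := pow_pos hYr _
  have hX0 : (0 : ℝ) ≤ (X2 : ℝ) - X1 := sub_nonneg.2 (by exact_mod_cast hX)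
  have hV : ∀ θ : ℝ, wh X1 X2 Y j θ * e1 (h * θ) =
      (1 / (Y : ℂ) ^ j) * ∑ y : Fin j → Fin Y, ∑ n ∈ Ioc X1 X2,
        e1 (((n + ∑ i, ((y i : ℕ)) + h : ℕ) : ℝ) * θ) := by
    intro θ
    rw [wh_eq, mul_assoc, Finset.sum_mul]
    congr 1
    refine Finset.sum_congr rfl fun y _ => ?_
    rw [Finset.sum_mul]
    refine Finset.sum_congr rfl fun n _ => ?_
    rw [← e1_add]
    congr 1
    push_cast
    ring
  have h1 : ‖∑ y : Fin j → Fin Y, (∑ n ∈ Ioc X1 X2,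
        e1 (((n + ∑ i, ((y i : ℕ)) + h : ℕ) : ℝ) * θ) - ∑ n ∈ Ioc X1 X2,
        e1 (((n + ∑ i, ((y i : ℕ)) + h : ℕ) : ℝ) * θ'))‖ ≤
      (Y : ℝ) ^ j * (((X2 : ℝ) - X1) * (2 * Real.pi * ((X2 + j * Y + h) * |θ - θ'|))) := by
    refine (norm_sum_le _ _).trans ?_
    have h2 : ∀ y ∈ (Finset.univ : Finset (Fin j → Fin Y)), ‖∑ n ∈ Ioc X1 X2,
        e1 (((n + ∑ i, ((y i : ℕ)) + h : ℕ) : ℝ) * θ) - ∑ n ∈ Ioc X1 X2,
        e1 (((n + ∑ i, ((y i : ℕ)) + h : ℕ) : ℝ) * θ')‖ ≤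
        ((X2 : ℝ) - X1) * (2 * Real.pi * ((X2 + j * Y + h) * |θ - θ'|)) := by
      intro y _
      rw [← Finset.sum_sub_distrib]
      refine (norm_sum_le _ _).trans ?_
      refine (Finset.sum_le_card_nsmul _ _ (2 * Real.pi * ((X2 + j * Y + h) * |θ - θ'|))
        fun n hn => ?_).trans ?_
      · refine (e1_lip _ _).trans ?_
        rw [← mul_sub, abs_mul]
        have h3 : |((n + ∑ i, ((y i : ℕ)) + h : ℕ) : ℝ)| ≤ X2 + j * Y + h := by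
          rw [abs_of_nonneg (Nat.cast_nonneg _)]
          have h4 : ∑ i, ((y i : ℕ)) ≤ j * Y := by
            refine (Finset.sum_le_card_nsmul _ _ Y fun i _ => (y i).2.le).trans ?_
            rw [Finset.card_univ, Fintype.card_fin, smul_eq_mul]
          have h5 := (Finset.mem_Ioc.1 hn).2
          have h6 : n + ∑ i, ((y i : ℕ)) + h ≤ X2 + j * Y + h := by omega
          exact_mod_cast h6
        exact mul_le_mul_of_nonneg_left (mul_le_mul_of_nonneg_right h3 (abs_nonneg _))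
          (by positivity)
      · rw [Nat.card_Ioc, nsmul_eq_mul, Nat.cast_sub hX]
    refine (Finset.sum_le_card_nsmul _ _ _ h2).trans ?_
    rw [Finset.card_univ, Fintype.card_fun, Fintype.card_fin, Fintype.card_fin, nsmul_eq_mul,
      Nat.cast_pow]
  rw [hV, hV, ← mul_sub, ← Finset.sum_sub_distrib, norm_mul]
  have h2 : ‖(1 / (Y : ℂ) ^ j)‖ = 1 / (Y : ℝ) ^ j := by
    rw [norm_div, norm_one, norm_pow, Complex.norm_natCast]
  rw [h2]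
  refine (mul_le_mul_of_nonneg_left h1 (by positivity)).trans ?_
  rw [← mul_assoc, one_div_mul_cancel hY0.ne', one_mul]
  apply le_of_eq
  ring

private theorem gva_gg (X1 X2 Y j h m : ℕ) (l : ℤ) (a : ℕ) :
    gg X1 X2 Y j h m l a = (1 / ((m : ℂ) * a)) * (wh X1 X2 Y j ((l : ℝ) / (m * a)) *
      e1 (h * ((l : ℝ) / (m * a)))) := by
  rw [gg, mul_assoc]
  congr 3
  ring

theorem gg_norm (X1 X2 Y j h m : ℕ) (hX : X1 ≤ X2) (hm : 0 < m) (l : ℤ) (a : ℕ) (ha : 0 < a) :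
    ‖gg X1 X2 Y j h m l a‖ ≤ ((X2 : ℝ) - X1) / (m * a) := by
  have hmr : (0 : ℝ) < m := by exact_mod_cast hm
  have har : (0 : ℝ) < a := by exact_mod_cast ha
  rw [gg, norm_mul, norm_mul, norm_e1, mul_one, norm_div, norm_one, norm_mul,
    Complex.norm_natCast, Complex.norm_natCast, div_mul_eq_mul_div, one_mul]
  exact div_le_div_of_nonneg_right (wh_norm X1 X2 Y j hX _) (by positivity)

theorem gg_diff (X1 X2 Y j h m : ℕ) (hX : X1 ≤ X2) (hY : 0 < Y) (hm : 0 < m) (l : ℤ) (a : ℕ)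
    (ha : 0 < a) :
    ‖gg X1 X2 Y j h m l (a + 1) - gg X1 X2 Y j h m l a‖ ≤
      (((X2 : ℝ) - X1) / (m * a ^ 2)) *
        (1 + 2 * Real.pi * (X2 + j * Y + h) * |(l : ℝ)| / (m * a)) := by
  have hmr : (0 : ℝ) < m := by exact_mod_cast hm
  have har : (0 : ℝ) < a := by exact_mod_cast ha
  have hX0 : (0 : ℝ) ≤ (X2 : ℝ) - X1 := sub_nonneg.2 (by exact_mod_cast hX)
  obtain ⟨θ, hθ⟩ : ∃ θ : ℝ, θ = (l : ℝ) / (m * a) := ⟨_, rfl⟩
  obtain ⟨θ', hθ'⟩ : ∃ θ' : ℝ, θ' = (l : ℝ) / (m * ((a + 1 : ℕ) : ℝ)) := ⟨_, rfl⟩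
  obtain ⟨V, hV⟩ : ∃ V : ℂ, V = wh X1 X2 Y j θ * e1 (h * θ) := ⟨_, rfl⟩
  obtain ⟨V', hV'⟩ : ∃ V' : ℂ, V' = wh X1 X2 Y j θ' * e1 (h * θ') := ⟨_, rfl⟩
  have h1 := gva_V X1 X2 Y j h hX hY θ' θ
  rw [← hV, ← hV'] at h1
  have h2 : ‖V'‖ ≤ (X2 : ℝ) - X1 := by
    rw [hV', norm_mul, norm_e1, mul_one]
    exact wh_norm X1 X2 Y j hX _
  have h3 : |θ' - θ| ≤ |(l : ℝ)| / (m * a ^ 2) := by
    have e1 : θ' - θ = -((l : ℝ) / (m * (a * (a + 1)))) := by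
      rw [hθ, hθ']
      push_cast
      field_simp
      ring
    rw [e1, abs_neg, abs_div, abs_of_pos (by positivity : (0 : ℝ) < m * (a * (a + 1)))]
    apply div_le_div_of_nonneg_left (abs_nonneg _) (by positivity)
    nlinarith
  have h4 : gg X1 X2 Y j h m l (a + 1) - gg X1 X2 Y j h m l a =
      (((1 / (m * (a + 1)) - 1 / (m * a) : ℝ)) : ℂ) * V' + ((1 / (m * a) : ℝ) : ℂ) * (V' - V) := by
    rw [gva_gg, gva_gg, ← hθ, ← hθ', ← hV, ← hV']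
    push_cast
    ring
  have h5 : |1 / ((m : ℝ) * (a + 1)) - 1 / (m * a)| ≤ 1 / (m * a ^ 2) := by
    have e1 : 1 / ((m : ℝ) * (a + 1)) - 1 / (m * a) = -(1 / (m * (a * (a + 1)))) := by
      field_simp
      ring
    rw [e1, abs_neg, abs_of_pos (by positivity : (0 : ℝ) < 1 / (m * (a * (a + 1))))]
    apply div_le_div_of_nonneg_left zero_le_one (by positivity)
    nlinarith
  rw [h4]
  refine (norm_add_le _ _).trans ?_
  rw [norm_mul, norm_mul, Complex.norm_real, Complex.norm_real, Real.norm_eq_abs,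
    Real.norm_eq_abs, abs_of_pos (by positivity : (0 : ℝ) < 1 / (m * a))]
  have hC : 0 ≤ 2 * Real.pi * (X2 + j * Y + h) * ((X2 : ℝ) - X1) := by positivity
  calc |1 / ((m : ℝ) * (a + 1)) - 1 / (m * a)| * ‖V'‖ + 1 / (m * a) * ‖V' - V‖ ≤
      1 / (m * a ^ 2) * ((X2 : ℝ) - X1) + 1 / (m * a) *
        (2 * Real.pi * (X2 + j * Y + h) * ((X2 : ℝ) - X1) * (|(l : ℝ)| / (m * a ^ 2))) := by
        refine add_le_add (mul_le_mul h5 h2 (norm_nonneg _) (by positivity)) ?_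
        exact mul_le_mul_of_nonneg_left (h1.trans (mul_le_mul_of_nonneg_left h3 hC))
          (by positivity)
    _ = (((X2 : ℝ) - X1) / (m * a ^ 2)) *
        (1 + 2 * Real.pi * (X2 + j * Y + h) * |(l : ℝ)| / (m * a)) := by
        field_simp

end Pool.Agent.H11.PX
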