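import Pool.Agent.H11.PX.Box
import Pool.Agent.H92.DivBound

/-!
# [H11 PX NUM] Numerical form of the bound for a box

`Y = ⌊x^(1-η/8)⌋`, `j = ⌈16/η⌉`, `L = 16 q0 A B E F x^(η/8)/Y`, `D = x^(η/1000)`.

Proof.  For `x` large: `Y ≥ x^(1-η/8)/2`, so `L ≤ 32 q0 A B E F x^(η/4-1)`; `X = X2 - X1 ≤ 3x`,
`Ξ = X2 + j Y + h ≤ 5x`, so `3 + 4πΞL/M0 ≤ 3 + 4π 5x 32 x^(η/4-1) ≤ 3000 x^(η/4)`.  `16(L+1)B E F^2 ≤ x^2`, so
`H92.DivBound` (`τ(n) ≤ C n^(η/4000)`) gives the hypothesis `hD` with `D = x^(η/1000)` for `x ≥ x0`.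
`log(8 E F^2 q0) + 1 ≤ x^(η/1000)`.  Terms of `box_bound` (with `M0 = q0 A B E F`):
(1) `A E (3x/M0)^2 2 D^2 L B F A E ≤ 18 x^2 D^2 L/(q0^2 B F) ≤ 600 x^(1+η/4) D^2 A E ≤ x^(2-η)` as
    `A E ≤ x^(1-2η)`.
(2) `A E (3x/M0)^2 3000 x^(η/4) 12 D A B²F²L² ≤ C x^(2+η/4) D L²/(q0² E) ≤ C x^(3η/4) D A² B² E F² ≤ x^(1.8)`.
(3) main part with `L²`: `A E (3x/M0)^2 3000 x^(η/4) 144 q0 D^7 (1+log) E√E B²F³ L²
    ≤ C x^(2+η/4) D^8 √E F L²/(q0 A) ≤ C x^(3η/4) D^8 q0 A B² E^(5/2) F³`, exponent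
    `3η/4 + 8η/1000 + η/64 + (1/2 - η) + 2(1/20 - η) + (5/2)(1/2 - η) + 3(1/20 - η) = 2 - 17η/2 + ...`.
(4) part with `L √F`: `≤ C x^(2+η/4) D^8 √E F^(3/2) L/(q0 A) ≤ C x^(1+η/2) D^8 B E^(3/2) F^(5/2) ≤ x^(1.95)`.
Sum `≤ x^(2-η/2)`.
-/

namespace Pool.Agent.H11.PX

open Finset

private theorem NUM_mul {x K η C e e' : ℝ} (hx : 1 ≤ x) (hK : K ≤ x ^ (η / 4)) (hC : C ≤ K)
    (he : e + η / 4 ≤ e') : C * x ^ e ≤ x ^ e' := by
  have hx0 : 0 < x := by linarith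
  calc C * x ^ e ≤ x ^ (η / 4) * x ^ e :=
        mul_le_mul_of_nonneg_right (hC.trans hK) (Real.rpow_nonneg hx0.le _)
    _ = x ^ (η / 4 + e) := (Real.rpow_add hx0 _ _).symm
    _ ≤ x ^ e' := Real.rpow_le_rpow_of_exponent_le hx (by linarith)

private theorem NUM_real {x η a b e f Q D ℓ V L P re rf : ℝ} (hη : 0 < η) (hη1 : η ≤ 1 / 100)
    (hx : 1 ≤ x) (hK : 10 ^ 11 ≤ x ^ (η / 4)) (ha1 : 1 ≤ a) (hb1 : 1 ≤ b) (he1 : 1 ≤ e)
    (hf1 : 1 ≤ f) (hQ1 : 1 ≤ Q) (hV0 : 0 ≤ V) (hL0 : 0 ≤ L) (hP0 : 0 ≤ P) (hl0 : 0 ≤ ℓ)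
    (hre0 : 0 ≤ re) (hrf0 : 0 ≤ rf)
    (hVL : V * L ≤ 96 * x ^ (η / 4)) (hVM : V * (Q * a * b * e * f) ≤ 3 * x)
    (hP : P ≤ 3000 * x ^ (η / 4)) (hD : D = x ^ (η / 1000)) (hl : ℓ ≤ x ^ (η / 1000))
    (hQ : Q ≤ x ^ (η / 64)) (ha : a ≤ x ^ (1 / 2 - η)) (he : e ≤ x ^ (1 / 2 - η))
    (hb : b ≤ x ^ (1 / 20 - η)) (hf : f ≤ x ^ (1 / 20 - η)) (hre : re ≤ x ^ (1 / 4 - η / 2))
    (hrf : rf ≤ x ^ (1 / 40 - η / 2)) :
    a * e * V ^ 2 * (2 * D ^ 2 * L * b * f * a * e + P * (12 * D * a * b ^ 2 * f ^ 2 * L ^ 2 +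
      144 * Q * D ^ 7 * ℓ * (e * re) * b ^ 2 * f ^ 3 * L * (L + rf))) ≤ x ^ (2 - η / 2) := by
  have hx0 : 0 < x := by linarith
  have hD0 : 0 ≤ D := hD ▸ Real.rpow_nonneg hx0.le _
  have hVM' : V * (a * b * e * f) ≤ 3 * x ^ (1 : ℝ) := by
    rw [Real.rpow_one]
    refine le_trans ?_ hVM
    have h1 : Q * a * b * e * f = Q * (a * b * e * f) := by ring
    rw [h1]
    refine mul_le_mul_of_nonneg_left ?_ hV0
    exact le_mul_of_one_le_left (by positivity) hQ1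
  have hVM2 : V * (Q * a * b * e * f) ≤ 3 * x ^ (1 : ℝ) := by
    rw [Real.rpow_one]
    exact hVM
  have t1 : 2 * D ^ 2 * (V * L) * (V * (a * b * e * f)) * (a * e) ≤ x ^ (2 - η / 2) / 4 := by
    calc 2 * D ^ 2 * (V * L) * (V * (a * b * e * f)) * (a * e) ≤
        2 * D ^ 2 * (96 * x ^ (η / 4)) * (3 * x ^ (1 : ℝ)) *
          (x ^ (1 / 2 - η) * x ^ (1 / 2 - η)) := by gcongr
      _ = 576 * (D ^ 2 * x ^ (η / 4) * x ^ (1 : ℝ) * (x ^ (1 / 2 - η) * x ^ (1 / 2 - η))) := by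
        ring
      _ = 576 * x ^ (η / 1000 * 2 + η / 4 + 1 + (1 / 2 - η + (1 / 2 - η))) := by
        rw [hD]
        simp only [← Real.rpow_natCast, ← Real.rpow_mul hx0.le, ← Real.rpow_add hx0]
        norm_num
      _ ≤ x ^ (2 - η / 2) / 4 := by
        rw [le_div_iff₀ (by norm_num)]
        calc 576 * x ^ (η / 1000 * 2 + η / 4 + 1 + (1 / 2 - η + (1 / 2 - η))) * 4 =
            2304 * x ^ (η / 1000 * 2 + η / 4 + 1 + (1 / 2 - η + (1 / 2 - η))) := by ring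
          _ ≤ _ := NUM_mul hx hK (by norm_num) (by linarith)
  have t2 : 12 * D * (V * L) ^ 2 * P * (a ^ 2 * e * b ^ 2 * f ^ 2) ≤ x ^ (2 - η / 2) / 4 := by
    calc 12 * D * (V * L) ^ 2 * P * (a ^ 2 * e * b ^ 2 * f ^ 2) ≤
        12 * D * (96 * x ^ (η / 4)) ^ 2 * (3000 * x ^ (η / 4)) *
          ((x ^ (1 / 2 - η)) ^ 2 * x ^ (1 / 2 - η) * (x ^ (1 / 20 - η)) ^ 2 *
            (x ^ (1 / 20 - η)) ^ 2) := by gcongr
      _ = 331776000 * (D * (x ^ (η / 4)) ^ 2 * x ^ (η / 4) *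
          ((x ^ (1 / 2 - η)) ^ 2 * x ^ (1 / 2 - η) * (x ^ (1 / 20 - η)) ^ 2 *
            (x ^ (1 / 20 - η)) ^ 2)) := by
        ring
      _ = 331776000 * x ^ (η / 1000 + η / 4 * 2 + η / 4 + ((1 / 2 - η) * 2 + (1 / 2 - η) +
          (1 / 20 - η) * 2 + (1 / 20 - η) * 2)) := by
        rw [hD]
        simp only [← Real.rpow_natCast, ← Real.rpow_mul hx0.le, ← Real.rpow_add hx0]
        norm_num
      _ ≤ x ^ (2 - η / 2) / 4 := by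
        rw [le_div_iff₀ (by norm_num)]
        calc _ = 1327104000 * x ^ (η / 1000 + η / 4 * 2 + η / 4 + ((1 / 2 - η) * 2 + (1 / 2 - η) +
          (1 / 20 - η) * 2 + (1 / 20 - η) * 2)) := by ring
          _ ≤ _ := NUM_mul hx hK (by norm_num) (by linarith)
  have t3 : 144 * Q * D ^ 7 * ℓ * (V * L) ^ 2 * P * (a * e ^ 2 * re * b ^ 2 * f ^ 3) ≤
      x ^ (2 - η / 2) / 4 := by
    calc 144 * Q * D ^ 7 * ℓ * (V * L) ^ 2 * P * (a * e ^ 2 * re * b ^ 2 * f ^ 3) ≤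
        144 * x ^ (η / 64) * D ^ 7 * x ^ (η / 1000) * (96 * x ^ (η / 4)) ^ 2 *
          (3000 * x ^ (η / 4)) * (x ^ (1 / 2 - η) * (x ^ (1 / 2 - η)) ^ 2 *
          x ^ (1 / 4 - η / 2) * (x ^ (1 / 20 - η)) ^ 2 * (x ^ (1 / 20 - η)) ^ 3) := by gcongr
      _ = 3981312000 * (x ^ (η / 64) * D ^ 7 * x ^ (η / 1000) * (x ^ (η / 4)) ^ 2 *
          x ^ (η / 4) * (x ^ (1 / 2 - η) * (x ^ (1 / 2 - η)) ^ 2 *
          x ^ (1 / 4 - η / 2) * (x ^ (1 / 20 - η)) ^ 2 * (x ^ (1 / 20 - η)) ^ 3)) := by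
        ring
      _ = 3981312000 * x ^ (η / 64 + η / 1000 * 7 + η / 1000 + η / 4 * 2 + η / 4 +
          (1 / 2 - η + (1 / 2 - η) * 2 + (1 / 4 - η / 2) +
          (1 / 20 - η) * 2 + (1 / 20 - η) * 3)) := by
        rw [hD]
        simp only [← Real.rpow_natCast, ← Real.rpow_mul hx0.le, ← Real.rpow_add hx0]
        norm_num
      _ ≤ x ^ (2 - η / 2) / 4 := by
        rw [le_div_iff₀ (by norm_num)]
        calc _ = 15925248000 * x ^ (η / 64 + η / 1000 * 7 + η / 1000 + η / 4 * 2 + η / 4 +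
          (1 / 2 - η + (1 / 2 - η) * 2 + (1 / 4 - η / 2) +
          (1 / 20 - η) * 2 + (1 / 20 - η) * 3)) := by ring
          _ ≤ _ := NUM_mul hx hK (by norm_num) (by linarith)
  have t4 : 144 * D ^ 7 * ℓ * (V * L) * (V * (Q * a * b * e * f)) * P *
      (e * re * b * f ^ 2 * rf) ≤ x ^ (2 - η / 2) / 4 := by
    calc 144 * D ^ 7 * ℓ * (V * L) * (V * (Q * a * b * e * f)) * P *
      (e * re * b * f ^ 2 * rf) ≤
        144 * D ^ 7 * x ^ (η / 1000) * (96 * x ^ (η / 4)) * (3 * x ^ (1 : ℝ)) *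
          (3000 * x ^ (η / 4)) * (x ^ (1 / 2 - η) *
          x ^ (1 / 4 - η / 2) * x ^ (1 / 20 - η) * (x ^ (1 / 20 - η)) ^ 2 *
          x ^ (1 / 40 - η / 2)) := by gcongr
      _ = 124416000 * (D ^ 7 * x ^ (η / 1000) * x ^ (η / 4) * x ^ (1 : ℝ) *
          x ^ (η / 4) * (x ^ (1 / 2 - η) *
          x ^ (1 / 4 - η / 2) * x ^ (1 / 20 - η) * (x ^ (1 / 20 - η)) ^ 2 *
          x ^ (1 / 40 - η / 2))) := by
        ring
      _ = 124416000 * x ^ (η / 1000 * 7 + η / 1000 + η / 4 + 1 + η / 4 +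
          (1 / 2 - η + (1 / 4 - η / 2) + (1 / 20 - η) + (1 / 20 - η) * 2 +
          (1 / 40 - η / 2))) := by
        rw [hD]
        simp only [← Real.rpow_natCast, ← Real.rpow_mul hx0.le, ← Real.rpow_add hx0]
        norm_num
      _ ≤ x ^ (2 - η / 2) / 4 := by
        rw [le_div_iff₀ (by norm_num)]
        calc _ = 497664000 * x ^ (η / 1000 * 7 + η / 1000 + η / 4 + 1 + η / 4 +
          (1 / 2 - η + (1 / 4 - η / 2) + (1 / 20 - η) + (1 / 20 - η) * 2 +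
          (1 / 40 - η / 2))) := by ring
          _ ≤ _ := NUM_mul hx hK (by norm_num) (by linarith)
  calc _ = 2 * D ^ 2 * (V * L) * (V * (a * b * e * f)) * (a * e) +
      12 * D * (V * L) ^ 2 * P * (a ^ 2 * e * b ^ 2 * f ^ 2) +
      144 * Q * D ^ 7 * ℓ * (V * L) ^ 2 * P * (a * e ^ 2 * re * b ^ 2 * f ^ 3) +
      144 * D ^ 7 * ℓ * (V * L) * (V * (Q * a * b * e * f)) * P *
      (e * re * b * f ^ 2 * rf) := by ring
    _ ≤ _ := by linarith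

theorem box_num (η : ℝ) (hη : 0 < η) (hη1 : η ≤ 1 / 100) : ∃ x0 : ℝ, ∀ x ≥ x0,
    ∀ (X1 X2 q0 h h' r A B E F : ℕ), X1 ≤ X2 → (X2 : ℝ) ≤ 3 * x → 0 < q0 →
      (q0 : ℝ) ≤ x ^ (η / 64) → (h : ℝ) ≤ x ^ (η / 64) → 0 < A → 0 < B → 0 < E → 0 < F →
      (A : ℝ) ≤ x ^ (1 / 2 - η) → (E : ℝ) ≤ x ^ (1 / 2 - η) → (B : ℝ) ≤ x ^ (1 / 20 - η) →
      (F : ℝ) ≤ x ^ (1 / 20 - η) →
      ∀ (α β γ δ : ℕ → ℂ), (∀ n, ‖α n‖ ≤ 1) → (∀ n, ‖β n‖ ≤ 1) → (∀ n, ‖γ n‖ ≤ 1) →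
        (∀ n, ‖δ n‖ ≤ 1) →
        ‖TT X1 X2 ⌊x ^ (1 - η / 8)⌋₊ ⌈16 / η⌉₊ q0 h h' r A B E F
          (16 * (q0 * A * B * E * F) * x ^ (η / 8) / ⌊x ^ (1 - η / 8)⌋₊) α β γ δ‖ ≤
          x ^ (1 - η / 4) := by
  obtain ⟨C, hC0, hC⟩ := Pool.Agent.H5.W.divisor_bound (η / 4000) (by positivity)
  have tt : ∀ c : ℝ, 0 < c → ∀ B : ℝ, ∀ᶠ x : ℝ in Filter.atTop, B ≤ x ^ c := fun c hc B =>
    (tendsto_rpow_atTop hc).eventually_ge_atTop B
  have h5 : ∀ᶠ x : ℝ in Filter.atTop, 1 + 2 * Real.log x ≤ x ^ (η / 1000) := by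
    have e1 := (isLittleO_log_rpow_atTop (show 0 < η / 1000 by positivity)).bound
      (show (0 : ℝ) < 1 / 4 by norm_num)
    filter_upwards [e1, tt (η / 1000) (by positivity) 2, Filter.eventually_ge_atTop (1 : ℝ)]
      with x k1 k2 k3
    rw [Real.norm_eq_abs, Real.norm_eq_abs, abs_of_nonneg (Real.log_nonneg k3),
      abs_of_nonneg (Real.rpow_nonneg (by linarith) _)] at k1
    linarith
  obtain ⟨x0, hx0⟩ := Filter.eventually_atTop.1 ((tt (η / 4) (by positivity) (10 ^ 11)).and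
    ((tt (1 - η / 8) (by linarith) 2).and ((tt (η / 8) (by positivity) (⌈16 / η⌉₊ : ℝ)).and
      ((tt (η / 2000) (by positivity) C).and (h5.and (Filter.eventually_ge_atTop (8 : ℝ)))))))
  refine ⟨x0, fun x hx X1 X2 q0 h h' r A B E F hX hX2 hq hqx hhx hA hB hE hF hAx hEx hBx hFx
    α β γ δ hα hβ hγ hδ => ?_⟩
  obtain ⟨k1, k2, k3, k4, k5, k6⟩ := hx0 x hx
  have hx1 : 1 ≤ x := by linarith
  have hxp : 0 < x := by linarith
  have mono : ∀ {c d : ℝ}, c ≤ d → x ^ c ≤ x ^ d := fun h =>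
    Real.rpow_le_rpow_of_exponent_le hx1 h
  have hpos : ∀ c : ℝ, 0 < x ^ c := fun c => Real.rpow_pos_of_pos hxp c
  have hA1 : (1 : ℝ) ≤ A := by exact_mod_cast hA
  have hB1 : (1 : ℝ) ≤ B := by exact_mod_cast hB
  have hE1 : (1 : ℝ) ≤ E := by exact_mod_cast hE
  have hF1 : (1 : ℝ) ≤ F := by exact_mod_cast hF
  have hq1 : (1 : ℝ) ≤ q0 := by exact_mod_cast hq
  have hX12 : (X1 : ℝ) ≤ X2 := by exact_mod_cast hX
  have hX1 : (0 : ℝ) ≤ X1 := Nat.cast_nonneg _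
  have hj0 : (0 : ℝ) ≤ (⌈16 / η⌉₊ : ℝ) := Nat.cast_nonneg _
  have hh0 : (0 : ℝ) ≤ h := Nat.cast_nonneg _
  have hY1 : x ^ (1 - η / 8) / 2 ≤ (⌊x ^ (1 - η / 8)⌋₊ : ℝ) := by
    have := Nat.lt_floor_add_one (x ^ (1 - η / 8))
    linarith
  have hY2 : (⌊x ^ (1 - η / 8)⌋₊ : ℝ) ≤ x ^ (1 - η / 8) := Nat.floor_le (hpos _).le
  have hY0 : (0 : ℝ) < (⌊x ^ (1 - η / 8)⌋₊ : ℝ) := lt_of_lt_of_le (by linarith) hY1
  have hY0' : 0 < ⌊x ^ (1 - η / 8)⌋₊ := by exact_mod_cast hY0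
  generalize ⌊x ^ (1 - η / 8)⌋₊ = Y at hY1 hY2 hY0 hY0' ⊢
  generalize ⌈16 / η⌉₊ = j at k3 hj0 ⊢
  have hM0 : (0 : ℝ) < q0 * A * B * E * F := by positivity
  have hS : x ^ (η / 8) / Y ≤ 2 * x ^ (η / 4 - 1) := by
    rw [div_le_iff₀ hY0]
    calc x ^ (η / 8) = 2 * (x ^ (η / 4 - 1) * x ^ (1 - η / 8)) / 2 := by
          rw [← Real.rpow_add hxp]
          ring_nf
      _ = 2 * x ^ (η / 4 - 1) * (x ^ (1 - η / 8) / 2) := by ring
      _ ≤ _ := mul_le_mul_of_nonneg_left hY1 (by positivity)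
  have hS0 : 0 ≤ x ^ (η / 8) / Y := by positivity
  have hxx : x * x ^ (η / 4 - 1) = x ^ (η / 4) := by
    nth_rewrite 1 [← Real.rpow_one x]
    rw [← Real.rpow_add hxp]
    ring_nf
  have hL : 16 * (q0 * A * B * E * F) * x ^ (η / 8) / Y ≤ 32 * x ^ ((1 : ℝ) / 10) := by
    have e1 : (q0 * A * B * E * F : ℝ) ≤ x ^ (η / 64) * x ^ (1 / 2 - η) * x ^ (1 / 20 - η) *
        x ^ (1 / 2 - η) * x ^ (1 / 20 - η) := by gcongr
    calc 16 * (q0 * A * B * E * F) * x ^ (η / 8) / Y =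
          16 * (q0 * A * B * E * F) * (x ^ (η / 8) / Y) := by ring
      _ ≤ 16 * (x ^ (η / 64) * x ^ (1 / 2 - η) * x ^ (1 / 20 - η) *
        x ^ (1 / 2 - η) * x ^ (1 / 20 - η)) * (2 * x ^ (η / 4 - 1)) := by gcongr
      _ = 32 * (x ^ (η / 64) * x ^ (1 / 2 - η) * x ^ (1 / 20 - η) *
        x ^ (1 / 2 - η) * x ^ (1 / 20 - η) * x ^ (η / 4 - 1)) := by ring
      _ = 32 * x ^ (η / 64 + (1 / 2 - η) + (1 / 20 - η) + (1 / 2 - η) + (1 / 20 - η) +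
          (η / 4 - 1)) := by simp only [← Real.rpow_add hxp]
      _ ≤ 32 * x ^ ((1 : ℝ) / 10) :=
          mul_le_mul_of_nonneg_left (mono (by linarith)) (by norm_num)
  have hL0 : 0 ≤ 16 * (q0 * A * B * E * F) * x ^ (η / 8) / Y := by positivity
  have hDiv : ∀ n : ℕ, 1 ≤ n → (n : ℝ) ≤ 16 * (16 * (q0 * A * B * E * F) * x ^ (η / 8) / Y + 1) *
      B * E * F ^ 2 → (n.divisors.card : ℝ) ≤ x ^ (η / 1000) := by
    intro n hn hn2
    have e0 : (1 : ℝ) ≤ x ^ ((1 : ℝ) / 10) := Real.one_le_rpow hx1 (by norm_num)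
    have e1 : (n : ℝ) ≤ x ^ (2 : ℝ) := by
      calc (n : ℝ) ≤ 16 * (16 * (q0 * A * B * E * F) * x ^ (η / 8) / Y + 1) *
            B * E * F ^ 2 := hn2
        _ ≤ 16 * (33 * x ^ ((1 : ℝ) / 10)) * x ^ (1 / 20 - η) * x ^ (1 / 2 - η) *
            (x ^ (1 / 20 - η)) ^ 2 := by
            gcongr
            linarith
        _ = 528 * (x ^ ((1 : ℝ) / 10) * x ^ (1 / 20 - η) * x ^ (1 / 2 - η) *
            (x ^ (1 / 20 - η)) ^ 2) := by ring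
        _ = 528 * x ^ (1 / 10 + (1 / 20 - η) + (1 / 2 - η) + (1 / 20 - η) * 2) := by
            simp only [← Real.rpow_natCast, ← Real.rpow_mul hxp.le, ← Real.rpow_add hxp]
            norm_num
        _ ≤ x ^ (2 : ℝ) := NUM_mul hx1 k1 (by norm_num) (by linarith)
    calc (n.divisors.card : ℝ) ≤ C * (n : ℝ) ^ (η / 4000) := hC n hn
      _ ≤ x ^ (η / 2000) * (x ^ (2 : ℝ)) ^ (η / 4000) := by
          gcongr
      _ = x ^ (η / 1000) := by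
          rw [← Real.rpow_mul hxp.le, ← Real.rpow_add hxp]
          ring_nf
  have hmain := (box_bound X1 X2 Y j q0 h h' r A B E F hX hY0' hq hA hB hE hF _
    (x ^ (η / 1000)) hL0 (Real.one_le_rpow hx1 (by positivity)) hDiv α β γ δ hα hβ hγ hδ).trans
    (NUM_real (x := x) (η := η) hη hη1 hx1 k1 hA1 hB1 hE1 hF1 hq1
      (div_nonneg (by linarith) hM0.le) hL0 (by positivity)
      (by
        have : 0 ≤ Real.log (8 * E * F ^ 2 * q0) := Real.log_nonneg (by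
          calc (1 : ℝ) ≤ 8 * 1 * 1 ^ 2 * 1 := by norm_num
            _ ≤ 8 * E * F ^ 2 * q0 := by gcongr)
        linarith) (Real.sqrt_nonneg _) (Real.sqrt_nonneg _)
      ?_ ?_ ?_ rfl ?_ hqx hAx hEx hBx hFx ?_ ?_)
  · have e3 : (x ^ (1 - η / 4)) ^ 2 = x ^ (2 - η / 2) := by
      rw [← Real.rpow_natCast, ← Real.rpow_mul hxp.le]
      push_cast
      ring_nf
    rw [← e3] at hmain
    exact (pow_le_pow_iff_left₀ (norm_nonneg _) (hpos _).le two_ne_zero).1 hmain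
  · calc ((X2 : ℝ) - X1) / (q0 * A * B * E * F) *
          (16 * (q0 * A * B * E * F) * x ^ (η / 8) / Y) =
          ((X2 : ℝ) - X1) * 16 * (x ^ (η / 8) / Y) := by
          field_simp
      _ ≤ (3 * x) * 16 * (2 * x ^ (η / 4 - 1)) := by
          have : (X2 : ℝ) - X1 ≤ 3 * x := by linarith
          gcongr
      _ = 96 * (x * x ^ (η / 4 - 1)) := by ring
      _ = 96 * x ^ (η / 4) := by rw [hxx]
  · rw [div_mul_cancel₀ _ hM0.ne']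
    linarith
  · have e1 : (j : ℝ) * Y ≤ x := by
      calc (j : ℝ) * Y ≤ x ^ (η / 8) * x ^ (1 - η / 8) := by gcongr
        _ = x := by
          rw [← Real.rpow_add hxp, add_sub_cancel, Real.rpow_one]
    have e2 : (h : ℝ) ≤ x := by
      calc (h : ℝ) ≤ x ^ (η / 64) := hhx
        _ ≤ x ^ (1 : ℝ) := mono (by linarith)
        _ = x := Real.rpow_one x
    have e3 : (1 : ℝ) ≤ x ^ (η / 4) := Real.one_le_rpow hx1 (by positivity)
    have e4 : Real.pi ≤ 4 := Real.pi_le_four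
    calc 3 + 4 * Real.pi * (X2 + j * Y + h) * (16 * (q0 * A * B * E * F) * x ^ (η / 8) / Y) /
            (q0 * A * B * E * F) =
          3 + 64 * Real.pi * (X2 + j * Y + h) * (x ^ (η / 8) / Y) := by
          field_simp
          ring
      _ ≤ 3 + 64 * 4 * (5 * x) * (2 * x ^ (η / 4 - 1)) := by
          have : (X2 : ℝ) + j * Y + h ≤ 5 * x := by linarith
          gcongr
      _ = 3 + 2560 * (x * x ^ (η / 4 - 1)) := by ring
      _ = 3 + 2560 * x ^ (η / 4) := by rw [hxx]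
      _ ≤ 3000 * x ^ (η / 4) := by linarith
  · have e1 : (8 * E * F ^ 2 * q0 : ℝ) ≤ x ^ 2 := by
      calc (8 * E * F ^ 2 * q0 : ℝ) ≤ x * x ^ (1 / 2 - η) * (x ^ (1 / 20 - η)) ^ 2 *
            x ^ (η / 64) := by gcongr
        _ = x * (x ^ (1 / 2 - η) * (x ^ (1 / 20 - η)) ^ 2 * x ^ (η / 64)) := by ring
        _ = x * x ^ (1 / 2 - η + (1 / 20 - η) * 2 + η / 64) := by
            simp only [← Real.rpow_natCast, ← Real.rpow_mul hxp.le, ← Real.rpow_add hxp]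
            norm_num
        _ ≤ x * x ^ (1 : ℝ) := mul_le_mul_of_nonneg_left (mono (by linarith)) hxp.le
        _ = x ^ 2 := by rw [Real.rpow_one]; ring
    have e2 : Real.log (8 * E * F ^ 2 * q0) ≤ 2 * Real.log x := by
      calc Real.log (8 * E * F ^ 2 * q0) ≤ Real.log (x ^ 2) :=
            Real.log_le_log (by positivity) e1
        _ = 2 * Real.log x := by rw [Real.log_pow]; norm_num
    linarith
  · rw [Real.sqrt_le_left (hpos _).le, ← Real.rpow_natCast, ← Real.rpow_mul hxp.le]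
    refine hEx.trans (le_of_eq ?_)
    push_cast
    ring_nf
  · rw [Real.sqrt_le_left (hpos _).le, ← Real.rpow_natCast, ← Real.rpow_mul hxp.le]
    refine hFx.trans (le_of_eq ?_)
    push_cast
    ring_nf

end Pool.Agent.H11.PX
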