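import Pool.Agent.H11.PX.Exb

/-!
# [H11 PX PAI] The product of two phases and the off-diagonal integer

Let `g = gcd(f, f')`, `f1 = f/g`, `f2 = f'/g`, `Q1 = e lcm(f, f') = e g f1 f2`, `Q = Q1 q0`,
`u = ci .. b e f l`, `u' = ci .. b' e f' l'`.

Proof.  Take `c = f2 u - f1 u'`.
(1) Identity.  `a` is coprime to `Q` iff it is coprime to `e f q0` and to `e f' q0`.  If so, let `ā` be the
value of the inverse modulo `Q`, `ā1` modulo `e f q0`: `ā ≡ ā1 (mod e f q0)`, so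
`f2 u ā / Q - u ā1/(e f q0) = f2 u (ā - ā1)/Q` is an integer (`Q = f2 * (e f q0)`); the same for `f'`;
`conj (e1 t) = e1 (-t)`.
(2) Divisibility.  `Q1` is squarefree (`e f`, `e f'` squarefree, `gcd(f1, f2) = 1`; `f2 ∣ f'` is coprime to `g`
and to `e`, ...), so it suffices: every prime `p` with `p ∣ Q1`, `p ∣ c` divides
`c0 = l b' f2 - l' b f1`.  (`Int.gcd c Q1` is squarefree; use `Nat.Coprime`/`UniqueFactorizationMonoid`
`Squarefree.dvd_of...` or: a squarefree number divides `n` iff all its prime factors do,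
`Nat.Squarefree`...  `Nat.squarefree_iff`, `UniqueFactorizationMonoid.dvd_of_squarefree..`.)
Let `κ = h - h'`, `k = kp (e f) ..`, `k' = kp (e f') ..`; `b u ≡ - l k (mod e f q0)` and `k ≡ κ (mod e f)`, so
`b u ≡ -l κ (mod e f)`; `b' u' ≡ - l' κ (mod e f')`.
 * `p ∣ e f` and `p ∣ e f'`: `0 ≡ b b' c = f2 b' (b u) - f1 b (b' u') ≡ -κ (f2 b' l - f1 b l') = -κ c0`,
   and `p ∤ κ`: `p ∣ c0`.
 * `p ∣ f1`, `p ∤ e f'`: `p ∣ f2 u`, `p ∤ f2`, `p ∣ u`, so `p ∣ l κ`, `p ∣ l`, and `p ∣ f1`: `p ∣ c0`.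
 * `p ∣ f2`, `p ∤ e f`: symmetric.
 (Every prime divisor of `Q1` is in one of these cases.)
-/

namespace Pool.Agent.H11.PX

open Finset

theorem pai_inv (q a : ℕ) (hq : 0 < q) (h : Nat.Coprime a q) :
    (q : ℤ) ∣ (a : ℤ) * ((((a : ZMod q))⁻¹).val : ℤ) - 1 := by
  have : NeZero q := ⟨hq.ne'⟩
  rw [← ZMod.intCast_zmod_eq_zero_iff_dvd]
  push_cast
  rw [ZMod.natCast_zmod_val, ZMod.coe_mul_inv_eq_one a h, sub_self]

theorem pai_e1 (s t : ℝ) (n : ℤ) (h : s = t + n) : e1 s = e1 t := by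
  rw [h, e1_add, e1_int, mul_one]

theorem pai_quot (m k a : ℕ) (hm : 0 < m) (hk : 0 < k) (h : Nat.Coprime a (m * k)) :
    ∃ n : ℤ, ((((a : ZMod (m * k)))⁻¹).val : ℝ) = ((((a : ZMod m))⁻¹).val : ℝ) + m * n := by
  have h1 := pai_inv (m * k) a (Nat.mul_pos hm hk) h
  have hc : Nat.Coprime a m := Nat.Coprime.coprime_mul_right_right h
  have h2 := pai_inv m a hm hc
  have h3 : (m : ℤ) ∣ (a : ℤ) * (((((a : ZMod (m * k)))⁻¹).val : ℤ) -
      ((((a : ZMod m))⁻¹).val : ℤ)) := by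
    have h4 : (m : ℤ) ∣ (a : ℤ) * ((((a : ZMod (m * k)))⁻¹).val : ℤ) - 1 :=
      (Dvd.intro _ (by push_cast; rfl)).trans h1
    have h5 := dvd_sub h4 h2
    have h6 : (a : ℤ) * ((((a : ZMod (m * k)))⁻¹).val : ℤ) - 1 -
        ((a : ℤ) * ((((a : ZMod m))⁻¹).val : ℤ) - 1) =
        (a : ℤ) * (((((a : ZMod (m * k)))⁻¹).val : ℤ) - ((((a : ZMod m))⁻¹).val : ℤ)) := by
      ring
    rwa [h6] at h5
  have h7 : IsCoprime (m : ℤ) (a : ℤ) := (Nat.isCoprime_iff_coprime.mpr hc).symm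
  obtain ⟨n, hn⟩ := h7.dvd_of_dvd_mul_left h3
  refine ⟨n, ?_⟩
  have h8 : ((((a : ZMod (m * k)))⁻¹).val : ℤ) = ((((a : ZMod m))⁻¹).val : ℤ) + m * n := by
    linarith
  exact_mod_cast h8

theorem pai_phase (m1 k1 m2 k2 : ℕ) (u u' : ℤ) (hQ : m1 * k1 = m2 * k2) (hm1 : 0 < m1)
    (hk1 : 0 < k1) (hm2 : 0 < m2) (hk2 : 0 < k2) (hd : k1 ∣ m2) (a : ℕ) :
    ei m1 u a * (starRingEnd ℂ) (ei m2 u' a) = ei (m1 * k1) (k1 * u - k2 * u') a := by
  by_cases ha : Nat.Coprime a (m1 * k1)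
  · have ha1 : Nat.Coprime a m1 := Nat.Coprime.coprime_mul_right_right ha
    have ha' := ha
    rw [hQ] at ha'
    have ha2 : Nat.Coprime a m2 := Nat.Coprime.coprime_mul_right_right ha'
    obtain ⟨n1, hn1⟩ := pai_quot m1 k1 a hm1 hk1 ha
    obtain ⟨n2, hn2⟩ := pai_quot m2 k2 a hm2 hk2 ha'
    rw [ei, ei, ei, if_pos ha, if_pos ha1, if_pos ha2, ← e1_neg, ← e1_add]
    symm
    refine pai_e1 _ _ (u * n1 - u' * n2) ?_
    have hQr : (m1 : ℝ) * k1 = m2 * k2 := by exact_mod_cast hQ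
    have e1' : (m1 : ℝ) ≠ 0 := by positivity
    have e2' : (m2 : ℝ) ≠ 0 := by positivity
    have e3' : (k1 : ℝ) ≠ 0 := by positivity
    have e4' : (k2 : ℝ) ≠ 0 := by positivity
    have h5 : ((((a : ZMod (m1 * k1)))⁻¹).val : ℝ) = ((((a : ZMod (m2 * k2)))⁻¹).val : ℝ) := by
      rw [hQ]
    have h6 : ((k1 * u - k2 * u' : ℤ) : ℝ) * ((((a : ZMod (m1 * k1)))⁻¹).val : ℝ) /
        ((m1 * k1 : ℕ) : ℝ) = (u : ℝ) * ((((a : ZMod (m1 * k1)))⁻¹).val : ℝ) / m1 -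
          (u' : ℝ) * ((((a : ZMod (m1 * k1)))⁻¹).val : ℝ) / m2 := by
      have h7 : ((m1 * k1 : ℕ) : ℝ) = (m1 : ℝ) * k1 := by push_cast; ring
      rw [h7]
      have h8 : (u : ℝ) * ((((a : ZMod (m1 * k1)))⁻¹).val : ℝ) / m1 =
          (k1 * u : ℝ) * ((((a : ZMod (m1 * k1)))⁻¹).val : ℝ) / (m1 * k1) := by
        field_simp
      have h9 : (u' : ℝ) * ((((a : ZMod (m1 * k1)))⁻¹).val : ℝ) / m2 =
          (k2 * u' : ℝ) * ((((a : ZMod (m1 * k1)))⁻¹).val : ℝ) / (m1 * k1) := by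
        rw [hQr]
        field_simp
      rw [h8, h9]
      push_cast
      ring
    rw [h6]
    have h10 : (u : ℝ) * ((((a : ZMod (m1 * k1)))⁻¹).val : ℝ) / m1 =
        (u : ℝ) * ((((a : ZMod m1))⁻¹).val : ℝ) / m1 + u * n1 := by
      rw [hn1]
      field_simp
    have h11 : (u' : ℝ) * ((((a : ZMod (m1 * k1)))⁻¹).val : ℝ) / m2 =
        (u' : ℝ) * ((((a : ZMod m2))⁻¹).val : ℝ) / m2 + u' * n2 := by
      rw [h5, hn2]
      field_simp
    rw [h10, h11]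
    push_cast
    ring
  · have h1 : ¬ (Nat.Coprime a m1 ∧ Nat.Coprime a m2) := by
      rintro ⟨h2, h3⟩
      exact ha (Nat.Coprime.mul_right h2 (Nat.Coprime.coprime_dvd_right hd h3))
    rw [ei, ei, ei, if_neg ha]
    by_cases h2 : Nat.Coprime a m1
    · have h3 : ¬ Nat.Coprime a m2 := fun h => h1 ⟨h2, h⟩
      rw [if_neg h3, map_zero, mul_zero]
    · rw [if_neg h2, zero_mul]

theorem pai_kp (m q0 h h' r : ℕ) (hc : Nat.Coprime m q0) :
    (m : ℤ) ∣ kp m q0 h h' r - ((h : ℤ) - h') := by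
  have H : ∃ k : ℤ, (m : ℤ) ∣ k - ((h : ℤ) - h') ∧ (q0 : ℤ) ∣ k - ((r : ℤ) + h) := by
    obtain ⟨x, y, hxy⟩ := (Nat.isCoprime_iff_coprime.mpr hc : IsCoprime (m : ℤ) (q0 : ℤ))
    refine ⟨((h : ℤ) - h') * (y * q0) + ((r : ℤ) + h) * (x * m), ?_, ?_⟩
    · refine ⟨(((r : ℤ) + h) - ((h : ℤ) - h')) * x, ?_⟩
      have : y * q0 = 1 - x * m := by linarith
      rw [this]
      ring
    · refine ⟨(((h : ℤ) - h') - ((r : ℤ) + h)) * y, ?_⟩
      have : x * m = 1 - y * q0 := by linarith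
      rw [this]
      ring
  rw [kp, dif_pos H]
  exact H.choose_spec.1

/-- `b u ≡ - l κ` modulo `e f` -/
theorem pai_ci (q0 h h' r b e f : ℕ) (l : ℤ) (hq : 0 < q0) (he : 0 < e) (hf : 0 < f)
    (h1 : Nat.Coprime b (e * f * q0)) (c1 : Nat.Coprime (e * f) q0) :
    ((e * f : ℕ) : ℤ) ∣ (b : ℤ) * ci q0 h h' r b e f l + l * ((h : ℤ) - h') := by
  have h2 := pai_inv (e * f * q0) b (Nat.mul_pos (Nat.mul_pos he hf) hq) h1
  have h3 : ((e * f : ℕ) : ℤ) ∣ (b : ℤ) * ((((b : ZMod (e * f * q0)))⁻¹).val : ℤ) - 1 :=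
    (Dvd.intro _ (by push_cast; rfl)).trans h2
  have h4 := pai_kp (e * f) q0 h h' r c1
  rw [ci]
  have h5 : (b : ℤ) * (-l * kp (e * f) q0 h h' r * ((((b : ZMod (e * f * q0)))⁻¹).val : ℤ)) +
      l * ((h : ℤ) - h') = (-l * kp (e * f) q0 h h' r) *
        ((b : ℤ) * ((((b : ZMod (e * f * q0)))⁻¹).val : ℤ) - 1) -
        l * (kp (e * f) q0 h h' r - ((h : ℤ) - h')) := by ring
  rw [h5]
  exact dvd_sub (h3.mul_left _) (h4.mul_left _)

theorem pai_sqf_dvd {D n : ℕ} (hD : Squarefree D) (h : ∀ p, p.Prime → p ∣ D → p ∣ n) : D ∣ n := by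
  rw [← Nat.prod_primeFactors_of_squarefree hD]
  refine Finset.prod_primes_dvd n (fun p hp => (Nat.prime_of_mem_primeFactors hp).prime)
    fun p hp => h p (Nat.prime_of_mem_primeFactors hp) (Nat.dvd_of_mem_primeFactors hp)

theorem phase_pair (q0 h h' r b b' e f f' : ℕ) (l l' : ℤ) (hq : 0 < q0) (he : 0 < e)
    (hf : 0 < f) (hf' : 0 < f') (h1 : Nat.Coprime b (e * f * q0))
    (h2 : Nat.Coprime b' (e * f' * q0)) (s1 : Squarefree (e * f)) (s2 : Squarefree (e * f'))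
    (k1 : Nat.Coprime (e * f) ((h : ℤ) - h').natAbs)
    (k2 : Nat.Coprime (e * f') ((h : ℤ) - h').natAbs)
    (c1 : Nat.Coprime (e * f) q0) (c2 : Nat.Coprime (e * f') q0) :
    ∃ c : ℤ, (∀ a : ℕ, ei (e * f * q0) (ci q0 h h' r b e f l) a *
        (starRingEnd ℂ) (ei (e * f' * q0) (ci q0 h h' r b' e f' l') a) =
        ei (e * Nat.lcm f f' * q0) c a) ∧
      Int.gcd c (e * Nat.lcm f f' : ℕ) ∣ Int.gcd (c0 b f l b' f' l') (e * Nat.lcm f f' : ℕ) ∧
      Squarefree (e * Nat.lcm f f') ∧ Nat.Coprime (e * Nat.lcm f f') q0 := by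
  obtain ⟨g, hg⟩ : ∃ g, g = Nat.gcd f f' := ⟨_, rfl⟩
  have hg0 : 0 < g := hg ▸ Nat.gcd_pos_of_pos_left _ hf
  obtain ⟨f1, hf1⟩ : ∃ f1, f1 = f / g := ⟨_, rfl⟩
  obtain ⟨f2, hf2⟩ : ∃ f2, f2 = f' / g := ⟨_, rfl⟩
  have e1' : f = g * f1 := by
    rw [hf1, Nat.mul_div_cancel' (hg ▸ Nat.gcd_dvd_left f f')]
  have e2' : f' = g * f2 := by
    rw [hf2, Nat.mul_div_cancel' (hg ▸ Nat.gcd_dvd_right f f')]
  have hf10 : 0 < f1 := Nat.pos_of_ne_zero (by rintro h; rw [h, mul_zero] at e1'; omega)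
  have hf20 : 0 < f2 := Nat.pos_of_ne_zero (by rintro h; rw [h, mul_zero] at e2'; omega)
  have h12 : Nat.Coprime f1 f2 := by
    rw [hf1, hf2, hg]
    exact Nat.coprime_div_gcd_div_gcd (hg ▸ hg0)
  have hlcm : Nat.lcm f f' = f * f2 := by
    rw [Nat.lcm, ← hg, Nat.mul_div_assoc _ (hg ▸ Nat.gcd_dvd_right f f'), ← hf2]
  have hlcm' : Nat.lcm f f' = f' * f1 := by
    rw [hlcm]
    conv_lhs => rw [e1']
    conv_rhs => rw [e2']
    ring
  have hQm : e * Nat.lcm f f' * q0 = e * f * q0 * f2 := by rw [hlcm]; ring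
  have hQm' : e * f * q0 * f2 = e * f' * q0 * f1 := by
    rw [← hQm, hlcm']
    ring
  have hm : 0 < e * f * q0 := Nat.mul_pos (Nat.mul_pos he hf) hq
  have hm' : 0 < e * f' * q0 := Nat.mul_pos (Nat.mul_pos he hf') hq
  have hf2d : f2 ∣ f' := ⟨g, by rw [e2']; ring⟩
  have hf1d : f1 ∣ f := ⟨g, by rw [e1']; ring⟩
  have hsf' : Squarefree f' := Squarefree.squarefree_of_dvd (Dvd.intro_left e rfl) s2
  have hsf : Squarefree f := Squarefree.squarefree_of_dvd (Dvd.intro_left e rfl) s1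
  have hef' : Nat.Coprime e f' := Nat.coprime_of_squarefree_mul s2
  have hgf2 : Nat.Coprime g f2 := Nat.coprime_of_squarefree_mul (e2' ▸ hsf')
  have hff2 : Nat.Coprime f f2 := by
    rw [e1']
    exact Nat.Coprime.mul_left hgf2 h12
  have hSQ : Squarefree (e * Nat.lcm f f') := by
    have h3 : e * Nat.lcm f f' = (e * f) * f2 := by rw [hlcm]; ring
    rw [h3, Nat.squarefree_mul (Nat.Coprime.mul_left
      (Nat.Coprime.coprime_dvd_right hf2d hef') hff2)]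
    exact ⟨s1, Squarefree.squarefree_of_dvd hf2d hsf'⟩
  have hCQ : Nat.Coprime (e * Nat.lcm f f') q0 := by
    have h3 : e * Nat.lcm f f' = (e * f) * f2 := by rw [hlcm]; ring
    rw [h3]
    exact Nat.Coprime.mul_left c1 (Nat.Coprime.coprime_dvd_left
      (hf2d.trans (Dvd.intro_left e rfl)) c2)
  obtain ⟨u, hu⟩ : ∃ u, u = ci q0 h h' r b e f l := ⟨_, rfl⟩
  obtain ⟨u', hu'⟩ : ∃ u', u' = ci q0 h h' r b' e f' l' := ⟨_, rfl⟩
  have hbu := pai_ci q0 h h' r b e f l hq he hf h1 c1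
  have hbu' := pai_ci q0 h h' r b' e f' l' hq he hf' h2 c2
  rw [← hu] at hbu
  rw [← hu'] at hbu'
  refine ⟨f2 * u - f1 * u', fun a => ?_, ?_, hSQ, hCQ⟩
  · rw [← hu, ← hu', hQm]
    exact pai_phase (e * f * q0) f2 (e * f' * q0) f1 u u' hQm' hm hf20 hm' hf10
      ((hf2d.mul_left e).mul_right q0) a
  · have hc0 : c0 b f l b' f' l' = l * b' * f2 - l' * b * f1 := by
      rw [c0, ← hg, ← hf1, ← hf2]
    have hD1 : Int.gcd ((f2 : ℤ) * u - f1 * u') ((e * Nat.lcm f f' : ℕ) : ℤ) ∣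
        e * Nat.lcm f f' := by
      have := Int.gcd_dvd_right ((f2 : ℤ) * u - f1 * u') ((e * Nat.lcm f f' : ℕ) : ℤ)
      exact_mod_cast this
    have hD2 : ((Int.gcd ((f2 : ℤ) * u - f1 * u') ((e * Nat.lcm f f' : ℕ) : ℤ) : ℕ) : ℤ) ∣
        (f2 : ℤ) * u - f1 * u' := Int.gcd_dvd_left _ _
    have hDs := Squarefree.squarefree_of_dvd hD1 hSQ
    have key : Int.gcd ((f2 : ℤ) * u - f1 * u') ((e * Nat.lcm f f' : ℕ) : ℤ) ∣
        (c0 b f l b' f' l').natAbs := by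
      refine pai_sqf_dvd hDs fun p hp hpD => ?_
      rw [← Int.natCast_dvd_natCast, Int.dvd_natAbs]
      have hpi : Prime (p : ℤ) := Nat.prime_iff_prime_int.mp hp
      have hpc : (p : ℤ) ∣ (f2 : ℤ) * u - f1 * u' :=
        (Int.natCast_dvd_natCast.mpr hpD).trans hD2
      have hpQ : p ∣ e * Nat.lcm f f' := hpD.trans hD1
      rw [hc0]
      by_cases hp1 : p ∣ e * f
      · have hk : ¬ (p : ℤ) ∣ ((h : ℤ) - h') := by
          intro hh
          have h3 : p ∣ ((h : ℤ) - h').natAbs := Int.natCast_dvd.mp hh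
          exact Nat.Prime.one_lt hp |>.ne' (Nat.dvd_one.mp (k1 ▸ Nat.dvd_gcd hp1 h3))
        have hp1i : (p : ℤ) ∣ (b : ℤ) * u + l * ((h : ℤ) - h') :=
          (Int.natCast_dvd_natCast.mpr hp1).trans hbu
        by_cases hp2 : p ∣ e * f'
        · have hp2i : (p : ℤ) ∣ (b' : ℤ) * u' + l' * ((h : ℤ) - h') :=
            (Int.natCast_dvd_natCast.mpr hp2).trans hbu'
          have h4 : (p : ℤ) ∣ ((h : ℤ) - h') * (l * b' * f2 - l' * b * f1) := by
            have h5 : ((h : ℤ) - h') * (l * b' * f2 - l' * b * f1) =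
                (f2 * b') * ((b : ℤ) * u + l * ((h : ℤ) - h')) -
                (f1 * b) * ((b' : ℤ) * u' + l' * ((h : ℤ) - h')) -
                (b * b') * ((f2 : ℤ) * u - f1 * u') := by ring
            rw [h5]
            exact dvd_sub (dvd_sub (hp1i.mul_left _) (hp2i.mul_left _)) (hpc.mul_left _)
          rcases hpi.dvd_or_dvd h4 with h6 | h6
          · exact absurd h6 hk
          · exact h6
        · have hpf1 : p ∣ f1 := by
            rw [hlcm', ← mul_assoc] at hpQ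
            rcases (Nat.Prime.dvd_mul hp).mp hpQ with h5 | h5
            · exact absurd h5 hp2
            · exact h5
          have hpf1i : (p : ℤ) ∣ (f1 : ℤ) := Int.natCast_dvd_natCast.mpr hpf1
          have hpf2 : ¬ (p : ℤ) ∣ (f2 : ℤ) := fun h5 =>
            hp2 (((Int.natCast_dvd_natCast.mp h5).trans hf2d).mul_left e)
          have h6 : (p : ℤ) ∣ (f2 : ℤ) * u := by
            have := dvd_add hpc (hpf1i.mul_right u')
            rwa [sub_add_cancel] at this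
          have h7 : (p : ℤ) ∣ u := (hpi.dvd_or_dvd h6).resolve_left hpf2
          have h8 : (p : ℤ) ∣ l * ((h : ℤ) - h') := by
            have := dvd_sub hp1i (h7.mul_left (b : ℤ))
            rwa [add_sub_cancel_left] at this
          have h9 : (p : ℤ) ∣ l := (hpi.dvd_or_dvd h8).resolve_right hk
          exact dvd_sub ((h9.mul_right _).mul_right _) (hpf1i.mul_left _)
      · have hpf2 : p ∣ f2 := by
          rw [hlcm, ← mul_assoc] at hpQ
          rcases (Nat.Prime.dvd_mul hp).mp hpQ with h5 | h5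
          · exact absurd h5 hp1
          · exact h5
        have hp2 : p ∣ e * f' := (hpf2.trans hf2d).mul_left e
        have hk : ¬ (p : ℤ) ∣ ((h : ℤ) - h') := by
          intro hh
          have h3 : p ∣ ((h : ℤ) - h').natAbs := Int.natCast_dvd.mp hh
          exact Nat.Prime.one_lt hp |>.ne' (Nat.dvd_one.mp (k2 ▸ Nat.dvd_gcd hp2 h3))
        have hp2i : (p : ℤ) ∣ (b' : ℤ) * u' + l' * ((h : ℤ) - h') :=
          (Int.natCast_dvd_natCast.mpr hp2).trans hbu'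
        have hpf2i : (p : ℤ) ∣ (f2 : ℤ) := Int.natCast_dvd_natCast.mpr hpf2
        have hpf1 : ¬ (p : ℤ) ∣ (f1 : ℤ) := fun h5 =>
          hp1 (((Int.natCast_dvd_natCast.mp h5).trans hf1d).mul_left e)
        have h6 : (p : ℤ) ∣ (f1 : ℤ) * u' := by
          have := dvd_sub (hpf2i.mul_right u) hpc
          rwa [sub_sub_cancel] at this
        have h7 : (p : ℤ) ∣ u' := (hpi.dvd_or_dvd h6).resolve_left hpf1
        have h8 : (p : ℤ) ∣ l' * ((h : ℤ) - h') := by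
          have := dvd_sub hp2i (h7.mul_left (b' : ℤ))
          rwa [add_sub_cancel_left] at this
        have h9 : (p : ℤ) ∣ l' := (hpi.dvd_or_dvd h8).resolve_right hk
        exact dvd_sub (hpf2i.mul_left _) ((h9.mul_right _).mul_right _)
    have key2 : Int.gcd ((f2 : ℤ) * u - f1 * u') ((e * Nat.lcm f f' : ℕ) : ℤ) ∣
        Nat.gcd (c0 b f l b' f' l').natAbs (e * Nat.lcm f f') := Nat.dvd_gcd key hD1
    exact key2

end Pool.Agent.H11.PX
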