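import Pool.Agent.H11.PX.Fou

/-!
# [H11 PX PHA] The phase as a function of `a`

Proof.  Let `k = kp (e f) q0 h h' r`: since `e f` and `q0` are coprime an integer as in the definition
exists, so `e f ∣ k - (h - h')`, `q0 ∣ k - (r + h)`.  Put `P = e f q0`, `M = q0 a b e f = (a b) P`, `a b`
coprime to `P`.  Let `n` be an integer with `n ≡ k (a b)⁻¹ (mod P)` and `ν = a b n - h`.  Then
`ν ≡ -h (mod a b)`, `ν ≡ k - h ≡ - h' (mod e f)`, `ν ≡ k - h ≡ r (mod q0)`; by the Chinese remainder theorem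
(`a b`, `e f`, `q0` pairwise coprime) `jn ... N = [N ≡ ν (mod M)]`.
Phase: `e1(-l ν/M) = e1(l h/M) e1(-l n/P)` and `-l n ≡ -l k b̄ ā (mod P)` with `b̄ = ((b : ZMod P)⁻¹).val`,
`ā = ((a : ZMod P)⁻¹).val`, so `e1(-l n/P) = e1(ci * ā / P) = ei P (ci ..) a` (`a` coprime to `P`), using
`e1_add`, `e1_int`.  `(1/M) wh(l/M) e1(l h/M) = gg .. (q0 b e f) l a` (`M = (q0 b e f) a`).  Now
`smooth_res`.
-/

namespace Pool.Agent.H11.PX

open Finset

private theorem pha_kp {m q0 : ℕ} (hmq : Nat.Coprime m q0) (h h' r : ℕ) :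
    (m : ℤ) ∣ kp m q0 h h' r - ((h : ℤ) - h') ∧ (q0 : ℤ) ∣ kp m q0 h h' r - ((r : ℤ) + h) := by
  have H : ∃ k : ℤ, (m : ℤ) ∣ k - ((h : ℤ) - h') ∧ (q0 : ℤ) ∣ k - ((r : ℤ) + h) := by
    obtain ⟨s, t, hst⟩ := Nat.isCoprime_iff_coprime.2 hmq
    refine ⟨((h : ℤ) - h') * (t * q0) + ((r : ℤ) + h) * (s * m),
      ⟨s * (((r : ℤ) + h) - ((h : ℤ) - h')), ?_⟩, ⟨t * (((h : ℤ) - h') - ((r : ℤ) + h)), ?_⟩⟩
    · linear_combination ((h : ℤ) - h') * hst
    · linear_combination ((r : ℤ) + h) * hst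
  unfold kp
  rw [dif_pos H]
  exact H.choose_spec

private theorem pha_inv {a P : ℕ} (hP : 0 < P) (h : Nat.Coprime a P) :
    (P : ℤ) ∣ (a : ℤ) * ((((a : ZMod P))⁻¹).val : ℤ) - 1 := by
  have hne : NeZero P := ⟨hP.ne'⟩
  rw [← ZMod.intCast_zmod_eq_zero_iff_dvd]
  push_cast
  rw [ZMod.natCast_zmod_val, ZMod.coe_mul_inv_eq_one a h, sub_self]

theorem count_eq (X1 X2 Y j q0 h h' r a b e f : ℕ) (hX : X1 ≤ X2) (hY : 0 < Y) (hq : 0 < q0)
    (ha : 0 < a) (hb : 0 < b) (he : 0 < e) (hf : 0 < f)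
    (hc : cnd q0 ((h : ℤ) - h').natAbs a b e f) (L ρ : ℝ) (hL0 : 0 ≤ L)
    (hL : L < ((q0 * a * b * e * f : ℕ) : ℝ) / 2) (hρ0 : 0 ≤ ρ)
    (hρ : ∀ l : ℕ, L < l → ((q0 * a * b * e * f : ℕ) : ℝ) / (2 * Y * l) ≤ ρ) :
    ‖((sav X1 X2 Y j (jn q0 h h' r a b e f) : ℝ) : ℂ) -
        ((((X2 : ℝ) - X1) / (q0 * a * b * e * f : ℕ) : ℝ) : ℂ) -
        ∑ l ∈ fr L, ei (e * f * q0) (ci q0 h h' r b e f l) a *
          gg X1 X2 Y j h (q0 * b * e * f) l a‖ ≤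
      ((X2 : ℝ) - X1) * ρ ^ j := by
  classical
  obtain ⟨c1, c2, -, -⟩ := hc
  have hP : 0 < e * f * q0 := by positivity
  have hM : 0 < q0 * a * b * e * f := by positivity
  have cefq : Nat.Coprime (e * f) q0 := by
    have h1 : e * f ∣ a * b * e * f := ⟨a * b, by ring⟩
    exact Nat.Coprime.coprime_dvd_left h1 c2
  have cabq : Nat.Coprime (a * b) q0 := by
    have h1 : a * b ∣ a * b * e * f := ⟨e * f, by ring⟩
    exact Nat.Coprime.coprime_dvd_left h1 c2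
  have cabP : Nat.Coprime (a * b) (e * f * q0) := Nat.Coprime.mul_right c1 cabq
  have caP : Nat.Coprime a (e * f * q0) := Nat.Coprime.coprime_dvd_left ⟨b, rfl⟩ cabP
  have cbP : Nat.Coprime b (e * f * q0) := Nat.Coprime.coprime_dvd_left ⟨a, mul_comm _ _⟩ cabP
  obtain ⟨k, hk⟩ : ∃ k : ℤ, k = kp (e * f) q0 h h' r := ⟨_, rfl⟩
  obtain ⟨ai, hai⟩ : ∃ ai : ℤ, ai = ((((a : ZMod (e * f * q0)))⁻¹).val : ℤ) := ⟨_, rfl⟩
  obtain ⟨bi, hbi⟩ : ∃ bi : ℤ, bi = ((((b : ZMod (e * f * q0)))⁻¹).val : ℤ) := ⟨_, rfl⟩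
  obtain ⟨k1, k2⟩ := pha_kp cefq h h' r
  rw [← hk] at k1 k2
  have ia := pha_inv hP caP
  have ib := pha_inv hP cbP
  rw [← hai] at ia
  rw [← hbi] at ib
  -- a b n is congruent to k modulo P
  have hn : ((e * f * q0 : ℕ) : ℤ) ∣ (a : ℤ) * b * (k * bi * ai) - k := by
    obtain ⟨u, hu⟩ := ia
    obtain ⟨v, hv⟩ := ib
    refine ⟨k * (b * bi) * u + k * v, ?_⟩
    linear_combination (k * (b * bi)) * hu + k * hv
  have hn1 : ((e * f : ℕ) : ℤ) ∣ (a : ℤ) * b * (k * bi * ai) - ((h : ℤ) - h') := by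
    have h1 : ((e * f : ℕ) : ℤ) ∣ ((e * f * q0 : ℕ) : ℤ) := by
      exact_mod_cast Dvd.intro q0 rfl
    have h2 := dvd_add (h1.trans hn) k1
    have h3 : (a : ℤ) * b * (k * bi * ai) - k + (k - ((h : ℤ) - h')) =
      (a : ℤ) * b * (k * bi * ai) - ((h : ℤ) - h') := by ring
    rwa [h3] at h2
  have hn2 : ((q0 : ℕ) : ℤ) ∣ (a : ℤ) * b * (k * bi * ai) - ((r : ℤ) + h) := by
    have h1 : ((q0 : ℕ) : ℤ) ∣ ((e * f * q0 : ℕ) : ℤ) := by
      exact_mod_cast Dvd.intro_left (e * f) rfl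
    have h2 := dvd_add (h1.trans hn) k2
    have h3 : (a : ℤ) * b * (k * bi * ai) - k + (k - ((r : ℤ) + h)) =
      (a : ℤ) * b * (k * bi * ai) - ((r : ℤ) + h) := by ring
    rwa [h3] at h2
  have hjn : jn q0 h h' r a b e f = fun N : ℕ =>
      if (N : ℤ) ≡ (a : ℤ) * b * (k * bi * ai) - h [ZMOD ((q0 * a * b * e * f : ℕ) : ℤ)]
        then (1 : ℝ) else 0 := by
    funext N
    unfold jn
    congr 1
    apply propext
    have hD : ∀ m : ℤ, ((N : ℤ) ≡ (a : ℤ) * b * (k * bi * ai) - h [ZMOD m]) ↔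
        m ∣ ((N : ℤ) + h) - (a : ℤ) * b * (k * bi * ai) := by
      intro m
      rw [Int.modEq_iff_dvd, ← dvd_neg]
      have : -((a : ℤ) * b * (k * bi * ai) - h - N) =
        ((N : ℤ) + h) - (a : ℤ) * b * (k * bi * ai) := by ring
      rw [this]
    rw [hD]
    constructor
    · rintro ⟨h1, h2, h3⟩
      have d1 : ((q0 : ℕ) : ℤ) ∣ ((N : ℤ) + h) - (a : ℤ) * b * (k * bi * ai) := by
        have h4 : ((q0 : ℕ) : ℤ) ∣ (r : ℤ) - N := Nat.modEq_iff_dvd.1 h1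
        have h5 := dvd_neg.2 (dvd_add h4 hn2)
        have h6 : -((r : ℤ) - N + ((a : ℤ) * b * (k * bi * ai) - ((r : ℤ) + h))) =
          ((N : ℤ) + h) - (a : ℤ) * b * (k * bi * ai) := by ring
        rwa [h6] at h5
      have d2 : ((a * b : ℕ) : ℤ) ∣ ((N : ℤ) + h) - (a : ℤ) * b * (k * bi * ai) := by
        have h4 : ((a * b : ℕ) : ℤ) ∣ ((N + h : ℕ) : ℤ) := by exact_mod_cast h2
        have h5 : ((a * b : ℕ) : ℤ) ∣ (a : ℤ) * b * (k * bi * ai) :=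
          ⟨k * bi * ai, by push_cast; ring⟩
        have h6 := dvd_sub h4 h5
        push_cast at h6 ⊢
        exact h6
      have d3 : ((e * f : ℕ) : ℤ) ∣ ((N : ℤ) + h) - (a : ℤ) * b * (k * bi * ai) := by
        have h4 : ((e * f : ℕ) : ℤ) ∣ ((N + h' : ℕ) : ℤ) := by exact_mod_cast h3
        have h5 := dvd_sub h4 hn1
        have h6 : ((N + h' : ℕ) : ℤ) - ((a : ℤ) * b * (k * bi * ai) - ((h : ℤ) - h')) =
          ((N : ℤ) + h) - (a : ℤ) * b * (k * bi * ai) := by push_cast; ring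
        rwa [h6] at h5
      have e1 : IsCoprime ((e * f : ℕ) : ℤ) ((q0 : ℕ) : ℤ) := Nat.isCoprime_iff_coprime.2 cefq
      have e2 : IsCoprime ((a * b : ℕ) : ℤ) ((e * f * q0 : ℕ) : ℤ) :=
        Nat.isCoprime_iff_coprime.2 cabP
      have e3 := e1.mul_dvd d3 d1
      have e4 : ((e * f * q0 : ℕ) : ℤ) ∣ ((N : ℤ) + h) - (a : ℤ) * b * (k * bi * ai) := by
        have : ((e * f * q0 : ℕ) : ℤ) = ((e * f : ℕ) : ℤ) * ((q0 : ℕ) : ℤ) := by push_cast; ring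
        rw [this]
        exact e3
      have e5 := e2.mul_dvd d2 e4
      have e6 : ((q0 * a * b * e * f : ℕ) : ℤ) = ((a * b : ℕ) : ℤ) * ((e * f * q0 : ℕ) : ℤ) := by
        push_cast
        ring
      rw [e6]
      exact e5
    · intro hd
      have t1 : ((q0 : ℕ) : ℤ) ∣ ((q0 * a * b * e * f : ℕ) : ℤ) :=
        ⟨(a * b * e * f : ℤ), by push_cast; ring⟩
      have t2 : ((a * b : ℕ) : ℤ) ∣ ((q0 * a * b * e * f : ℕ) : ℤ) :=
        ⟨(q0 * e * f : ℤ), by push_cast; ring⟩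
      have t3 : ((e * f : ℕ) : ℤ) ∣ ((q0 * a * b * e * f : ℕ) : ℤ) :=
        ⟨(q0 * a * b : ℤ), by push_cast; ring⟩
      refine ⟨?_, ?_, ?_⟩
      · have h5 := dvd_neg.2 (dvd_add (t1.trans hd) hn2)
        have h6 : -(((N : ℤ) + h) - (a : ℤ) * b * (k * bi * ai) +
            ((a : ℤ) * b * (k * bi * ai) - ((r : ℤ) + h))) = (r : ℤ) - N := by ring
        rw [h6] at h5
        exact Nat.modEq_iff_dvd.2 h5
      · have h5 : ((a * b : ℕ) : ℤ) ∣ (a : ℤ) * b * (k * bi * ai) :=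
          ⟨k * bi * ai, by push_cast; ring⟩
        have h6 := dvd_add (t2.trans hd) h5
        have h7 : ((N : ℤ) + h) - (a : ℤ) * b * (k * bi * ai) + (a : ℤ) * b * (k * bi * ai) =
          ((N + h : ℕ) : ℤ) := by push_cast; ring
        rw [h7] at h6
        exact_mod_cast h6
      · have h6 := dvd_add (t3.trans hd) hn1
        have h7 : ((N : ℤ) + h) - (a : ℤ) * b * (k * bi * ai) +
            ((a : ℤ) * b * (k * bi * ai) - ((h : ℤ) - h')) = ((N + h' : ℕ) : ℤ) := by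
          push_cast
          ring
        rw [h7] at h6
        exact_mod_cast h6
  have hmain := smooth_res X1 X2 Y j hX hY (q0 * a * b * e * f) hM
    ((a : ℤ) * b * (k * bi * ai) - h) L ρ hL0 hL hρ0 hρ
  have hsum : ∑ l ∈ fr L, ei (e * f * q0) (ci q0 h h' r b e f l) a *
      gg X1 X2 Y j h (q0 * b * e * f) l a =
      (1 / ((q0 * a * b * e * f : ℕ) : ℂ)) * ∑ l ∈ fr L,
        e1 (-(l : ℝ) * (((a : ℤ) * b * (k * bi * ai) - h : ℤ) : ℝ) / (q0 * a * b * e * f : ℕ)) *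
          wh X1 X2 Y j ((l : ℝ) / (q0 * a * b * e * f : ℕ)) := by
    rw [Finset.mul_sum]
    refine Finset.sum_congr rfl fun l _ => ?_
    have ha' : (a : ℝ) ≠ 0 := by exact_mod_cast ha.ne'
    have hb' : (b : ℝ) ≠ 0 := by exact_mod_cast hb.ne'
    have he' : (e : ℝ) ≠ 0 := by exact_mod_cast he.ne'
    have hf' : (f : ℝ) ≠ 0 := by exact_mod_cast hf.ne'
    have hq' : (q0 : ℝ) ≠ 0 := by exact_mod_cast hq.ne'
    unfold ei gg
    rw [if_pos caP]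
    have m1 : ((q0 * b * e * f : ℕ) : ℝ) * a = ((q0 * a * b * e * f : ℕ) : ℝ) := by
      push_cast
      ring
    have m2 : ((q0 * b * e * f : ℕ) : ℂ) * a = ((q0 * a * b * e * f : ℕ) : ℂ) := by
      push_cast
      ring
    rw [m1, m2]
    have m3 : e1 (-(l : ℝ) * (((a : ℤ) * b * (k * bi * ai) - h : ℤ) : ℝ) /
        (q0 * a * b * e * f : ℕ)) =
        e1 (((ci q0 h h' r b e f l : ℤ) : ℝ) * (((((a : ZMod (e * f * q0)))⁻¹).val : ℕ) : ℝ) /
          (e * f * q0 : ℕ)) * e1 ((l : ℝ) * h / (q0 * a * b * e * f : ℕ)) := by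
      rw [← e1_add]
      congr 1
      have m4 : (((((a : ZMod (e * f * q0)))⁻¹).val : ℕ) : ℝ) = (ai : ℝ) := by
        rw [hai]
        push_cast
        rfl
      have m5 : ((ci q0 h h' r b e f l : ℤ) : ℝ) = -(l : ℝ) * k * bi := by
        unfold ci
        rw [← hk, ← hbi]
        push_cast
        ring
      rw [m4, m5]
      push_cast
      field_simp
      ring
    rw [m3]
    ring
  rw [hjn, hsum]
  exact hmain

end Pool.Agent.H11.PX
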