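import Pool.Agent.H11.PX.Eib
import Pool.Agent.H11.PX.Pai
import Pool.Agent.H11.PX.Abl
import Pool.Agent.H11.PX.Gva

/-!
# [H11 PX PSU] The sum over `a` for a pair of inner indices

`M0 = q0 A B E F`, `X = X2 - X1`, `Ξ = X2 + j Y + h`, `Q1 = e lcm(f, f')`, `G = gcd(c0, Q1)`.

Proof.  `pair_triv`: each factor `‖ei‖ ≤ 1`, `‖gg‖ ≤ X/(m a) ≤ X/M0` (`gg_norm`, `m = q0 b e f ≥ q0 B E F`,
`a ≥ A`), `A` terms.  `pair_sum`: by `phase_pair` the summand is `ei (Q1 q0) c a * H a`,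
`H a = gg a * conj (gg' a)`.  Partial sums over `Ico A t`, `t ≤ 2A`: `ei_bound` with `M = A - 1`, `N = t - A ≤ A`
(`A ≥ 1`) and `Int.gcd c Q1 ≤ G` (divisibility; `G > 0` as `Q1 > 0`):
`Z = A G/Q1 + q0 τ(Q1) √Q1 √G (1 + log (Q1 q0))`.  `‖H‖ ≤ (X/M0)^2`, and
`‖H(a+1) - H(a)‖ ≤ 2 (X/M0) (X/M0) (1/A) (1 + 2 π Ξ L/M0)` (`gg_norm`, `gg_diff`, `|l|, |l'| ≤ L`,
`X/(m a^2) ≤ X/(M0 A)`).  `abel_bound`: `Z ((X/M0)^2 + A * 2 (X/M0)^2 (1/A) (1 + 2πΞL/M0))`.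
-/

namespace Pool.Agent.H11.PX

open Finset

private theorem norm_ei_le (q : ℕ) (c : ℤ) (a : ℕ) : ‖ei q c a‖ ≤ 1 := by
  unfold ei
  split_ifs
  · rw [norm_e1]
  · simp

/-- the size of the denominators -/
private theorem den_le {q0 A B E F b e f a : ℕ} (hb : B ≤ b) (he : E ≤ e) (hf : F ≤ f)
    (ha : A ≤ a) :
    (q0 * A * B * E * F : ℝ) ≤ ((q0 * b * e * f : ℕ) : ℝ) * (a : ℝ) := by
  have h1 : q0 * A * B * E * F ≤ (q0 * b * e * f) * a := by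
    have h2 : q0 * A * B * E * F = (q0 * B * E * F) * A := by ring
    rw [h2]
    gcongr
  calc (q0 * A * B * E * F : ℝ) = ((q0 * A * B * E * F : ℕ) : ℝ) := by push_cast; ring
    _ ≤ (((q0 * b * e * f) * a : ℕ) : ℝ) := by exact_mod_cast h1
    _ = ((q0 * b * e * f : ℕ) : ℝ) * (a : ℝ) := by push_cast; ring

private theorem gg_le {X1 X2 Y j h q0 A B E F b e f a : ℕ} {l : ℤ} (hX : X1 ≤ X2)
    (hq : 0 < q0) (hA : 0 < A) (hB : 0 < B) (hE : 0 < E) (hF : 0 < F)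
    (hb : B ≤ b) (he : E ≤ e) (hf : F ≤ f) (ha : A ≤ a) :
    ‖gg X1 X2 Y j h (q0 * b * e * f) l a‖ ≤ ((X2 : ℝ) - X1) / (q0 * A * B * E * F) := by
  have hX' : (0 : ℝ) ≤ (X2 : ℝ) - X1 := sub_nonneg.2 (by exact_mod_cast hX)
  have hm : 0 < q0 * b * e * f := by
    have h1 : 0 < b := lt_of_lt_of_le hB hb
    have h2 : 0 < e := lt_of_lt_of_le hE he
    have h3 : 0 < f := lt_of_lt_of_le hF hf
    positivity
  refine (gg_norm X1 X2 Y j h _ hX hm l a (lt_of_lt_of_le hA ha)).trans ?_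
  have hpos : (0 : ℝ) < q0 * A * B * E * F := by positivity
  exact div_le_div_of_nonneg_left hX' hpos (den_le hb he hf ha)

private theorem gg_diff_le {X1 X2 Y j h q0 A B E F b e f a : ℕ} {l : ℤ} {L : ℝ}
    (hX : X1 ≤ X2) (hY : 0 < Y)
    (hq : 0 < q0) (hA : 0 < A) (hB : 0 < B) (hE : 0 < E) (hF : 0 < F)
    (hb : B ≤ b) (he : E ≤ e) (hf : F ≤ f) (ha : A ≤ a) (hl : |(l : ℝ)| ≤ L) :
    ‖gg X1 X2 Y j h (q0 * b * e * f) l (a + 1) - gg X1 X2 Y j h (q0 * b * e * f) l a‖ ≤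
      (((X2 : ℝ) - X1) / (q0 * A * B * E * F)) * (1 / A) *
        (1 + 2 * Real.pi * (X2 + j * Y + h) * L / (q0 * A * B * E * F)) := by
  have hX' : (0 : ℝ) ≤ (X2 : ℝ) - X1 := sub_nonneg.2 (by exact_mod_cast hX)
  have hL : 0 ≤ L := (abs_nonneg _).trans hl
  have hm : 0 < q0 * b * e * f := by
    have h1 : 0 < b := lt_of_lt_of_le hB hb
    have h2 : 0 < e := lt_of_lt_of_le hE he
    have h3 : 0 < f := lt_of_lt_of_le hF hf
    positivity
  refine (gg_diff X1 X2 Y j h _ hX hY hm l a (lt_of_lt_of_le hA ha)).trans ?_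
  have hA' : (0 : ℝ) < A := by exact_mod_cast hA
  have hpos : (0 : ℝ) < q0 * A * B * E * F := by positivity
  have hden := den_le (q0 := q0) hb he hf ha
  have haA : (A : ℝ) ≤ a := by exact_mod_cast ha
  have h1 : ((X2 : ℝ) - X1) / (((q0 * b * e * f : ℕ) : ℝ) * (a : ℝ) ^ 2) ≤
      (((X2 : ℝ) - X1) / (q0 * A * B * E * F)) * (1 / A) := by
    have h2 : (((X2 : ℝ) - X1) / (q0 * A * B * E * F)) * (1 / A) =
        ((X2 : ℝ) - X1) / ((q0 * A * B * E * F) * A) := by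
      field_simp
    rw [h2]
    refine div_le_div_of_nonneg_left hX' (by positivity) ?_
    calc (q0 * A * B * E * F : ℝ) * A ≤ (((q0 * b * e * f : ℕ) : ℝ) * (a : ℝ)) * a := by
          gcongr
      _ = ((q0 * b * e * f : ℕ) : ℝ) * (a : ℝ) ^ 2 := by ring
  have h3 : 2 * Real.pi * (X2 + j * Y + h) * |(l : ℝ)| /
      (((q0 * b * e * f : ℕ) : ℝ) * (a : ℝ)) ≤
      2 * Real.pi * (X2 + j * Y + h) * L / (q0 * A * B * E * F) := by
    have hpi := Real.pi_pos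
    gcongr
  have h4 : (0 : ℝ) ≤ 2 * Real.pi * (X2 + j * Y + h) * |(l : ℝ)| /
      (((q0 * b * e * f : ℕ) : ℝ) * (a : ℝ)) := by
    have hpi := Real.pi_pos
    positivity
  have h5 : (0 : ℝ) ≤ (((X2 : ℝ) - X1) / (q0 * A * B * E * F)) * (1 / A) := by positivity
  exact mul_le_mul h1 (by linarith) (by linarith) h5

theorem pair_triv (X1 X2 Y j q0 h h' r A B E F b b' e f f' : ℕ) (l l' : ℤ) (hX : X1 ≤ X2)
    (hq : 0 < q0) (hA : 0 < A) (hB : 0 < B) (hE : 0 < E) (hF : 0 < F)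
    (hb : b ∈ Ico B (2 * B)) (hb' : b' ∈ Ico B (2 * B)) (he : e ∈ Ico E (2 * E))
    (hf : f ∈ Ico F (2 * F)) (hf' : f' ∈ Ico F (2 * F)) :
    ‖∑ a ∈ Ico A (2 * A),
      (ei (e * f * q0) (ci q0 h h' r b e f l) a * gg X1 X2 Y j h (q0 * b * e * f) l a) *
      (starRingEnd ℂ) (ei (e * f' * q0) (ci q0 h h' r b' e f' l') a *
        gg X1 X2 Y j h (q0 * b' * e * f') l' a)‖ ≤
      A * (((X2 : ℝ) - X1) / (q0 * A * B * E * F)) ^ 2 := by
  have hX' : (0 : ℝ) ≤ (X2 : ℝ) - X1 := sub_nonneg.2 (by exact_mod_cast hX)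
  have hcard : (Ico A (2 * A)).card = A := by
    rw [Nat.card_Ico]
    omega
  have hbd : ∀ a ∈ Ico A (2 * A),
      ‖(ei (e * f * q0) (ci q0 h h' r b e f l) a * gg X1 X2 Y j h (q0 * b * e * f) l a) *
      (starRingEnd ℂ) (ei (e * f' * q0) (ci q0 h h' r b' e f' l') a *
        gg X1 X2 Y j h (q0 * b' * e * f') l' a)‖ ≤
      (((X2 : ℝ) - X1) / (q0 * A * B * E * F)) ^ 2 := by
    intro a ha
    have haA := (mem_Ico.1 ha).1
    have g1 := gg_le (Y := Y) (j := j) (h := h) (l := l) hX hq hA hB hE hF (mem_Ico.1 hb).1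
      (mem_Ico.1 he).1 (mem_Ico.1 hf).1 haA
    have g2 := gg_le (Y := Y) (j := j) (h := h) (l := l') hX hq hA hB hE hF (mem_Ico.1 hb').1
      (mem_Ico.1 he).1 (mem_Ico.1 hf').1 haA
    have e1' := norm_ei_le (e * f * q0) (ci q0 h h' r b e f l) a
    have e2' := norm_ei_le (e * f' * q0) (ci q0 h h' r b' e f' l') a
    have hR : (0 : ℝ) ≤ ((X2 : ℝ) - X1) / (q0 * A * B * E * F) := by positivity
    rw [norm_mul, RCLike.norm_conj, norm_mul, norm_mul, sq]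
    refine mul_le_mul ?_ ?_ (by positivity) hR
    · calc _ ≤ 1 * (((X2 : ℝ) - X1) / (q0 * A * B * E * F)) :=
            mul_le_mul e1' g1 (norm_nonneg _) zero_le_one
        _ = _ := one_mul _
    · calc _ ≤ 1 * (((X2 : ℝ) - X1) / (q0 * A * B * E * F)) :=
            mul_le_mul e2' g2 (norm_nonneg _) zero_le_one
        _ = _ := one_mul _
  refine (norm_sum_le_of_le _ hbd).trans ?_
  rw [sum_const, hcard, nsmul_eq_mul]

theorem pair_sum (X1 X2 Y j q0 h h' r A B E F b b' e f f' : ℕ) (l l' : ℤ) (L : ℝ)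
    (hX : X1 ≤ X2) (hY : 0 < Y) (hq : 0 < q0) (hA : 0 < A) (hB : 0 < B) (hE : 0 < E)
    (hF : 0 < F) (hb : b ∈ Ico B (2 * B)) (hb' : b' ∈ Ico B (2 * B))
    (he : e ∈ Ico E (2 * E)) (hf : f ∈ Ico F (2 * F)) (hf' : f' ∈ Ico F (2 * F))
    (hl : |(l : ℝ)| ≤ L) (hl' : |(l' : ℝ)| ≤ L)
    (h1 : Nat.Coprime b (e * f * q0)) (h2 : Nat.Coprime b' (e * f' * q0))
    (s1 : Squarefree (e * f)) (s2 : Squarefree (e * f'))
    (k1 : Nat.Coprime (e * f) ((h : ℤ) - h').natAbs)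
    (k2 : Nat.Coprime (e * f') ((h : ℤ) - h').natAbs)
    (c1 : Nat.Coprime (e * f) q0) (c2 : Nat.Coprime (e * f') q0) :
    ‖∑ a ∈ Ico A (2 * A),
      (ei (e * f * q0) (ci q0 h h' r b e f l) a * gg X1 X2 Y j h (q0 * b * e * f) l a) *
      (starRingEnd ℂ) (ei (e * f' * q0) (ci q0 h h' r b' e f' l') a *
        gg X1 X2 Y j h (q0 * b' * e * f') l' a)‖ ≤
      (((X2 : ℝ) - X1) / (q0 * A * B * E * F)) ^ 2 *
        (3 + 4 * Real.pi * (X2 + j * Y + h) * L / (q0 * A * B * E * F)) *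
        (A * (Int.gcd (c0 b f l b' f' l') (e * Nat.lcm f f' : ℕ) : ℝ) / (e * Nat.lcm f f' : ℕ) +
          q0 * (e * Nat.lcm f f').divisors.card * √((e * Nat.lcm f f' : ℕ) : ℝ) *
            √(Int.gcd (c0 b f l b' f' l') (e * Nat.lcm f f' : ℕ) : ℝ) *
            (1 + Real.log ((e * Nat.lcm f f' * q0 : ℕ) : ℝ))) := by
  have hX' : (0 : ℝ) ≤ (X2 : ℝ) - X1 := sub_nonneg.2 (by exact_mod_cast hX)
  have hL : 0 ≤ L := (abs_nonneg _).trans hl
  have hpi := Real.pi_pos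
  have hBb := (mem_Ico.1 hb).1
  have hBb' := (mem_Ico.1 hb').1
  have hEe := (mem_Ico.1 he).1
  have hFf := (mem_Ico.1 hf).1
  have hFf' := (mem_Ico.1 hf').1
  have he0 : 0 < e := lt_of_lt_of_le hE hEe
  have hf0 : 0 < f := lt_of_lt_of_le hF hFf
  have hf0' : 0 < f' := lt_of_lt_of_le hF hFf'
  obtain ⟨c, hc, hdvd, hsq, hcop⟩ := phase_pair q0 h h' r b b' e f f' l l' hq he0 hf0 hf0'
    h1 h2 s1 s2 k1 k2 c1 c2
  set Q1 : ℕ := e * Nat.lcm f f' with hQ1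
  have hQpos : 0 < Q1 := Nat.mul_pos he0 (Nat.lcm_pos hf0 hf0')
  set Gn : ℕ := Int.gcd (c0 b f l b' f' l') (Q1 : ℕ) with hGn
  have hGpos : 0 < Gn := Int.gcd_pos_of_ne_zero_right _ (by exact_mod_cast hQpos.ne')
  have hgle : (Int.gcd c (Q1 : ℕ) : ℝ) ≤ (Gn : ℝ) := by
    exact_mod_cast Nat.le_of_dvd hGpos hdvd
  have hlog : (0 : ℝ) ≤ Real.log ((Q1 * q0 : ℕ) : ℝ) := by
    apply Real.log_nonneg
    exact_mod_cast Nat.mul_pos hQpos hq
  set R : ℝ := ((X2 : ℝ) - X1) / (q0 * A * B * E * F) with hRdef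
  have hA' : (0 : ℝ) < A := by exact_mod_cast hA
  have hR : 0 ≤ R := by positivity
  set K : ℝ := 2 * Real.pi * (X2 + j * Y + h) * L / (q0 * A * B * E * F) with hK
  have hK0 : 0 ≤ K := by positivity
  set Z : ℝ := A * (Gn : ℝ) / (Q1 : ℕ) +
          q0 * Q1.divisors.card * √((Q1 : ℕ) : ℝ) * √(Gn : ℝ) *
            (1 + Real.log ((Q1 * q0 : ℕ) : ℝ)) with hZdef
  have hZ0 : 0 ≤ Z := by positivity
  -- rewriting of the sum
  have hsum : ∑ a ∈ Ico A (2 * A),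
      (ei (e * f * q0) (ci q0 h h' r b e f l) a * gg X1 X2 Y j h (q0 * b * e * f) l a) *
      (starRingEnd ℂ) (ei (e * f' * q0) (ci q0 h h' r b' e f' l') a *
        gg X1 X2 Y j h (q0 * b' * e * f') l' a) =
      ∑ a ∈ Ico A (2 * A), ei (Q1 * q0) c a *
        (gg X1 X2 Y j h (q0 * b * e * f) l a *
          (starRingEnd ℂ) (gg X1 X2 Y j h (q0 * b' * e * f') l' a)) := by
    refine sum_congr rfl fun a _ => ?_
    rw [← hc a, map_mul]
    ring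
  rw [hsum]
  have hZ : ∀ t, A ≤ t → t ≤ 2 * A → ‖∑ a ∈ Ico A t, ei (Q1 * q0) c a‖ ≤ Z := by
    intro t ht1 ht2
    have hI : Ico A t = Ioc (A - 1) (A - 1 + (t - A)) := by
      ext x
      simp only [mem_Ico, mem_Ioc]
      omega
    rw [hI]
    refine (ei_bound Q1 q0 hQpos hq hsq hcop c (A - 1) (t - A)).trans ?_
    have htA : ((t - A : ℕ) : ℝ) ≤ A := by
      have : t - A ≤ A := by omega
      exact_mod_cast this
    rw [hZdef]
    gcongr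
  have hS : ∀ a ∈ Ico A (2 * A), ‖gg X1 X2 Y j h (q0 * b * e * f) l a *
      (starRingEnd ℂ) (gg X1 X2 Y j h (q0 * b' * e * f') l' a)‖ ≤ R ^ 2 := by
    intro a ha
    have haA := (mem_Ico.1 ha).1
    have g1 := gg_le (Y := Y) (j := j) (h := h) (l := l) hX hq hA hB hE hF hBb hEe hFf haA
    have g2 := gg_le (Y := Y) (j := j) (h := h) (l := l') hX hq hA hB hE hF hBb' hEe hFf' haA
    rw [norm_mul, RCLike.norm_conj, sq]
    exact mul_le_mul g1 g2 (norm_nonneg _) hR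
  have hV : ∀ a ∈ Ico A (2 * A), ‖gg X1 X2 Y j h (q0 * b * e * f) l (a + 1) *
      (starRingEnd ℂ) (gg X1 X2 Y j h (q0 * b' * e * f') l' (a + 1)) -
      gg X1 X2 Y j h (q0 * b * e * f) l a *
      (starRingEnd ℂ) (gg X1 X2 Y j h (q0 * b' * e * f') l' a)‖ ≤
      2 * (R ^ 2 * (1 / A) * (1 + K)) := by
    intro a ha
    have haA := (mem_Ico.1 ha).1
    have g1 := gg_le (Y := Y) (j := j) (h := h) (l := l) hX hq hA hB hE hF hBb hEe hFf haA
    have g2 := gg_le (Y := Y) (j := j) (h := h) (l := l') hX hq hA hB hE hF hBb' hEe hFf'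
      (haA.trans (Nat.le_succ a))
    have d1 := gg_diff_le (j := j) (h := h) (l := l) (L := L) hX hY hq hA hB hE hF hBb hEe hFf
      haA hl
    have d2 := gg_diff_le (j := j) (h := h) (l := l') (L := L) hX hY hq hA hB hE hF hBb' hEe
      hFf' haA hl'
    have hid : gg X1 X2 Y j h (q0 * b * e * f) l (a + 1) *
        (starRingEnd ℂ) (gg X1 X2 Y j h (q0 * b' * e * f') l' (a + 1)) -
        gg X1 X2 Y j h (q0 * b * e * f) l a *
        (starRingEnd ℂ) (gg X1 X2 Y j h (q0 * b' * e * f') l' a) =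
        (gg X1 X2 Y j h (q0 * b * e * f) l (a + 1) - gg X1 X2 Y j h (q0 * b * e * f) l a) *
          (starRingEnd ℂ) (gg X1 X2 Y j h (q0 * b' * e * f') l' (a + 1)) +
        gg X1 X2 Y j h (q0 * b * e * f) l a *
          (starRingEnd ℂ) (gg X1 X2 Y j h (q0 * b' * e * f') l' (a + 1) -
            gg X1 X2 Y j h (q0 * b' * e * f') l' a) := by
      rw [map_sub]
      ring
    rw [hid]
    refine (norm_add_le _ _).trans ?_
    rw [norm_mul, norm_mul, RCLike.norm_conj, RCLike.norm_conj]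
    have hRK : 0 ≤ R * (1 / A) * (1 + K) := by positivity
    have t1 : ‖gg X1 X2 Y j h (q0 * b * e * f) l (a + 1) -
        gg X1 X2 Y j h (q0 * b * e * f) l a‖ *
        ‖gg X1 X2 Y j h (q0 * b' * e * f') l' (a + 1)‖ ≤ (R * (1 / A) * (1 + K)) * R :=
      mul_le_mul d1 g2 (norm_nonneg _) hRK
    have t2 : ‖gg X1 X2 Y j h (q0 * b * e * f) l a‖ *
        ‖gg X1 X2 Y j h (q0 * b' * e * f') l' (a + 1) -
            gg X1 X2 Y j h (q0 * b' * e * f') l' a‖ ≤ R * (R * (1 / A) * (1 + K)) :=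
      mul_le_mul g1 d2 (norm_nonneg _) hR
    calc _ ≤ (R * (1 / A) * (1 + K)) * R + R * (R * (1 / A) * (1 + K)) := add_le_add t1 t2
      _ = 2 * (R ^ 2 * (1 / A) * (1 + K)) := by ring
  have hmain := abel_bound (fun a => ei (Q1 * q0) c a)
    (fun a => gg X1 X2 Y j h (q0 * b * e * f) l a *
      (starRingEnd ℂ) (gg X1 X2 Y j h (q0 * b' * e * f') l' a)) A (2 * A) (by omega) Z (R ^ 2)
    (2 * (R ^ 2 * (1 / A) * (1 + K))) hZ0 (by positivity) (by positivity) hZ hS hV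
  refine hmain.trans (le_of_eq ?_)
  have hcast : (((2 * A : ℕ) : ℝ) - A) = A := by
    push_cast
    ring
  rw [hcast]
  have h4 : 4 * Real.pi * (X2 + j * Y + h) * L / (q0 * A * B * E * F) = 2 * K := by
    rw [hK]
    ring
  rw [h4]
  have h5 : (A : ℝ) * (2 * (R ^ 2 * (1 / A) * (1 + K))) = 2 * R ^ 2 * (1 + K) := by
    field_simp
  rw [h5]
  ring

end Pool.Agent.H11.PX
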