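import Pool.Agent.H11.PX.Num
import Pool.Agent.H11.PX.Pha

/-!
# [H11 PX SUM] Dyadic decomposition: the smooth form of the theorem

`NA = ⌊x^(1/2-η)⌋`, `NB = ⌊x^(1/20-η)⌋`, `Y = ⌊x^(1-η/8)⌋`, `j = ⌈16/η⌉`.

Proof.  Replace `α` by `α * 1[a ≤ NA]` etc.  Every `a ∈ [1, NA]` lies in exactly one `Ico 2^i 2^(i+1)`, `i ≤ log2 x`,
with `2^i ≤ x^(1/2-η)`.  For the box `(A,B,E,F)` of powers of two take `L = 16 (q0 A B E F) x^(η/8)/Y` and
`ρ = x^(-η/8)`: for `M = q0 a b e f ∈ [q0 ABEF, 16 q0 ABEF)`: `L < M/2` (`Y > 32 x^(η/8)` for `x` large) and for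
`l > L` (`l ≥ 1`; if `L = 0`... `L > 0`) `M/(2 Y l) ≤ 16 q0ABEF/(2 Y L) = 1/(2 x^(η/8)) ≤ ρ`.  `count_eq`: the
bracket equals the oscillating sum up to `X ρ^j ≤ 3x x^(-(η/8)(16/η)) = 3 x^(-1)`.  So the total is at most
`∑_{boxes} ‖TT‖ + NA^2 NB^2 3/x ≤ (1 + log2 x)^4 x^(1-η/4) + 3 x^(0.1) ≤ x^(1-η/8)`.
-/

namespace Pool.Agent.H11.PX

open Finset

private theorem sum_ext (N : ℕ) (F : ℕ → ℂ) (h : ∀ a, N < a → F a = 0) :
    ∑ a ∈ Icc 1 N, F a =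
      ∑ i ∈ range (Nat.log 2 N + 1), ∑ a ∈ Ico (2 ^ i) (2 * 2 ^ i), F a := by
  have h1 : ∀ K : ℕ, ∑ i ∈ range K, ∑ a ∈ Ico (2 ^ i) (2 * 2 ^ i), F a =
      ∑ a ∈ Ico 1 (2 ^ K), F a := by
    intro K
    induction K with
    | zero => simp
    | succ K ih =>
      rw [Finset.sum_range_succ, ih, pow_succ' 2 K, Finset.sum_Ico_consecutive]
      · exact Nat.one_le_two_pow
      · exact Nat.le_mul_of_pos_left _ two_pos
  rw [h1]
  have h2 := Nat.lt_pow_succ_log_self (b := 2) one_lt_two N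
  refine Finset.sum_subset (fun a ha => ?_) (fun a ha hna => h a ?_)
  · rw [Finset.mem_Icc] at ha
    rw [Finset.mem_Ico]
    exact ⟨ha.1, ha.2.trans_lt h2⟩
  · rw [Finset.mem_Ico] at ha
    by_contra hc
    exact hna (Finset.mem_Icc.2 ⟨ha.1, not_lt.1 hc⟩)

private theorem sum_step {ι : Type*} (s : Finset ι) (N : ℕ) (F : ι → ℕ → ℂ)
    (h : ∀ x a, N < a → F x a = 0) :
    ∑ x ∈ s, ∑ a ∈ Icc 1 N, F x a =
      ∑ i ∈ range (Nat.log 2 N + 1), ∑ x ∈ s, ∑ a ∈ Ico (2 ^ i) (2 * 2 ^ i), F x a := by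
  rw [Finset.sum_comm, sum_ext N (fun a => ∑ x ∈ s, F x a)
    (fun a ha => Finset.sum_eq_zero fun x _ => h x a ha)]
  exact Finset.sum_congr rfl fun i _ => Finset.sum_comm

private theorem sum_ext4 (N N' : ℕ) (F : ℕ → ℕ → ℕ → ℕ → ℂ)
    (h : ∀ a b e f, (N < a ∨ N' < b ∨ N < e ∨ N' < f) → F a b e f = 0) :
    ∑ a ∈ Icc 1 N, ∑ b ∈ Icc 1 N', ∑ e ∈ Icc 1 N, ∑ f ∈ Icc 1 N', F a b e f =
      ∑ i ∈ range (Nat.log 2 N + 1), ∑ j ∈ range (Nat.log 2 N' + 1),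
        ∑ k ∈ range (Nat.log 2 N + 1), ∑ l ∈ range (Nat.log 2 N' + 1),
          ∑ a ∈ Ico (2 ^ i) (2 * 2 ^ i), ∑ b ∈ Ico (2 ^ j) (2 * 2 ^ j),
            ∑ e ∈ Ico (2 ^ k) (2 * 2 ^ k), ∑ f ∈ Ico (2 ^ l) (2 * 2 ^ l), F a b e f := by
  rw [sum_ext N _ (fun a ha => Finset.sum_eq_zero fun b _ => Finset.sum_eq_zero fun e _ =>
    Finset.sum_eq_zero fun f _ => h a b e f (Or.inl ha))]
  refine Finset.sum_congr rfl fun i _ => ?_
  rw [sum_step _ N' _ (fun a b hb => Finset.sum_eq_zero fun e _ =>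
    Finset.sum_eq_zero fun f _ => h a b e f (Or.inr (Or.inl hb)))]
  refine Finset.sum_congr rfl fun j _ => ?_
  have h3 : ∀ a, ∑ b ∈ Ico (2 ^ j) (2 * 2 ^ j), ∑ e ∈ Icc 1 N, ∑ f ∈ Icc 1 N', F a b e f =
      ∑ k ∈ range (Nat.log 2 N + 1), ∑ b ∈ Ico (2 ^ j) (2 * 2 ^ j),
        ∑ e ∈ Ico (2 ^ k) (2 * 2 ^ k), ∑ f ∈ Icc 1 N', F a b e f := fun a =>
    sum_step _ N _ (fun b e he => Finset.sum_eq_zero fun f _ =>
      h a b e f (Or.inr (Or.inr (Or.inl he))))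
  rw [Finset.sum_congr rfl fun a _ => h3 a, Finset.sum_comm]
  refine Finset.sum_congr rfl fun k _ => ?_
  have h4 : ∀ a, ∑ b ∈ Ico (2 ^ j) (2 * 2 ^ j), ∑ e ∈ Ico (2 ^ k) (2 * 2 ^ k),
      ∑ f ∈ Icc 1 N', F a b e f = ∑ l ∈ range (Nat.log 2 N' + 1),
        ∑ b ∈ Ico (2 ^ j) (2 * 2 ^ j), ∑ e ∈ Ico (2 ^ k) (2 * 2 ^ k),
          ∑ f ∈ Ico (2 ^ l) (2 * 2 ^ l), F a b e f := by
    intro a
    rw [Finset.sum_congr rfl fun b _ => sum_step (Ico (2 ^ k) (2 * 2 ^ k)) N' (F a b)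
      (fun e f hf => h a b e f (Or.inr (Or.inr (Or.inr hf)))), Finset.sum_comm]
  rw [Finset.sum_congr rfl fun a _ => h4 a, Finset.sum_comm]

/-- the logarithm is small -/
private theorem sum_log (N : ℕ) (x : ℝ) (hx : 1 ≤ x) (hN : (N : ℝ) ≤ x) :
    ((Nat.log 2 N + 1 : ℕ) : ℝ) ≤ 2 * Real.log x + 1 := by
  push_cast
  have hlog : 0 ≤ Real.log x := Real.log_nonneg hx
  rcases Nat.eq_zero_or_pos N with h0 | h0
  · subst h0
    rw [Nat.log_zero_right, Nat.cast_zero]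
    linarith
  · have h1 : 2 ^ Nat.log 2 N ≤ N := Nat.pow_log_le_self 2 h0.ne'
    have h2 : ((2 : ℝ) ^ Nat.log 2 N) ≤ x := by
      calc ((2 : ℝ) ^ Nat.log 2 N) = ((2 ^ Nat.log 2 N : ℕ) : ℝ) := by push_cast; rfl
        _ ≤ N := by exact_mod_cast h1
        _ ≤ x := hN
    have h3 := Real.log_le_log (by positivity) h2
    rw [Real.log_pow] at h3
    have h4 : (1 / 2 : ℝ) < Real.log 2 := by
      have := Real.log_two_gt_d9
      linarith
    have h5 : (Nat.log 2 N : ℝ) * (1 / 2) ≤ (Nat.log 2 N : ℝ) * Real.log 2 :=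
      mul_le_mul_of_nonneg_left h4.le (Nat.cast_nonneg _)
    linarith

open Classical in
/-- the bound for a box -/
private theorem sum_bx (x : ℝ) (hx : 1 ≤ x) (η : ℝ) (hη : 0 < η) (hη1 : η ≤ 1 / 100)
    (hY : 32 * x ^ (η / 8) < (⌊x ^ (1 - η / 8)⌋₊ : ℝ)) (h3 : 3 ≤ x ^ (4 / 5 : ℝ))
    (X1 X2 q0 h h' r A B E F : ℕ) (hX : X1 ≤ X2) (hX2 : (X2 : ℝ) ≤ 3 * x) (hq0 : 0 < q0)
    (hA0 : 0 < A) (hB0 : 0 < B) (hE0 : 0 < E) (hF0 : 0 < F)
    (hA : (A : ℝ) ≤ x ^ (1 / 2 - η)) (hE : (E : ℝ) ≤ x ^ (1 / 2 - η))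
    (hB : (B : ℝ) ≤ x ^ (1 / 20 - η)) (hF : (F : ℝ) ≤ x ^ (1 / 20 - η))
    (α β γ δ : ℕ → ℂ) (hα : ∀ n, ‖α n‖ ≤ 1) (hβ : ∀ n, ‖β n‖ ≤ 1) (hγ : ∀ n, ‖γ n‖ ≤ 1)
    (hδ : ∀ n, ‖δ n‖ ≤ 1)
    (hT : ‖TT X1 X2 ⌊x ^ (1 - η / 8)⌋₊ ⌈16 / η⌉₊ q0 h h' r A B E F
      (16 * (q0 * A * B * E * F) * x ^ (η / 8) / ⌊x ^ (1 - η / 8)⌋₊) α β γ δ‖ ≤
        x ^ (1 - η / 4)) :
    ‖∑ a ∈ Ico A (2 * A), ∑ b ∈ Ico B (2 * B), ∑ e ∈ Ico E (2 * E), ∑ f ∈ Ico F (2 * F),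
      if cnd q0 ((h : ℤ) - h').natAbs a b e f then
        α a * β b * γ e * δ f *
          (((sav X1 X2 ⌊x ^ (1 - η / 8)⌋₊ ⌈16 / η⌉₊ (jn q0 h h' r a b e f) : ℝ) : ℂ) -
            ((((X2 : ℝ) - X1) / (q0 * a * b * e * f : ℕ) : ℝ) : ℂ))
      else 0‖ ≤ 2 * x ^ (1 - η / 4) := by
  have hx0 : 0 < x := by linarith
  set Y : ℕ := ⌊x ^ (1 - η / 8)⌋₊ with hYd
  set J : ℕ := ⌈16 / η⌉₊ with hJ
  set L : ℝ := 16 * (q0 * A * B * E * F) * x ^ (η / 8) / Y with hL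
  have hpx : 1 ≤ x ^ (η / 8) := Real.one_le_rpow hx (by positivity)
  have hY0 : (0 : ℝ) < Y := by linarith
  have hY1 : 0 < Y := by exact_mod_cast hY0
  have hM0 : (0 : ℝ) < q0 * A * B * E * F := by positivity
  have hL0 : 0 < L := by positivity
  have hLY : L * Y = 16 * (q0 * A * B * E * F) * x ^ (η / 8) := by
    rw [hL]
    field_simp
  have hρ0 : 0 < x ^ (-(η / 8)) := Real.rpow_pos_of_pos hx0 _
  have hρx : x ^ (-(η / 8)) * x ^ (η / 8) = 1 := by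
    rw [← Real.rpow_add hx0, neg_add_cancel, Real.rpow_zero]
  have hX0 : (0 : ℝ) ≤ (X2 : ℝ) - X1 := by
    have : (X1 : ℝ) ≤ X2 := by exact_mod_cast hX
    linarith
  -- the error for one quadruple
  have herr : ((X2 : ℝ) - X1) * (x ^ (-(η / 8))) ^ J ≤ 3 * x ^ (-1 : ℝ) := by
    have h1 : (x ^ (-(η / 8))) ^ J ≤ x ^ (-2 : ℝ) := by
      rw [← Real.rpow_natCast, ← Real.rpow_mul hx0.le]
      apply Real.rpow_le_rpow_of_exponent_le hx
      have h2 : 16 / η ≤ (J : ℝ) := Nat.le_ceil _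
      have h3 : η / 8 * (16 / η) = 2 := by field_simp; norm_num
      have h4 : η / 8 * (16 / η) ≤ η / 8 * J := mul_le_mul_of_nonneg_left h2 (by positivity)
      linarith
    have h2 : (X2 : ℝ) - X1 ≤ 3 * x := by
      have : (0 : ℝ) ≤ X1 := Nat.cast_nonneg _
      linarith
    calc ((X2 : ℝ) - X1) * (x ^ (-(η / 8))) ^ J ≤ (3 * x) * x ^ (-2 : ℝ) :=
          mul_le_mul h2 h1 (by positivity) (by positivity)
      _ = 3 * (x ^ (1 : ℝ) * x ^ (-2 : ℝ)) := by rw [Real.rpow_one]; ring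
      _ = 3 * x ^ (-1 : ℝ) := by
          rw [← Real.rpow_add hx0]
          norm_num
  have hone : ∀ a ∈ Ico A (2 * A), ∀ b ∈ Ico B (2 * B), ∀ e ∈ Ico E (2 * E),
      ∀ f ∈ Ico F (2 * F), cnd q0 ((h : ℤ) - h').natAbs a b e f →
      ‖((sav X1 X2 Y J (jn q0 h h' r a b e f) : ℝ) : ℂ) -
        ((((X2 : ℝ) - X1) / (q0 * a * b * e * f : ℕ) : ℝ) : ℂ) -
        ∑ l ∈ fr L, ei (e * f * q0) (ci q0 h h' r b e f l) a *
          gg X1 X2 Y J h (q0 * b * e * f) l a‖ ≤ 3 * x ^ (-1 : ℝ) := by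
    intro a ha b hb e he f hf hc
    rw [Finset.mem_Ico] at ha hb he hf
    have hMl : (q0 * A * B * E * F : ℝ) ≤ ((q0 * a * b * e * f : ℕ) : ℝ) := by
      have : q0 * A * B * E * F ≤ q0 * a * b * e * f :=
        Nat.mul_le_mul (Nat.mul_le_mul (Nat.mul_le_mul (Nat.mul_le_mul le_rfl ha.1) hb.1) he.1)
          hf.1
      exact_mod_cast this
    have hMu : ((q0 * a * b * e * f : ℕ) : ℝ) ≤ 16 * (q0 * A * B * E * F) := by
      have : q0 * a * b * e * f ≤ q0 * (2 * A) * (2 * B) * (2 * E) * (2 * F) :=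
        Nat.mul_le_mul (Nat.mul_le_mul (Nat.mul_le_mul (Nat.mul_le_mul le_rfl ha.2.le) hb.2.le)
          he.2.le) hf.2.le
      have h2 : q0 * (2 * A) * (2 * B) * (2 * E) * (2 * F) = 16 * (q0 * A * B * E * F) := by ring
      rw [h2] at this
      exact_mod_cast this
    refine (count_eq X1 X2 Y J q0 h h' r a b e f hX hY1 hq0 (hA0.trans_le ha.1)
      (hB0.trans_le hb.1) (hE0.trans_le he.1) (hF0.trans_le hf.1) hc L (x ^ (-(η / 8))) hL0.le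
      ?_ hρ0.le ?_).trans herr
    · -- `L < M / 2`
      have h1 : L * (32 * x ^ (η / 8)) < L * Y := mul_lt_mul_of_pos_left hY hL0
      rw [hLY] at h1
      have h2 : L * 32 < 16 * (q0 * A * B * E * F) := by
        have h3 : (L * 32) * x ^ (η / 8) < (16 * (q0 * A * B * E * F)) * x ^ (η / 8) := by
          linarith
        exact lt_of_mul_lt_mul_right h3 (by positivity)
      linarith
    · intro l hl
      have hl0 : (0 : ℝ) < l := hL0.trans hl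
      rw [div_le_iff₀ (by positivity)]
      have h1 : L * Y ≤ l * Y := mul_le_mul_of_nonneg_right hl.le hY0.le
      rw [hLY] at h1
      have h2 : (16 * (q0 * A * B * E * F) : ℝ) ≤ x ^ (-(η / 8)) * (l * Y) := by
        calc (16 * (q0 * A * B * E * F) : ℝ) =
            x ^ (-(η / 8)) * (16 * (q0 * A * B * E * F) * x ^ (η / 8)) := by
              linear_combination (-(16 * (q0 * A * B * E * F) : ℝ)) * hρx
          _ ≤ x ^ (-(η / 8)) * (l * Y) := mul_le_mul_of_nonneg_left h1 hρ0.le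
      have h3 : 0 ≤ x ^ (-(η / 8)) * (l * Y) := by positivity
      linarith
  -- difference with `TT`
  have hdiff : ∑ a ∈ Ico A (2 * A), ∑ b ∈ Ico B (2 * B), ∑ e ∈ Ico E (2 * E),
      ∑ f ∈ Ico F (2 * F),
      (if cnd q0 ((h : ℤ) - h').natAbs a b e f then
        α a * β b * γ e * δ f *
          (((sav X1 X2 Y J (jn q0 h h' r a b e f) : ℝ) : ℂ) -
            ((((X2 : ℝ) - X1) / (q0 * a * b * e * f : ℕ) : ℝ) : ℂ))
      else 0) = TT X1 X2 Y J q0 h h' r A B E F L α β γ δ +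
      ∑ a ∈ Ico A (2 * A), ∑ b ∈ Ico B (2 * B), ∑ e ∈ Ico E (2 * E), ∑ f ∈ Ico F (2 * F),
      (if cnd q0 ((h : ℤ) - h').natAbs a b e f then
        α a * β b * γ e * δ f *
          (((sav X1 X2 Y J (jn q0 h h' r a b e f) : ℝ) : ℂ) -
            ((((X2 : ℝ) - X1) / (q0 * a * b * e * f : ℕ) : ℝ) : ℂ) -
            ∑ l ∈ fr L, ei (e * f * q0) (ci q0 h h' r b e f l) a *
              gg X1 X2 Y J h (q0 * b * e * f) l a)
      else 0) := by
    unfold TT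
    simp only [← Finset.sum_add_distrib]
    refine Finset.sum_congr rfl fun a _ => Finset.sum_congr rfl fun b _ =>
      Finset.sum_congr rfl fun e _ => Finset.sum_congr rfl fun f _ => ?_
    split_ifs
    · ring
    · rw [add_zero]
  rw [hdiff]
  refine (norm_add_le _ _).trans ?_
  have hrest : ‖∑ a ∈ Ico A (2 * A), ∑ b ∈ Ico B (2 * B), ∑ e ∈ Ico E (2 * E),
      ∑ f ∈ Ico F (2 * F),
      (if cnd q0 ((h : ℤ) - h').natAbs a b e f then
        α a * β b * γ e * δ f *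
          (((sav X1 X2 Y J (jn q0 h h' r a b e f) : ℝ) : ℂ) -
            ((((X2 : ℝ) - X1) / (q0 * a * b * e * f : ℕ) : ℝ) : ℂ) -
            ∑ l ∈ fr L, ei (e * f * q0) (ci q0 h h' r b e f l) a *
              gg X1 X2 Y J h (q0 * b * e * f) l a)
      else 0)‖ ≤ (A * (B * (E * (F * (3 * x ^ (-1 : ℝ)))))) := by
    have hcard : ∀ n : ℕ, ((Ico n (2 * n)).card : ℝ) = n := by
      intro n
      rw [Nat.card_Ico, two_mul, Nat.add_sub_cancel]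
    refine (norm_sum_le_of_le _ (f := _) (n := fun _ => (B * (E * (F * (3 * x ^ (-1 : ℝ)))) : ℝ))
      fun a ha => ?_).trans ?_
    · refine (norm_sum_le_of_le _ (n := fun _ => (E * (F * (3 * x ^ (-1 : ℝ))) : ℝ))
        fun b hb => ?_).trans ?_
      · refine (norm_sum_le_of_le _ (n := fun _ => (F * (3 * x ^ (-1 : ℝ)) : ℝ))
          fun e he => ?_).trans ?_
        · refine (norm_sum_le_of_le _ (n := fun _ => (3 * x ^ (-1 : ℝ) : ℝ))
            fun f hf => ?_).trans ?_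
          · split_ifs with hc
            · rw [norm_mul]
              have h5 : ‖α a * β b * γ e * δ f‖ ≤ 1 := by
                rw [norm_mul, norm_mul, norm_mul]
                have e1 : ‖α a‖ * ‖β b‖ ≤ 1 := mul_le_one₀ (hα a) (norm_nonneg _) (hβ b)
                have e2 : ‖α a‖ * ‖β b‖ * ‖γ e‖ ≤ 1 := mul_le_one₀ e1 (norm_nonneg _) (hγ e)
                exact mul_le_one₀ e2 (norm_nonneg _) (hδ f)
              calc _ ≤ 1 * (3 * x ^ (-1 : ℝ)) := mul_le_mul h5 (hone a ha b hb e he f hf hc)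
                    (norm_nonneg _) zero_le_one
                _ = 3 * x ^ (-1 : ℝ) := one_mul _
            · rw [norm_zero]
              positivity
          · rw [Finset.sum_const, nsmul_eq_mul, hcard]
        · rw [Finset.sum_const, nsmul_eq_mul, hcard]
      · rw [Finset.sum_const, nsmul_eq_mul, hcard]
    · rw [Finset.sum_const, nsmul_eq_mul, hcard]
  have hA' : (A : ℝ) ≤ x ^ (1 / 2 : ℝ) :=
    hA.trans (Real.rpow_le_rpow_of_exponent_le hx (by linarith))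
  have hE' : (E : ℝ) ≤ x ^ (1 / 2 : ℝ) :=
    hE.trans (Real.rpow_le_rpow_of_exponent_le hx (by linarith))
  have hB' : (B : ℝ) ≤ x ^ (1 / 20 : ℝ) :=
    hB.trans (Real.rpow_le_rpow_of_exponent_le hx (by linarith))
  have hF' : (F : ℝ) ≤ x ^ (1 / 20 : ℝ) :=
    hF.trans (Real.rpow_le_rpow_of_exponent_le hx (by linarith))
  have hfin : (A * (B * (E * (F * (3 * x ^ (-1 : ℝ))))) : ℝ) ≤ x ^ (1 - η / 4) := by
    calc (A * (B * (E * (F * (3 * x ^ (-1 : ℝ))))) : ℝ)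
        ≤ x ^ (1 / 2 : ℝ) * (x ^ (1 / 20 : ℝ) * (x ^ (1 / 2 : ℝ) * (x ^ (1 / 20 : ℝ) *
          (x ^ (4 / 5 : ℝ) * x ^ (-1 : ℝ))))) := by gcongr
      _ = x ^ (9 / 10 : ℝ) := by
          rw [← Real.rpow_add hx0, ← Real.rpow_add hx0, ← Real.rpow_add hx0, ← Real.rpow_add hx0,
            ← Real.rpow_add hx0]
          norm_num
      _ ≤ x ^ (1 - η / 4) := Real.rpow_le_rpow_of_exponent_le hx (by linarith)
  linarith

open Classical in
theorem smooth_pc (η : ℝ) (hη : 0 < η) (hη1 : η ≤ 1 / 100) : ∃ x0 : ℝ, ∀ x ≥ x0,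
    ∀ (X1 X2 q0 h h' r : ℕ), X1 ≤ X2 → (X2 : ℝ) ≤ 3 * x → 0 < q0 →
      (q0 : ℝ) ≤ x ^ (η / 64) → (h : ℝ) ≤ x ^ (η / 64) →
      ∀ (α β γ δ : ℕ → ℂ), (∀ n, ‖α n‖ ≤ 1) → (∀ n, ‖β n‖ ≤ 1) → (∀ n, ‖γ n‖ ≤ 1) →
        (∀ n, ‖δ n‖ ≤ 1) →
        ‖∑ a ∈ Icc 1 ⌊x ^ (1 / 2 - η)⌋₊, ∑ b ∈ Icc 1 ⌊x ^ (1 / 20 - η)⌋₊,
          ∑ e ∈ Icc 1 ⌊x ^ (1 / 2 - η)⌋₊, ∑ f ∈ Icc 1 ⌊x ^ (1 / 20 - η)⌋₊,
            if cnd q0 ((h : ℤ) - h').natAbs a b e f then
              α a * β b * γ e * δ f *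
                (((sav X1 X2 ⌊x ^ (1 - η / 8)⌋₊ ⌈16 / η⌉₊ (jn q0 h h' r a b e f) : ℝ) : ℂ) -
                  ((((X2 : ℝ) - X1) / (q0 * a * b * e * f : ℕ) : ℝ) : ℂ))
            else 0‖ ≤ x ^ (1 - η / 8) := by
  obtain ⟨x1, hx1⟩ := box_num η hη hη1
  have ev1 : ∀ᶠ x : ℝ in Filter.atTop, 33 ≤ x ^ (1 - η / 4) :=
    (tendsto_rpow_atTop (by linarith)).eventually_ge_atTop 33
  have ev2 : ∀ᶠ x : ℝ in Filter.atTop, 3 ≤ x ^ (4 / 5 : ℝ) :=
    (tendsto_rpow_atTop (by norm_num)).eventually_ge_atTop 3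
  have ev3 : ∀ᶠ x : ℝ in Filter.atTop, 4 ≤ x ^ (η / 64) :=
    (tendsto_rpow_atTop (by linarith)).eventually_ge_atTop 4
  have ev4 : ∀ᶠ x : ℝ in Filter.atTop, Real.log x ≤ (1 / 8) * x ^ (η / 64) := by
    have h1 := (isLittleO_log_rpow_atTop (show 0 < η / 64 by linarith)).bound
      (show (0 : ℝ) < 1 / 8 by norm_num)
    filter_upwards [h1, Filter.eventually_ge_atTop 1] with x hx hx1
    rw [Real.norm_of_nonneg (Real.log_nonneg hx1),
      Real.norm_of_nonneg (by positivity)] at hx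
    exact hx
  obtain ⟨x0, hx0⟩ := Filter.eventually_atTop.1
    (((((ev1.and ev2).and ev3).and ev4).and (Filter.eventually_ge_atTop x1)).and
      (Filter.eventually_ge_atTop 1))
  refine ⟨x0, fun x hx => ?_⟩
  obtain ⟨⟨⟨⟨⟨c1, c2⟩, c3⟩, c4⟩, c5⟩, c6⟩ := hx0 x hx
  intro X1 X2 q0 h h' r hX hX2 hq0 hq0x hhx α β γ δ hα hβ hγ hδ
  have hxp : 0 < x := by linarith
  set NA : ℕ := ⌊x ^ (1 / 2 - η)⌋₊ with hNA
  set NB : ℕ := ⌊x ^ (1 / 20 - η)⌋₊ with hNB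
  have hY : 32 * x ^ (η / 8) < (⌊x ^ (1 - η / 8)⌋₊ : ℝ) := by
    have h1 : x ^ (1 - η / 8) = x ^ (1 - η / 4) * x ^ (η / 8) := by
      rw [← Real.rpow_add hxp]
      congr 1
      ring
    have h2 := Nat.lt_floor_add_one (x ^ (1 - η / 8))
    have h3 : 1 ≤ x ^ (η / 8) := Real.one_le_rpow c6 (by positivity)
    have h4 : 33 * x ^ (η / 8) ≤ x ^ (1 - η / 8) := by
      rw [h1]
      exact mul_le_mul_of_nonneg_right c1 (by positivity)
    linarith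
  have hNA0 : NA ≠ 0 := by
    have : 1 ≤ x ^ (1 / 2 - η) := Real.one_le_rpow c6 (by linarith)
    exact (Nat.floor_pos.2 this).ne'
  have hNB0 : NB ≠ 0 := by
    have : 1 ≤ x ^ (1 / 20 - η) := Real.one_le_rpow c6 (by linarith)
    exact (Nat.floor_pos.2 this).ne'
  have hNAx : (NA : ℝ) ≤ x ^ (1 / 2 - η) := Nat.floor_le (by positivity)
  have hNBx : (NB : ℝ) ≤ x ^ (1 / 20 - η) := Nat.floor_le (by positivity)
  -- the truncated coefficients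
  have htr : ∀ (N : ℕ) (g : ℕ → ℂ), (∀ n, ‖g n‖ ≤ 1) →
      ∀ n, ‖(if n ≤ N then g n else 0)‖ ≤ 1 := by
    intro N g hg n
    split_ifs
    · exact hg n
    · rw [norm_zero]
      exact zero_le_one
  set α' : ℕ → ℂ := fun n => if n ≤ NA then α n else 0 with hα'
  set β' : ℕ → ℂ := fun n => if n ≤ NB then β n else 0 with hβ'
  set γ' : ℕ → ℂ := fun n => if n ≤ NA then γ n else 0 with hγ'
  set δ' : ℕ → ℂ := fun n => if n ≤ NB then δ n else 0 with hδ'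
  have hrep : ∑ a ∈ Icc 1 NA, ∑ b ∈ Icc 1 NB, ∑ e ∈ Icc 1 NA, ∑ f ∈ Icc 1 NB,
            (if cnd q0 ((h : ℤ) - h').natAbs a b e f then
              α a * β b * γ e * δ f *
                (((sav X1 X2 ⌊x ^ (1 - η / 8)⌋₊ ⌈16 / η⌉₊ (jn q0 h h' r a b e f) : ℝ) : ℂ) -
                  ((((X2 : ℝ) - X1) / (q0 * a * b * e * f : ℕ) : ℝ) : ℂ))
            else 0) =
      ∑ a ∈ Icc 1 NA, ∑ b ∈ Icc 1 NB, ∑ e ∈ Icc 1 NA, ∑ f ∈ Icc 1 NB,
            (if cnd q0 ((h : ℤ) - h').natAbs a b e f then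
              α' a * β' b * γ' e * δ' f *
                (((sav X1 X2 ⌊x ^ (1 - η / 8)⌋₊ ⌈16 / η⌉₊ (jn q0 h h' r a b e f) : ℝ) : ℂ) -
                  ((((X2 : ℝ) - X1) / (q0 * a * b * e * f : ℕ) : ℝ) : ℂ))
            else 0) := by
    refine Finset.sum_congr rfl fun a ha => Finset.sum_congr rfl fun b hb =>
      Finset.sum_congr rfl fun e he => Finset.sum_congr rfl fun f hf => ?_
    rw [Finset.mem_Icc] at ha hb he hf
    have e1 : α' a = α a := if_pos ha.2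
    have e2 : β' b = β b := if_pos hb.2
    have e3 : γ' e = γ e := if_pos he.2
    have e4 : δ' f = δ f := if_pos hf.2
    rw [e1, e2, e3, e4]
  rw [hrep, sum_ext4 NA NB]
  · -- the sum over the boxes
    have hbox : ∀ i ∈ range (Nat.log 2 NA + 1), ∀ j ∈ range (Nat.log 2 NB + 1),
        ∀ k ∈ range (Nat.log 2 NA + 1), ∀ l ∈ range (Nat.log 2 NB + 1),
        ‖∑ a ∈ Ico (2 ^ i) (2 * 2 ^ i), ∑ b ∈ Ico (2 ^ j) (2 * 2 ^ j),
            ∑ e ∈ Ico (2 ^ k) (2 * 2 ^ k), ∑ f ∈ Ico (2 ^ l) (2 * 2 ^ l),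
            (if cnd q0 ((h : ℤ) - h').natAbs a b e f then
              α' a * β' b * γ' e * δ' f *
                (((sav X1 X2 ⌊x ^ (1 - η / 8)⌋₊ ⌈16 / η⌉₊ (jn q0 h h' r a b e f) : ℝ) : ℂ) -
                  ((((X2 : ℝ) - X1) / (q0 * a * b * e * f : ℕ) : ℝ) : ℂ))
            else 0)‖ ≤ 2 * x ^ (1 - η / 4) := by
      have hpw : ∀ (N : ℕ) (z : ℝ), N ≠ 0 → (N : ℝ) ≤ z → ∀ i ∈ range (Nat.log 2 N + 1),
          ((2 ^ i : ℕ) : ℝ) ≤ z := by
        intro N z hN hz i hi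
        rw [Finset.mem_range] at hi
        refine le_trans ?_ hz
        have h1 : 2 ^ i ≤ N :=
          (Nat.pow_le_pow_right two_pos (Nat.lt_succ_iff.1 hi)).trans (Nat.pow_log_le_self 2 hN)
        exact_mod_cast h1
      intro i hi j hj k hk l hl
      have p1 := hpw NA _ hNA0 hNAx i hi
      have p2 := hpw NB _ hNB0 hNBx j hj
      have p3 := hpw NA _ hNA0 hNAx k hk
      have p4 := hpw NB _ hNB0 hNBx l hl
      exact sum_bx x c6 η hη hη1 hY c2 X1 X2 q0 h h' r (2 ^ i) (2 ^ j) (2 ^ k) (2 ^ l) hX hX2 hq0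
        (by positivity) (by positivity) (by positivity) (by positivity) p1 p3 p2 p4 α' β' γ' δ'
        (htr NA α hα) (htr NB β hβ) (htr NA γ hγ) (htr NB δ hδ)
        (hx1 x c5 X1 X2 q0 h h' r (2 ^ i) (2 ^ j) (2 ^ k) (2 ^ l) hX hX2 hq0 hq0x hhx
          (by positivity) (by positivity) (by positivity) (by positivity) p1 p3 p2 p4 α' β' γ' δ'
          (htr NA α hα) (htr NB β hβ) (htr NA γ hγ) (htr NB δ hδ))
    have hNAx' : (NA : ℝ) ≤ x := by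
      refine hNAx.trans ?_
      conv_rhs => rw [← Real.rpow_one x]
      exact Real.rpow_le_rpow_of_exponent_le c6 (by linarith)
    have hNBx' : (NB : ℝ) ≤ x := by
      refine hNBx.trans ?_
      conv_rhs => rw [← Real.rpow_one x]
      exact Real.rpow_le_rpow_of_exponent_le c6 (by linarith)
    have hKA : ((Nat.log 2 NA + 1 : ℕ) : ℝ) ≤ (1 / 2) * x ^ (η / 64) := by
      have := sum_log NA x c6 hNAx'
      linarith
    have hKB : ((Nat.log 2 NB + 1 : ℕ) : ℝ) ≤ (1 / 2) * x ^ (η / 64) := by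
      have := sum_log NB x c6 hNBx'
      linarith
    have htot : ‖∑ i ∈ range (Nat.log 2 NA + 1), ∑ j ∈ range (Nat.log 2 NB + 1),
        ∑ k ∈ range (Nat.log 2 NA + 1), ∑ l ∈ range (Nat.log 2 NB + 1),
        ∑ a ∈ Ico (2 ^ i) (2 * 2 ^ i), ∑ b ∈ Ico (2 ^ j) (2 * 2 ^ j),
            ∑ e ∈ Ico (2 ^ k) (2 * 2 ^ k), ∑ f ∈ Ico (2 ^ l) (2 * 2 ^ l),
            (if cnd q0 ((h : ℤ) - h').natAbs a b e f then
              α' a * β' b * γ' e * δ' f *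
                (((sav X1 X2 ⌊x ^ (1 - η / 8)⌋₊ ⌈16 / η⌉₊ (jn q0 h h' r a b e f) : ℝ) : ℂ) -
                  ((((X2 : ℝ) - X1) / (q0 * a * b * e * f : ℕ) : ℝ) : ℂ))
            else 0)‖ ≤ ((Nat.log 2 NA + 1 : ℕ) : ℝ) * (((Nat.log 2 NB + 1 : ℕ) : ℝ) *
              (((Nat.log 2 NA + 1 : ℕ) : ℝ) * (((Nat.log 2 NB + 1 : ℕ) : ℝ) *
                (2 * x ^ (1 - η / 4))))) := by
      refine (norm_sum_le_of_le _ (n := fun _ => (((Nat.log 2 NB + 1 : ℕ) : ℝ) *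
              (((Nat.log 2 NA + 1 : ℕ) : ℝ) * (((Nat.log 2 NB + 1 : ℕ) : ℝ) *
                (2 * x ^ (1 - η / 4)))))) fun i hi => ?_).trans ?_
      · refine (norm_sum_le_of_le _ (n := fun _ => (((Nat.log 2 NA + 1 : ℕ) : ℝ) *
          (((Nat.log 2 NB + 1 : ℕ) : ℝ) * (2 * x ^ (1 - η / 4))))) fun j hj => ?_).trans ?_
        · refine (norm_sum_le_of_le _ (n := fun _ => (((Nat.log 2 NB + 1 : ℕ) : ℝ) *
            (2 * x ^ (1 - η / 4)))) fun k hk => ?_).trans ?_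
          · refine (norm_sum_le_of_le _ (n := fun _ => (2 * x ^ (1 - η / 4)))
              fun l hl => hbox i hi j hj k hk l hl).trans ?_
            rw [Finset.sum_const, nsmul_eq_mul, Finset.card_range]
          · rw [Finset.sum_const, nsmul_eq_mul, Finset.card_range]
        · rw [Finset.sum_const, nsmul_eq_mul, Finset.card_range]
      · rw [Finset.sum_const, nsmul_eq_mul, Finset.card_range]
    refine htot.trans ?_
    have hpos : 0 ≤ x ^ (1 - η / 4) := by positivity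
    calc ((Nat.log 2 NA + 1 : ℕ) : ℝ) * (((Nat.log 2 NB + 1 : ℕ) : ℝ) *
              (((Nat.log 2 NA + 1 : ℕ) : ℝ) * (((Nat.log 2 NB + 1 : ℕ) : ℝ) *
                (2 * x ^ (1 - η / 4)))))
        ≤ ((1 / 2) * x ^ (η / 64)) * (((1 / 2) * x ^ (η / 64)) * (((1 / 2) * x ^ (η / 64)) *
          (((1 / 2) * x ^ (η / 64)) * (2 * x ^ (1 - η / 4))))) := by gcongr
      _ = (1 / 8) * (x ^ (η / 64) * (x ^ (η / 64) * (x ^ (η / 64) * (x ^ (η / 64) *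
          x ^ (1 - η / 4))))) := by ring
      _ = (1 / 8) * x ^ (1 - 3 * η / 16) := by
          rw [← Real.rpow_add hxp, ← Real.rpow_add hxp, ← Real.rpow_add hxp, ← Real.rpow_add hxp]
          congr 2
          ring
      _ ≤ 1 * x ^ (1 - 3 * η / 16) := by
          apply mul_le_mul_of_nonneg_right (by norm_num) (by positivity)
      _ ≤ x ^ (1 - η / 8) := by
          rw [one_mul]
          exact Real.rpow_le_rpow_of_exponent_le c6 (by linarith)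
  · -- vanishing outside
    intro a b e f hout
    have h0 : α' a * β' b * γ' e * δ' f = 0 := by
      rcases hout with h1 | h1 | h1 | h1
      · have : α' a = 0 := if_neg (not_le.2 h1)
        rw [this, zero_mul, zero_mul, zero_mul]
      · have : β' b = 0 := if_neg (not_le.2 h1)
        rw [this, mul_zero, zero_mul, zero_mul]
      · have : γ' e = 0 := if_neg (not_le.2 h1)
        rw [this, mul_zero, zero_mul]
      · have : δ' f = 0 := if_neg (not_le.2 h1)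
        rw [this, mul_zero]
    rw [h0, zero_mul, ite_self]

end Pool.Agent.H11.PX
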